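import Pool.Agent.MP_88bd62_nt.Euler

/-! The Abelian argument: a one-sided bound on `S(x)/x` gives an inequality between residues. -/

namespace Pool.Agent.MP_88bd62_nt

open Complex Filter Topology Finset ArithmeticFunction MeasureTheory Asymptotics

noncomputable def SR (x : ℝ) : ℝ := ∑ n ∈ Icc 1 ⌊x⌋₊, (-2 : ℝ) ^ (cardFactors n)

noncomputable def tau : ℝ := Real.pi / Real.log 2

noncomputable def pt (σ : ℝ) (d : ℕ) : ℂ := σ + (d * tau : ℝ) * I

noncomputable def Rd (d : ℕ) : ℂ :=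
  4 / 9 * exp (Lam (pt 1 d)) / (riemannZeta (pt 1 d) ^ 2 * (pt 1 d * Real.log 2))

@[simp] lemma pt_re (σ : ℝ) (d : ℕ) : (pt σ d).re = σ := by simp [pt]
@[simp] lemma pt_im (σ : ℝ) (d : ℕ) : (pt σ d).im = d * tau := by simp [pt]

lemma log2_pos : 0 < Real.log 2 := Real.log_pos (by norm_num)
lemma tau_pos : 0 < tau := div_pos Real.pi_pos log2_pos

lemma sum_norm_le {r : ℝ} (hr : 1 < r) :
    ∃ C : ℝ, 0 ≤ C ∧ ∀ n : ℕ, ∑ k ∈ Icc 1 n, ‖fc k‖ ≤ C * (n : ℝ) ^ r := by
  refine ⟨∑' k : ℕ, (2 : ℝ) ^ (cardFactors k) * (k : ℝ) ^ (-r),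
    tsum_nonneg fun k => by positivity, fun n => ?_⟩
  have h1 : ∑ k ∈ Icc 1 n, ‖fc k‖
      ≤ ∑ k ∈ Icc 1 n, ((2 : ℝ) ^ (cardFactors k) * (k : ℝ) ^ (-r)) * (n : ℝ) ^ r := by
    refine sum_le_sum fun k hk => ?_
    obtain ⟨h1, h2⟩ := mem_Icc.mp hk
    have hk0 : (0 : ℝ) < k := by exact_mod_cast h1
    have : (k : ℝ) ^ r ≤ (n : ℝ) ^ r := by gcongr
    have e : (k : ℝ) ^ (-r) * (k : ℝ) ^ r = 1 := by
      rw [← Real.rpow_add hk0]; simp
    rw [norm_fc, mul_assoc]
    refine le_mul_of_one_le_right (by positivity) ?_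
    rw [← e]; gcongr
  refine h1.trans ?_
  rw [← sum_mul]
  gcongr
  exact (summable_g hr).sum_le_tsum _ fun k _ => by positivity

lemma SR_cast (x : ℝ) : (SR x : ℂ) = ∑ k ∈ Icc 1 ⌊x⌋₊, fc k := by
  simp [SR, fc]

lemma abs_SR_le {r : ℝ} (hr : 1 < r) :
    ∃ C : ℝ, 0 ≤ C ∧ ∀ x : ℝ, 0 ≤ x → |SR x| ≤ C * x ^ r := by
  obtain ⟨C, h0, hC⟩ := sum_norm_le hr
  refine ⟨C, h0, fun x hx => ?_⟩
  rw [← Real.norm_eq_abs, ← Complex.norm_real, SR_cast]
  refine (norm_sum_le _ _).trans ((hC _).trans ?_)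
  gcongr
  exact Nat.floor_le hx

lemma measurable_SR : Measurable SR :=
  (measurable_from_nat (f := fun n : ℕ => ∑ k ∈ Icc 1 n, (-2 : ℝ) ^ (cardFactors k))).comp
    Nat.measurable_floor

lemma integrable_SR {s : ℂ} (hs : 1 < s.re) :
    IntegrableOn (fun x : ℝ => (SR x : ℂ) * (x : ℂ) ^ (-(s + 1))) (Set.Ioi 1) := by
  obtain ⟨C, h0, hC⟩ := abs_SR_le (r := (1 + s.re) / 2) (by linarith)
  have h1 : IntegrableOn (fun x : ℝ => C * x ^ ((1 + s.re) / 2 - (s.re + 1))) (Set.Ioi 1) :=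
    (integrableOn_Ioi_rpow_of_lt (by linarith) zero_lt_one).const_mul C
  refine Integrable.mono' h1 ?_ ?_
  · refine AEStronglyMeasurable.mul
      (Complex.measurable_ofReal.comp measurable_SR).aestronglyMeasurable ?_
    exact (integrableOn_Ioi_cpow_of_lt (a := -(s + 1)) (by simp; linarith) zero_lt_one).1
  · refine (ae_restrict_iff' measurableSet_Ioi).mpr (Eventually.of_forall fun x hx => ?_)
    have hx0 : (0 : ℝ) < x := lt_trans zero_lt_one hx
    rw [norm_mul, Complex.norm_real, Real.norm_eq_abs, norm_cpow_eq_rpow_re_of_pos hx0,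
      sub_eq_add_neg, Real.rpow_add hx0, ← mul_assoc]
    have : (-(s + 1)).re = -(s.re + 1) := by simp
    rw [this]
    gcongr
    exact hC x hx0.le

lemma integral_SR {s : ℂ} (hs : 1 < s.re) :
    ∫ x in Set.Ioi (1 : ℝ), (SR x : ℂ) * (x : ℂ) ^ (-(s + 1)) = LSeries fc s / s := by
  obtain ⟨C, h0, hC⟩ := sum_norm_le (r := (1 + s.re) / 2) (by linarith)
  have := LSeries_eq_mul_integral' fc (r := (1 + s.re) / 2) (by linarith) (s := s) (by linarith)
    (IsBigO.of_bound C (Eventually.of_forall fun n => by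
      rw [Real.norm_of_nonneg (sum_nonneg fun _ _ => norm_nonneg _),
        Real.norm_of_nonneg (by positivity)]
      exact hC n))
  rw [this, mul_div_cancel_left₀ _ (ne_zero_of_one_lt_re hs)]
  simp only [SR_cast]

lemma integral_G (c B ε : ℝ) {s : ℂ} (hs : 1 < s.re) :
    IntegrableOn (fun x : ℝ => ((c * x + B - ε * SR x : ℝ) : ℂ) * (x : ℂ) ^ (-(s + 1))) (Set.Ioi 1) ∧
    ∫ x in Set.Ioi (1 : ℝ), ((c * x + B - ε * SR x : ℝ) : ℂ) * (x : ℂ) ^ (-(s + 1))
      = c / (s - 1) + B / s - ε * (LSeries fc s / s) := by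
  have i1 := integrableOn_Ioi_cpow_of_lt (a := -s) (by simp; linarith) zero_lt_one
  have i2 := integrableOn_Ioi_cpow_of_lt (a := -(s + 1)) (by simp; linarith) zero_lt_one
  have i3 := integrable_SR hs
  have e : Set.EqOn (fun x : ℝ => (c * (x : ℂ) ^ (-s) + B * (x : ℂ) ^ (-(s + 1)))
        - ε * ((SR x : ℂ) * (x : ℂ) ^ (-(s + 1))))
      (fun x : ℝ => ((c * x + B - ε * SR x : ℝ) : ℂ) * (x : ℂ) ^ (-(s + 1))) (Set.Ioi 1) := by
    intro x hx
    have hx0 : (x : ℂ) ≠ 0 := by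
      have : (0 : ℝ) < x := lt_trans zero_lt_one hx
      exact_mod_cast this.ne'
    have : (x : ℂ) ^ (-s) = x * (x : ℂ) ^ (-(s + 1)) := by
      rw [show -s = 1 + -(s + 1) by ring, cpow_add _ _ hx0, cpow_one]
    simp only [this]; push_cast; ring
  have j1 := i1.const_mul (c : ℂ)
  have j2 := i2.const_mul (B : ℂ)
  have j3 := i3.const_mul (ε : ℂ)
  have j4 : Integrable (fun x : ℝ => c * (x : ℂ) ^ (-s) + B * (x : ℂ) ^ (-(s + 1)))
      (volume.restrict (Set.Ioi 1)) := j1.add j2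
  have j5 : IntegrableOn (fun x : ℝ => (c * (x : ℂ) ^ (-s) + B * (x : ℂ) ^ (-(s + 1)))
        - ε * ((SR x : ℂ) * (x : ℂ) ^ (-(s + 1)))) (Set.Ioi 1) := j4.sub j3
  refine ⟨j5.congr_fun e measurableSet_Ioi, ?_⟩
  rw [← setIntegral_congr_fun measurableSet_Ioi e, integral_sub j4 j3,
    integral_add j1 j2, integral_const_mul, integral_const_mul, integral_const_mul,
    integral_SR hs, integral_Ioi_cpow_of_lt (by simp; linarith) zero_lt_one,
    integral_Ioi_cpow_of_lt (by simp; linarith) zero_lt_one]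
  have h1 : s - 1 ≠ 0 := fun h => by
    have := congrArg re h; simp at this; linarith
  have h2 : s ≠ 0 := ne_zero_of_one_lt_re hs
  have h3 : -s + 1 = -(s - 1) := by ring
  have h4 : -(s + 1) + 1 = -s := by ring
  rw [h3, h4]
  simp only [ofReal_one, one_cpow]
  field_simp

lemma pos_sum {L : ℕ} {w : ℕ → ℝ}
    (hK : ∀ v : ℂ, ‖v‖ = 1 → 0 ≤ ∑ d ∈ range L, w d * (v ^ d).re)
    {ω : ℂ} (hω : ‖ω‖ = 1) {c B ε : ℝ} (hG : ∀ x, 1 < x → 0 ≤ c * x + B - ε * SR x)
    {σ : ℝ} (hσ : 1 < σ) :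
    0 ≤ ∑ d ∈ range L, w d * (ω ^ d * (c / (pt σ d - 1) + B / pt σ d
      - ε * (LSeries fc (pt σ d) / pt σ d))).re := by
  have hs : ∀ d, 1 < (pt σ d).re := fun d => by simpa using hσ
  have e1 : ∀ d ∈ range L, w d * (ω ^ d * (c / (pt σ d - 1) + B / pt σ d
      - ε * (LSeries fc (pt σ d) / pt σ d))).re = ∫ x in Set.Ioi (1 : ℝ),
        w d * (ω ^ d * (((c * x + B - ε * SR x : ℝ) : ℂ) * (x : ℂ) ^ (-(pt σ d + 1)))).re := by
    intro d _
    obtain ⟨h1, h2⟩ := integral_G c B ε (hs d)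
    rw [← h2, integral_const_mul, ← integral_const_mul]
    congr 1
    exact (integral_re (h1.const_mul (ω ^ d))).symm
  rw [sum_congr rfl e1, ← integral_finsetSum]
  · refine setIntegral_nonneg measurableSet_Ioi fun x hx => ?_
    have hx0 : (0 : ℝ) < x := lt_trans zero_lt_one hx
    have hx1 : (x : ℂ) ≠ 0 := by exact_mod_cast hx0.ne'
    set v : ℂ := ω * (x : ℂ) ^ (-(tau * I : ℂ)) with hv
    have hv1 : ‖v‖ = 1 := by
      rw [hv, norm_mul, hω, norm_cpow_eq_rpow_re_of_pos hx0]; simp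
    have e2 : ∀ d ∈ range L,
        w d * (ω ^ d * (((c * x + B - ε * SR x : ℝ) : ℂ) * (x : ℂ) ^ (-(pt σ d + 1)))).re
        = ((c * x + B - ε * SR x) * x ^ (-(σ + 1))) * (w d * (v ^ d).re) := by
      intro d _
      have : (x : ℂ) ^ (-(pt σ d + 1))
          = ((x ^ (-(σ + 1)) : ℝ) : ℂ) * ((x : ℂ) ^ (-(tau * I : ℂ))) ^ d := by
        rw [← cpow_nat_mul, ofReal_cpow hx0.le, ← cpow_add _ _ hx1]
        congr 1
        simp only [pt]; push_cast; ring
      rw [this, hv, mul_pow]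
      have : ω ^ d * (((c * x + B - ε * SR x : ℝ) : ℂ) *
          (((x ^ (-(σ + 1)) : ℝ) : ℂ) * ((x : ℂ) ^ (-(tau * I : ℂ))) ^ d))
          = (((c * x + B - ε * SR x) * x ^ (-(σ + 1)) : ℝ) : ℂ) *
            (ω ^ d * ((x : ℂ) ^ (-(tau * I : ℂ))) ^ d) := by
        rw [ofReal_mul]; ring
      rw [this, re_ofReal_mul]; ring
    rw [sum_congr rfl e2, ← mul_sum]
    exact mul_nonneg (mul_nonneg (hG x hx) (by positivity)) (hK v hv1)
  · intro d _
    exact ((integral_G c B ε (hs d)).1.const_mul (ω ^ d)).re.const_mul _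

lemma two_cpow_pt (σ : ℝ) (d : ℕ) : (2 : ℂ) ^ (-pt σ d) = (((2 : ℝ) ^ (-σ) : ℝ) : ℂ) * (-1) ^ d := by
  have h2 : (2 : ℂ) ≠ 0 := two_ne_zero
  have e : -pt σ d = ((-σ : ℝ) : ℂ) + d * (-(tau * I)) := by simp only [pt]; push_cast; ring
  have e2 : (2 : ℂ) ^ (-(tau * I : ℂ)) = -1 := by
    rw [cpow_def_of_ne_zero h2]
    have : Complex.log 2 = (Real.log 2 : ℝ) := by
      rw [ofReal_log (x := 2) (by norm_num)]; simp
    rw [this]
    have h3 : ((Real.log 2 : ℝ) : ℂ) * -(tau * I) = -(Real.pi * I) := by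
      have : ((Real.log 2 : ℝ) : ℂ) ≠ 0 := by exact_mod_cast log2_pos.ne'
      simp only [tau]; push_cast at this ⊢; field_simp
    rw [h3, exp_neg, exp_pi_mul_I]; norm_num
  rw [e, cpow_add _ _ h2, cpow_nat_mul, e2, ofReal_cpow (by norm_num)]
  simp

lemma continuous_pt (d : ℕ) : Continuous fun σ : ℝ => pt σ d := by
  unfold pt; fun_prop

lemma tendsto_pt (d : ℕ) : Tendsto (fun σ : ℝ => pt σ d) (𝓝[>] 1) (𝓝 (pt 1 d)) :=
  ((continuous_pt d).tendsto 1).mono_left nhdsWithin_le_nhds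

lemma pt_ne_one {d : ℕ} (hd : d ≠ 0) (σ : ℝ) : pt σ d ≠ 1 := fun h => by
  have := congrArg im h
  simp only [pt_im, one_im, mul_eq_zero, Nat.cast_eq_zero] at this
  rcases this with h | h
  · exact hd h
  · exact tau_pos.ne' h

lemma pt_ne_zero (d : ℕ) : pt 1 d ≠ 0 := fun h => by
  have := congrArg re h; simp at this

lemma tendsto_Lam (d : ℕ) :
    Tendsto (fun σ : ℝ => exp (Lam (pt σ d))) (𝓝[>] 1) (𝓝 (exp (Lam (pt 1 d)))) := by
  refine (continuous_exp.tendsto _).comp ?_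
  refine (continuousOn_Lam (pt 1 d) (by simp)).tendsto.comp ?_
  refine tendsto_nhdsWithin_iff.mpr ⟨tendsto_pt d, ?_⟩
  filter_upwards [self_mem_nhdsWithin] with σ hσ
  simpa using le_of_lt hσ

lemma tendsto_zeta {d : ℕ} (hd : d ≠ 0) :
    Tendsto (fun σ : ℝ => riemannZeta (pt σ d)) (𝓝[>] 1) (𝓝 (riemannZeta (pt 1 d))) :=
  (differentiableAt_riemannZeta (pt_ne_one hd 1)).continuousAt.tendsto.comp (tendsto_pt d)

lemma tendsto_two : Tendsto (fun σ : ℝ => (((2 : ℝ) ^ (-σ) : ℝ) : ℂ)) (𝓝[>] 1) (𝓝 (1 / 2)) := by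
  have : Continuous fun σ : ℝ => (((2 : ℝ) ^ (-σ) : ℝ) : ℂ) :=
    continuous_ofReal.comp (continuous_const.rpow continuous_neg (fun _ => Or.inl (by norm_num)))
  have h := (this.tendsto 1).mono_left (nhdsWithin_le_nhds (s := Set.Ioi 1))
  simp only [Real.rpow_neg_one] at h
  convert h using 2
  push_cast; ring

lemma tendsto_sub_one : Tendsto (fun σ : ℝ => ((σ : ℂ) - 1)) (𝓝[>] 1) (𝓝 0) := by
  have : Continuous fun σ : ℝ => ((σ : ℂ) - 1) := by fun_prop
  simpa using (this.tendsto 1).mono_left (nhdsWithin_le_nhds (s := Set.Ioi 1))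

lemma tendsto_slope :
    Tendsto (fun σ : ℝ => ((σ : ℂ) - 1) / (1 - 2 * (((2 : ℝ) ^ (-σ) : ℝ) : ℂ))) (𝓝[>] 1)
      (𝓝 (1 / (Real.log 2 : ℂ))) := by
  have h1 : HasDerivAt (fun σ : ℝ => 1 - 2 * (2 : ℝ) ^ (-σ)) (Real.log 2) 1 := by
    have := (((hasDerivAt_neg (1 : ℝ)).const_rpow (a := 2) (by norm_num)).const_mul 2).const_sub 1
    refine this.congr_deriv ?_
    rw [Real.rpow_neg_one]; ring
  have h2 := (hasDerivAt_iff_tendsto_slope.mp h1).mono_left (nhdsGT_le_nhdsNE 1)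
  have h3 := (continuous_ofReal.tendsto _).comp (h2.inv₀ log2_pos.ne')
  rw [ofReal_inv, ← one_div] at h3
  refine h3.congr fun σ => ?_
  simp only [Function.comp, slope_def_field, Real.rpow_neg_one]
  push_cast
  norm_num

lemma D_eq {s : ℂ} (hs : 1 < s.re) :
    LSeries fc s = exp (Lam s) /
      (riemannZeta s ^ 2 * ((1 + 2 * (2 : ℂ) ^ (-s)) * (1 - (2 : ℂ) ^ (-s)) ^ 2)) := by
  have h := euler_identity hs
  rw [mul_assoc] at h
  exact eq_div_of_mul_eq (right_ne_zero_of_mul (h ▸ exp_ne_zero _)) h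

lemma tendsto_D (d : ℕ) :
    Tendsto (fun σ : ℝ => ((σ : ℂ) - 1) * (LSeries fc (pt σ d) / pt σ d)) (𝓝[>] 1)
      (𝓝 (if Odd d then Rd d else 0)) := by
  have hD : ∀ᶠ σ : ℝ in 𝓝[>] 1, LSeries fc (pt σ d) = exp (Lam (pt σ d)) /
      (riemannZeta (pt σ d) ^ 2 * ((1 + 2 * ((((2 : ℝ) ^ (-σ) : ℝ) : ℂ) * (-1) ^ d)) *
        (1 - (((2 : ℝ) ^ (-σ) : ℝ) : ℂ) * (-1) ^ d) ^ 2)) := by
    filter_upwards [self_mem_nhdsWithin] with σ hσ
    rw [D_eq (by simpa using hσ), two_cpow_pt]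
  rcases eq_or_ne d 0 with rfl | hd
  · have hz : Tendsto (fun σ : ℝ => (pt σ 0 - 1) * riemannZeta (pt σ 0)) (𝓝[>] 1) (𝓝 1) := by
      refine riemannZeta_residue_one.comp (tendsto_nhdsWithin_iff.mpr ⟨?_, ?_⟩)
      · simpa [pt] using tendsto_pt 0
      · filter_upwards [self_mem_nhdsWithin] with σ hσ
        intro h
        have := congrArg re h
        simp at this
        exact (ne_of_gt hσ) this
    have h := (tendsto_sub_one.pow 3).mul ((tendsto_Lam 0).div (((hz.pow 2).mul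
      (((tendsto_two.const_mul 2).const_add 1).mul ((tendsto_two.const_sub 1).pow 2))).mul
        (tendsto_pt 0)) (by
          have := pt_ne_zero 0
          norm_num; exact this))
    rw [if_neg (by decide)]
    simp only [ne_eq, OfNat.ofNat_ne_zero, not_false_eq_true, zero_pow, zero_mul] at h
    refine h.congr' ?_
    filter_upwards [hD, self_mem_nhdsWithin] with σ h1 hσ
    have e : pt σ 0 = σ := by simp [pt]
    have h2 : (σ : ℂ) - 1 ≠ 0 := fun h => by
      have := congrArg re h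
      simp at this
      have h5 : 1 < σ := hσ
      linarith
    rw [h1]
    simp only [Pi.div_apply, e, pow_zero, mul_one]
    field_simp
  have hz := riemannZeta_ne_zero_of_one_le_re (s := pt 1 d) (by simp)
  rcases Nat.even_or_odd d with he | ho
  · have h := tendsto_sub_one.mul ((tendsto_Lam d).div ((((tendsto_zeta hd).pow 2).mul
      (((tendsto_two.const_mul 2).const_add 1).mul ((tendsto_two.const_sub 1).pow 2))).mul
        (tendsto_pt d)) (by
          have := pt_ne_zero d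
          norm_num; exact ⟨hz, this⟩))
    rw [if_neg (Nat.not_odd_iff_even.mpr he)]
    rw [zero_mul] at h
    refine h.congr' ?_
    filter_upwards [hD] with σ h1
    rw [h1, he.neg_one_pow]
    simp only [Pi.div_apply, mul_one]
    rw [div_div]
  · have h := tendsto_slope.mul ((tendsto_Lam d).div ((((tendsto_zeta hd).pow 2).mul
      ((tendsto_two.const_add 1).pow 2)).mul (tendsto_pt d)) (by
          have := pt_ne_zero d
          norm_num; exact ⟨hz, this⟩))
    rw [if_pos ho]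
    have e : Rd d = 1 / (Real.log 2 : ℂ) * (exp (Lam (pt 1 d)) /
        (riemannZeta (pt 1 d) ^ 2 * (1 + 1 / 2) ^ 2 * pt 1 d)) := by
      have : ((Real.log 2 : ℝ) : ℂ) ≠ 0 := by exact_mod_cast log2_pos.ne'
      have := pt_ne_zero d
      rw [Rd]; field_simp; norm_num
    rw [e]
    refine h.congr' ?_
    filter_upwards [hD] with σ h1
    rw [h1, ho.neg_one_pow]
    simp only [Pi.div_apply, mul_neg, mul_one, sub_neg_eq_add, ← sub_eq_add_neg]
    simp only [div_eq_mul_inv, mul_inv]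
    ring

lemma main_ineq {L : ℕ} (hL : 0 < L) {w : ℕ → ℝ}
    (hK : ∀ v : ℂ, ‖v‖ = 1 → 0 ≤ ∑ d ∈ range L, w d * (v ^ d).re)
    {ω : ℂ} (hω : ‖ω‖ = 1) {c ε : ℝ} (hc : ∀ᶠ x in atTop, ε * SR x ≤ c * x) :
    ε * ∑ d ∈ range L, w d * (ω ^ d * if Odd d then Rd d else 0).re ≤ c * w 0 := by
  obtain ⟨x₀, hx₀⟩ := eventually_atTop.mp hc
  obtain ⟨C, hC0, hC⟩ := abs_SR_le (r := 2) (by norm_num)
  set B : ℝ := |c| * |x₀| + |ε| * (C * |x₀| ^ (2 : ℝ)) with hB
  have hG : ∀ x, 1 < x → 0 ≤ c * x + B - ε * SR x := by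
    intro x hx
    have hB0 : 0 ≤ B := by positivity
    rcases le_total x₀ x with h | h
    · linarith [hx₀ x h]
    · have h1 : x ≤ |x₀| := h.trans (le_abs_self _)
      have h2 : |c * x| ≤ |c| * |x₀| := by
        rw [abs_mul, abs_of_pos (by linarith : 0 < x)]; gcongr
      have h3 : |ε * SR x| ≤ |ε| * (C * |x₀| ^ (2 : ℝ)) := by
        rw [abs_mul]
        gcongr
        refine (hC x (by linarith)).trans ?_
        gcongr
      linarith [neg_abs_le (c * x), le_abs_self (ε * SR x)]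
  have hlim : ∀ d ∈ range L, Tendsto (fun σ : ℝ => (σ - 1) * (w d * (ω ^ d * (c / (pt σ d - 1)
      + B / pt σ d - ε * (LSeries fc (pt σ d) / pt σ d))).re)) (𝓝[>] 1)
      (𝓝 (w d * (ω ^ d * ((if d = 0 then (c : ℂ) else 0)
        - ε * if Odd d then Rd d else 0)).re)) := by
    intro d _
    have h1 : Tendsto (fun σ : ℝ => ((σ : ℂ) - 1) * (c / (pt σ d - 1))) (𝓝[>] 1)
        (𝓝 (if d = 0 then (c : ℂ) else 0)) := by
      split_ifs with hd
      · subst hd
        refine tendsto_const_nhds.congr' ?_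
        filter_upwards [self_mem_nhdsWithin] with σ hσ
        have h2 : (σ : ℂ) - 1 ≠ 0 := fun h => by
          have := congrArg re h
          simp at this
          have h5 : 1 < σ := hσ
          linarith
        have e : pt σ 0 = σ := by simp [pt]
        rw [e]; field_simp
      · simpa using tendsto_sub_one.mul ((tendsto_const_nhds (x := (c : ℂ))).div
          ((tendsto_pt d).sub_const 1) (sub_ne_zero.mpr (pt_ne_one hd 1)))
    have h2 : Tendsto (fun σ : ℝ => ((σ : ℂ) - 1) * (B / pt σ d)) (𝓝[>] 1) (𝓝 0) := by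
      simpa using tendsto_sub_one.mul ((tendsto_const_nhds (x := (B : ℂ))).div
          (tendsto_pt d) (pt_ne_zero d))
    have h3 := (((h1.add h2).sub ((tendsto_D d).const_mul (ε : ℂ))).const_mul (ω ^ d))
    rw [add_zero] at h3
    have h4 := ((continuous_re.tendsto _).comp h3).const_mul (w d)
    refine h4.congr fun σ => ?_
    have : ω ^ d * (((σ : ℂ) - 1) * (c / (pt σ d - 1)) + ((σ : ℂ) - 1) * (B / pt σ d)
        - ε * (((σ : ℂ) - 1) * (LSeries fc (pt σ d) / pt σ d)))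
        = ((σ - 1 : ℝ) : ℂ) * (ω ^ d * (c / (pt σ d - 1)
          + B / pt σ d - ε * (LSeries fc (pt σ d) / pt σ d))) := by push_cast; ring
    simp only [Function.comp, this, re_ofReal_mul]
    ring
  have hsum := tendsto_finsetSum _ hlim
  have h0 := ge_of_tendsto hsum (b := 0) (by
    filter_upwards [self_mem_nhdsWithin] with σ hσ
    rw [← mul_sum]
    exact mul_nonneg (by have : 1 < σ := hσ; linarith) (pos_sum hK hω hG hσ))
  have e : ∀ d ∈ range L, w d * (ω ^ d * ((if d = 0 then (c : ℂ) else 0)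
        - ε * if Odd d then Rd d else 0)).re = (if d = 0 then c * w 0 else 0)
        - ε * (w d * (ω ^ d * if Odd d then Rd d else 0).re) := by
    intro d _
    have : ω ^ d * ((if d = 0 then (c : ℂ) else 0) - ε * if Odd d then Rd d else 0)
        = (((if d = 0 then c else 0 : ℝ)) : ℂ) - ε * (ω ^ d * if Odd d then Rd d else 0) := by
      split_ifs with h1 h2 h2
      · subst h1; simp
      · subst h1; simp
      · simp; ring
      · simp
    rw [this, sub_re, re_ofReal_mul, ofReal_re]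
    split_ifs with h1
    · subst h1; ring
    · subst h1; ring
    · ring
    · ring
  rw [sum_congr rfl e, sum_sub_distrib, ← mul_sum, sum_ite_eq' , if_pos (mem_range.mpr hL)] at h0
  linarith

end Pool.Agent.MP_88bd62_nt
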