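import Mathlib

/-! Dirichlet series of `(-2)^Ω(n)`: absolute convergence and the Euler product identity. -/

namespace Pool.Agent.MP_88bd62_nt

open Complex Filter Topology Finset ArithmeticFunction

/-- The coefficient `(-2)^Ω(n)` as a complex number. -/
noncomputable def fc (n : ℕ) : ℂ := (-2 : ℂ) ^ (cardFactors n)

noncomputable def gR (σ : ℝ) (hσ : σ ≠ 0) : ℕ →* ℝ where
  toFun n := 2 ^ (cardFactors n) * (n : ℝ) ^ (-σ)
  map_one' := by simp
  map_mul' m n := by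
    rcases eq_or_ne m 0 with rfl | hm
    · simp [hσ]
    rcases eq_or_ne n 0 with rfl | hn
    · simp [hσ]
    rw [cardFactors_mul hm hn, pow_add, Nat.cast_mul,
      Real.mul_rpow (Nat.cast_nonneg m) (Nat.cast_nonneg n)]
    ring

lemma summable_g {σ : ℝ} (hσ : 1 < σ) :
    Summable (fun n : ℕ => (2 : ℝ) ^ (cardFactors n) * (n : ℝ) ^ (-σ)) := by
  have h0 : σ ≠ 0 := by positivity
  set u : ℝ := 2 * (2 : ℝ) ^ (-σ) with hu
  have hu1 : u < 1 := by
    have : (2 : ℝ) ^ (-σ) < 2 ^ (-1 : ℝ) :=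
      Real.rpow_lt_rpow_of_exponent_lt (by norm_num) (by linarith)
    rw [Real.rpow_neg_one] at this
    linarith
  have hp : ∀ {p : ℕ}, p.Prime → 0 ≤ gR σ h0 p ∧ gR σ h0 p ≤ u ∧ gR σ h0 p = 2 * (p : ℝ) ^ (-σ) := by
    intro p hp
    have e : gR σ h0 p = 2 * (p : ℝ) ^ (-σ) := by
      change 2 ^ (cardFactors p) * (p : ℝ) ^ (-σ) = _
      rw [cardFactors_apply_prime hp, pow_one]
    refine ⟨by rw [e]; positivity, ?_, e⟩
    rw [e, hu]
    have : (p : ℝ) ^ (-σ) ≤ (2 : ℝ) ^ (-σ) :=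
      Real.rpow_le_rpow_of_nonpos (by norm_num) (by exact_mod_cast hp.two_le) (by linarith)
    linarith
  have hz : Summable (fun n : ℕ => (n : ℝ) ^ (-σ)) := Real.summable_nat_rpow.mpr (by linarith)
  refine summable_of_sum_range_le (c := Real.exp (2 / (1 - u) * ∑' n : ℕ, (n : ℝ) ^ (-σ)))
    (fun n => by positivity) fun N => ?_
  have h1 := (EulerProduct.summable_and_hasSum_smoothNumbers_prod_primesBelow_geometric
    (f := gR σ h0) (fun {p} h => by
      rw [Real.norm_of_nonneg (hp h).1]; exact (hp h).2.1.trans_lt hu1) N).2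
  have h2 : HasSum ((N.smoothNumbers).indicator (gR σ h0)) _ :=
    hasSum_subtype_iff_indicator.mp h1
  have h3 := sum_le_hasSum (range N) (fun i _ => Set.indicator_nonneg (fun n _ => by
    change 0 ≤ 2 ^ (cardFactors n) * (n : ℝ) ^ (-σ); positivity) i) h2
  have h4 : ∑ i ∈ range N, (2 : ℝ) ^ (cardFactors i) * (i : ℝ) ^ (-σ)
      = ∑ i ∈ range N, (N.smoothNumbers).indicator (gR σ h0) i := by
    refine sum_congr rfl fun i hi => ?_
    rcases Nat.eq_zero_or_pos i with rfl | hi0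
    · have : (0 : ℕ) ∉ N.smoothNumbers := fun h => Nat.ne_zero_of_mem_smoothNumbers h rfl
      rw [Set.indicator_of_notMem this]; simp [h0]
    · rw [Set.indicator_of_mem (Nat.mem_smoothNumbers_of_lt hi0 (mem_range.mp hi))]; rfl
  rw [h4]
  refine h3.trans ?_
  have h5 : ∏ p ∈ N.primesBelow, (1 - gR σ h0 p)⁻¹
      ≤ ∏ p ∈ N.primesBelow, Real.exp (2 / (1 - u) * (p : ℝ) ^ (-σ)) := by
    refine prod_le_prod (fun p h => ?_) (fun p h => ?_)
    · have := hp (Nat.prime_of_mem_primesBelow h)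
      exact inv_nonneg.mpr (by linarith [this.2.1])
    · obtain ⟨a, b, c⟩ := hp (Nat.prime_of_mem_primesBelow h)
      refine le_trans ?_ (Real.add_one_le_exp _)
      have h6 : 0 < 1 - gR σ h0 p := by linarith
      have h7 : 0 < 1 - u := by linarith
      have : 2 / (1 - u) * (p : ℝ) ^ (-σ) = gR σ h0 p / (1 - u) := by rw [c]; ring
      rw [this]
      have h8 : gR σ h0 p / (1 - gR σ h0 p) ≤ gR σ h0 p / (1 - u) := by gcongr
      have h9 : (1 - gR σ h0 p)⁻¹ = gR σ h0 p / (1 - gR σ h0 p) + 1 := by field_simp; ring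
      linarith
  refine h5.trans ?_
  rw [← Real.exp_sum, ← mul_sum]
  have h7 : 0 < 1 - u := by linarith
  gcongr
  exact hz.sum_le_tsum _ (fun i _ => by positivity)

noncomputable def FH (s : ℂ) (hs : s ≠ 0) : ℕ →*₀ ℂ where
  toFun n := fc n * (n : ℂ) ^ (-s)
  map_zero' := by simp [hs]
  map_one' := by simp [fc]
  map_mul' m n := by
    rcases eq_or_ne m 0 with rfl | hm
    · simp [hs]
    rcases eq_or_ne n 0 with rfl | hn
    · simp [hs]
    have := mul_cpow_ofReal_nonneg m.cast_nonneg n.cast_nonneg (-s)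
    simp only [ofReal_natCast] at this
    simp only [fc, cardFactors_mul hm hn, pow_add, Nat.cast_mul, this]
    ring

lemma norm_fc (n : ℕ) : ‖fc n‖ = 2 ^ (cardFactors n) := by simp [fc]

lemma norm_nat_cpow {n : ℕ} (hn : n ≠ 0) (s : ℂ) : ‖(n : ℂ) ^ (-s)‖ = (n : ℝ) ^ (-s.re) := by
  rw [norm_natCast_cpow_of_pos (Nat.pos_of_ne_zero hn), neg_re]

lemma summable_FH {s : ℂ} (hs : 1 < s.re) :
    Summable (fun n => ‖FH s (ne_zero_of_one_lt_re hs) n‖) := by
  refine (summable_g hs).congr fun n => ?_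
  rcases eq_or_ne n 0 with rfl | hn
  · have : s.re ≠ 0 := by linarith
    simp [this]
  · change _ = ‖fc n * (n : ℂ) ^ (-s)‖
    rw [norm_mul, norm_fc, norm_nat_cpow hn]

lemma LSeries_fc {s : ℂ} (hs : 1 < s.re) :
    LSeries fc s = ∑' n, FH s (ne_zero_of_one_lt_re hs) n := by
  refine tsum_congr fun n => ?_
  rcases eq_or_ne n 0 with rfl | hn
  · simp
  · rw [LSeries.term_of_ne_zero hn, div_eq_mul_inv, ← cpow_neg]; rfl

/-- The local logarithm at an odd prime. -/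
noncomputable def loc (x : ℂ) : ℂ := -log (1 + 2 * x) - 2 * log (1 - x)

open Classical in
noncomputable def ell (n : ℕ) (s : ℂ) : ℂ :=
  if n.Prime ∧ n ≠ 2 then loc ((n : ℂ) ^ (-s)) else 0

noncomputable def Lam (s : ℂ) : ℂ := ∑' n, ell n s

/-- Taylor polynomial of `loc`. -/
noncomputable def locT (M : ℕ) (x : ℂ) : ℂ := ∑ j ∈ range (M + 1), ((-2) ^ j + 2) / (j : ℂ) * x ^ j

lemma norm_loc_sub {x : ℂ} {y : ℝ} (hx : ‖x‖ ≤ y) (hy : y ≤ 1 / 3) (M : ℕ) (hM : 1 ≤ M) :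
    ‖loc x - locT M x‖ ≤ 3 * (2 * y) ^ (M + 1) := by
  have hx0 := norm_nonneg x
  have h1 := norm_log_sub_logTaylor_le M (z := 2 * x) (by rw [norm_mul]; simp; linarith)
  have h2 := norm_log_sub_logTaylor_le M (z := -x) (by rw [norm_neg]; linarith)
  have e : loc x - locT M x = -(log (1 + 2 * x) - logTaylor (M + 1) (2 * x))
      - 2 * (log (1 + -x) - logTaylor (M + 1) (-x)) := by
    have : locT M x = -logTaylor (M + 1) (2 * x) - 2 * logTaylor (M + 1) (-x) := by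
      simp only [locT, logTaylor, mul_sum, ← sum_neg_distrib, ← sum_sub_distrib]
      refine sum_congr rfl fun j _ => ?_
      have a1 : ((-2 : ℂ)) ^ j = (-1) ^ j * 2 ^ j := by rw [← mul_pow]; norm_num
      have a2 : (-x) ^ j = (-1) ^ j * x ^ j := by rw [← mul_pow]; norm_num
      have a3 : ((-1 : ℂ)) ^ j * (-1) ^ j = 1 := by rw [← mul_pow]; norm_num
      rw [a1, a2, mul_pow, pow_succ]
      linear_combination (-2 * x ^ j / j) * a3
    rw [this, loc, sub_eq_add_neg 1 x]; ring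
  rw [e]
  have n2 : ‖(2 : ℂ) * x‖ = 2 * ‖x‖ := by rw [norm_mul]; simp
  rw [n2] at h1
  rw [norm_neg] at h2
  have hM2 : (2 : ℝ) ≤ (M : ℝ) + 1 := by
    have : (1 : ℝ) ≤ M := by exact_mod_cast hM
    linarith
  have b1 : (1 - 2 * ‖x‖)⁻¹ ≤ 3 := by
    rw [inv_le_comm₀ (by linarith) (by norm_num)]; linarith
  have b2 : (1 - ‖x‖)⁻¹ ≤ 3 / 2 := by
    rw [inv_le_comm₀ (by linarith) (by norm_num)]; linarith
  have c1 : (2 * ‖x‖) ^ (M + 1) ≤ (2 * y) ^ (M + 1) := by gcongr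
  have c2 : ‖x‖ ^ (M + 1) ≤ (2 * y) ^ (M + 1) := by gcongr; linarith
  have p0 : 0 ≤ (2 * y) ^ (M + 1) := le_trans (by positivity) c1
  have d1 : (2 * ‖x‖) ^ (M + 1) * (1 - 2 * ‖x‖)⁻¹ / (M + 1) ≤ (2 * y) ^ (M + 1) * 3 / 2 := by
    gcongr
    exact inv_nonneg.mpr (by linarith)
  have d2 : ‖x‖ ^ (M + 1) * (1 - ‖x‖)⁻¹ / (M + 1) ≤ (2 * y) ^ (M + 1) * (3 / 2) / 2 := by
    gcongr
    exact inv_nonneg.mpr (by linarith)
  refine (norm_sub_le _ _).trans ?_
  rw [norm_neg, norm_mul]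
  have : ‖(2 : ℂ)‖ = 2 := by simp
  rw [this]
  linarith

lemma norm_cpow_le {n : ℕ} (hn : n ≠ 0) {s : ℂ} (hs : 1 ≤ s.re) :
    ‖(n : ℂ) ^ (-s)‖ ≤ 1 / n := by
  rw [norm_nat_cpow hn, one_div, ← Real.rpow_neg_one]
  exact Real.rpow_le_rpow_of_exponent_le (by exact_mod_cast Nat.one_le_iff_ne_zero.mpr hn)
    (by linarith)

lemma norm_ell_le (n : ℕ) {s : ℂ} (hs : 1 ≤ s.re) :
    ‖ell n s‖ ≤ 3 / (n : ℝ) ^ 2 + 24 / (n : ℝ) ^ 3 := by
  unfold ell
  split_ifs with h
  · have h3 : 3 ≤ n := by have := h.1.two_le; omega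
    have h3' : (3 : ℝ) ≤ n := by exact_mod_cast h3
    have hx := norm_cpow_le (n := n) (by omega) hs
    have h1 := norm_loc_sub hx (by gcongr) 2 (by norm_num)
    have h2 : locT 2 ((n : ℂ) ^ (-s)) = 3 * ((n : ℂ) ^ (-s)) ^ 2 := by
      simp [locT, sum_range_succ]; norm_num
    have h4 : ‖locT 2 ((n : ℂ) ^ (-s))‖ ≤ 3 * (1 / n) ^ 2 := by
      rw [h2, norm_mul, norm_pow]
      have : ‖(3 : ℂ)‖ = 3 := by simp
      rw [this]; gcongr
    have h5 := norm_add_le (loc ((n : ℂ) ^ (-s)) - locT 2 ((n : ℂ) ^ (-s))) (locT 2 ((n : ℂ) ^ (-s)))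
    rw [sub_add_cancel] at h5
    have e : 3 / (n : ℝ) ^ 2 + 24 / (n : ℝ) ^ 3 = 3 * (2 * (1 / n)) ^ (2 + 1) + 3 * (1 / n) ^ 2 := by
      have : (n : ℝ) ≠ 0 := by positivity
      norm_num; field_simp; ring
    linarith
  · simp; positivity

lemma summable_bd : Summable (fun n : ℕ => 3 / (n : ℝ) ^ 2 + 24 / (n : ℝ) ^ 3) := by
  have h2 := (Real.summable_nat_pow_inv.mpr (show 1 < 2 by norm_num)).mul_left 3
  have h3 := (Real.summable_nat_pow_inv.mpr (show 1 < 3 by norm_num)).mul_left 24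
  simpa [div_eq_mul_inv] using h2.add h3

lemma summable_ell {s : ℂ} (hs : 1 ≤ s.re) : Summable (fun n => ell n s) :=
  Summable.of_norm_bounded summable_bd fun n => norm_ell_le n hs

lemma continuousOn_Lam : ContinuousOn Lam {s | 1 ≤ s.re} := by
  refine continuousOn_tsum (fun n => ?_) summable_bd fun n s hs => norm_ell_le n hs
  unfold ell
  split_ifs with h
  · have h3 : 3 ≤ n := by have := h.1.two_le; omega
    have h3' : (3 : ℝ) ≤ n := by exact_mod_cast h3
    have hc : Continuous fun s : ℂ => (n : ℂ) ^ (-s) :=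
      continuous_neg.const_cpow (Or.inl (by exact_mod_cast (by omega : n ≠ 0)))
    intro s hs
    have hx := (norm_cpow_le (n := n) (by omega) hs).trans
      (show (1 : ℝ) / n ≤ 1 / 3 by gcongr)
    have a1 : 1 + 2 * (n : ℂ) ^ (-s) ∈ slitPlane :=
      mem_slitPlane_of_norm_lt_one (by rw [norm_mul]; simp; linarith)
    have a2 : 1 - (n : ℂ) ^ (-s) ∈ slitPlane := by
      rw [sub_eq_add_neg]
      exact mem_slitPlane_of_norm_lt_one (by rw [norm_neg]; linarith)
    refine ContinuousAt.continuousWithinAt ?_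
    unfold loc
    exact ((continuousAt_const.add (continuousAt_const.mul hc.continuousAt)).clog a1).neg.sub
      (continuousAt_const.mul ((continuousAt_const.sub hc.continuousAt).clog a2))
  · exact continuousOn_const

lemma norm_two_cpow_lt {s : ℂ} (hs : 1 < s.re) : ‖(2 : ℂ) ^ (-s)‖ < 1 / 2 := by
  have := norm_nat_cpow (n := 2) (by norm_num) s
  simp only [Nat.cast_ofNat] at this
  rw [this, one_div, ← Real.rpow_neg_one]
  exact Real.rpow_lt_rpow_of_exponent_lt (by norm_num) (by linarith)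

lemma euler_identity {s : ℂ} (hs : 1 < s.re) :
    LSeries fc s * riemannZeta s ^ 2 * ((1 + 2 * (2 : ℂ) ^ (-s)) * (1 - (2 : ℂ) ^ (-s)) ^ 2)
      = exp (Lam s) := by
  have hA := EulerProduct.exp_tsum_primes_log_eq_tsum (summable_FH hs)
  have hB := riemannZeta_eulerProduct_exp_log hs
  have sA : Summable fun p : Nat.Primes => -log (1 - FH s (ne_zero_of_one_lt_re hs) p) :=
    (summable_FH hs).of_norm.clog_one_sub.neg.subtype Nat.Prime
  have sB : Summable fun p : Nat.Primes => -log (1 - (p : ℂ) ^ (-s)) :=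
    (summable_riemannZetaSummand hs).of_norm.clog_one_sub.neg.subtype Nat.Prime
  have e1 : ∀ p : Nat.Primes, -log (1 - FH s (ne_zero_of_one_lt_re hs) p)
      + 2 * -log (1 - (p : ℂ) ^ (-s)) = loc (((p : ℕ) : ℂ) ^ (-s)) := by
    intro p
    have : FH s (ne_zero_of_one_lt_re hs) p = -2 * ((p : ℕ) : ℂ) ^ (-s) := by
      change fc p * _ = _
      rw [fc, cardFactors_apply_prime p.2, pow_one]
    rw [this, loc]
    have : (1 : ℂ) - -2 * ((p : ℕ) : ℂ) ^ (-s) = 1 + 2 * ((p : ℕ) : ℂ) ^ (-s) := by ring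
    rw [this]; ring
  have sC : Summable fun p : Nat.Primes => loc (((p : ℕ) : ℂ) ^ (-s)) :=
    (sA.add (sB.mul_left 2)).congr e1
  have e2 : ∑' p : Nat.Primes, loc (((p : ℕ) : ℂ) ^ (-s)) = loc ((2 : ℂ) ^ (-s)) + Lam s := by
    rw [sC.tsum_eq_add_tsum_ite ⟨2, Nat.prime_two⟩]
    congr 1
    have := tsum_subtype {n : ℕ | n.Prime} (fun n => ell n s)
    have h2 : ({n : ℕ | n.Prime}.indicator fun n => ell n s) = fun n => ell n s := by
      funext n
      by_cases hn : n.Prime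
      · exact Set.indicator_of_mem hn _
      · rw [Set.indicator_of_notMem (s := {n : ℕ | n.Prime}) hn]; simp [ell, hn]
    rw [h2] at this
    rw [Lam, ← this]
    refine tsum_congr fun p => ?_
    obtain ⟨p, hp⟩ := p
    by_cases h : p = 2
    · subst h; simp [ell]
    · have : (⟨p, hp⟩ : Nat.Primes) ≠ ⟨2, Nat.prime_two⟩ := fun e => h (congrArg Subtype.val e)
      refine (if_neg this).trans ?_
      change _ = ell p s
      rw [ell, if_pos ⟨hp, h⟩]
  have hn := norm_two_cpow_lt hs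
  have a1 : 1 + 2 * (2 : ℂ) ^ (-s) ≠ 0 :=
    slitPlane_ne_zero (mem_slitPlane_of_norm_lt_one (by rw [norm_mul]; simp; linarith))
  have a2 : 1 - (2 : ℂ) ^ (-s) ≠ 0 := by
    rw [sub_eq_add_neg]
    exact slitPlane_ne_zero (mem_slitPlane_of_norm_lt_one (by rw [norm_neg]; linarith))
  have e3 : exp (loc ((2 : ℂ) ^ (-s))) * ((1 + 2 * (2 : ℂ) ^ (-s)) * (1 - (2 : ℂ) ^ (-s)) ^ 2) = 1 := by
    have : (2 : ℂ) * log (1 - (2 : ℂ) ^ (-s)) = log (1 - (2 : ℂ) ^ (-s)) + log (1 - (2 : ℂ) ^ (-s)) := by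
      ring
    rw [loc, exp_sub, exp_neg, this, exp_add, exp_log a1, exp_log a2]
    field_simp
  rw [LSeries_fc hs, ← hA, ← hB, ← exp_nat_mul, ← exp_add, ← tsum_mul_left,
    ← sA.tsum_add (sB.mul_left _)]
  simp only [Nat.cast_ofNat, e1]
  rw [e2, exp_add]
  linear_combination exp (Lam s) * e3

end Pool.Agent.MP_88bd62_nt
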