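import Mathlib

/-! A nonnegative trigonometric polynomial with explicit coefficients. -/

namespace Pool.Agent.MP_88bd62_nt

open Complex Finset

noncomputable def rho (r : ℕ → ℝ) (L d : ℕ) : ℝ := ∑ j ∈ range (L - d), r j * r (j + d)

lemma normSq_sum (r : ℕ → ℝ) {v : ℂ} (hv : ‖v‖ = 1) (L : ℕ) :
    normSq (∑ j ∈ range L, (r j : ℂ) * v ^ j)
      = ∑ d ∈ range L, ((if d = 0 then 1 else 2) * rho r L d) * (v ^ d).re := by
  have hv1 : (starRingEnd ℂ) v * v = 1 := by
    rw [← normSq_eq_conj_mul_self, normSq_eq_norm_sq, hv]; simp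
  induction L with
  | zero => simp
  | succ L ih =>
    have h1 : ∀ d ∈ range (L + 1), ((if d = 0 then 1 else 2) * rho r (L + 1) d) * (v ^ d).re
        = ((if d = 0 then 1 else 2) * rho r L d) * (v ^ d).re
          + (if d = 0 then 1 else 2) * (r (L - d) * r L * (v ^ d).re) := by
      intro d hd
      have hd' : d ≤ L := Nat.lt_succ_iff.mp (mem_range.mp hd)
      rw [rho, rho, show L + 1 - d = (L - d) + 1 by omega, sum_range_succ, Nat.sub_add_cancel hd']
      ring
    rw [sum_congr rfl h1, sum_add_distrib, sum_range_succ (n := L)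
      (f := fun d => ((if d = 0 then 1 else 2) * rho r L d) * (v ^ d).re), ← ih,
      sum_range_succ, normSq_add, sum_range_succ']
    have h2 : rho r L L = 0 := by simp [rho]
    have h3 : normSq ((r L : ℂ) * v ^ L) = r L * r L := by
      rw [map_mul, map_pow, normSq_eq_norm_sq v, hv, normSq_ofReal]; simp
    have h4 : ((∑ j ∈ range L, (r j : ℂ) * v ^ j) * (starRingEnd ℂ) ((r L : ℂ) * v ^ L)).re
        = ∑ d ∈ range L, r (L - (d + 1)) * r L * (v ^ (d + 1)).re := by
      rw [sum_mul, re_sum, ← sum_range_reflect]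
      refine sum_congr rfl fun d hd => ?_
      have hd' : d < L := mem_range.mp hd
      have e1 : L - 1 - d = L - (d + 1) := by omega
      have e2 : v ^ L = v ^ (L - (d + 1)) * v ^ (d + 1) := by rw [← pow_add]; congr 1; omega
      have e3 : v ^ (L - (d + 1)) * (starRingEnd ℂ) (v ^ (L - (d + 1))) = 1 := by
        rw [map_pow, ← mul_pow, mul_comm, hv1, one_pow]
      have e4 : (r (L - (d + 1)) : ℂ) * v ^ (L - (d + 1)) * (starRingEnd ℂ) ((r L : ℂ) * v ^ L)
          = ((r (L - (d + 1)) * r L : ℝ) : ℂ) * (starRingEnd ℂ) (v ^ (d + 1)) := by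
        rw [e2, map_mul, map_mul, conj_ofReal]; push_cast
        linear_combination (r (L - (d + 1)) * r L * (starRingEnd ℂ) (v ^ (d + 1))) * e3
      rw [e1, e4, re_ofReal_mul, conj_re]
    rw [h2, h3, h4, mul_sum]
    simp
    ring

lemma sum_poly (c0 c1 c2 c3 c4 : ℝ) (m : ℕ) :
    ∑ i ∈ range m, (c0 + c1 * i + c2 * i ^ 2 + c3 * i ^ 3 + c4 * i ^ 4)
      = c0 * m + c1 * (m * (m - 1) / 2) + c2 * (m * (m - 1) * (2 * m - 1) / 6)
        + c3 * (m * (m - 1) / 2) ^ 2 + c4 * (m * (m - 1) * (2 * m - 1) * (3 * m ^ 2 - 3 * m - 1) / 30) := by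
  induction m with
  | zero => simp
  | succ m ih => rw [sum_range_succ, ih]; push_cast; ring

/-- Thirty times the autocorrelation of the parabolic window. -/
def rhoZ (L d : ℤ) : ℤ :=
  ((L + 1 - d) ^ 5 - (L + 1 - d)) + 5 * d * (L + 1) * ((L + 1 - d) ^ 3 - (L + 1 - d))

lemma rho_par {L d : ℕ} (h : d ≤ L) :
    30 * rho (fun j => (j + 1) * (L - j)) L d = (rhoZ L d : ℝ) := by
  have := sum_poly ((d + 1) * (L * (L - d))) ((d + 2) * (L * (L - d)) - (d + 1) * (2 * L - d))
    ((d + 1) - (d + 2) * (2 * L - d) + L * (L - d)) ((d + 2) - (2 * L - d)) 1 (L - d)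
  rw [Nat.cast_sub h] at this
  have e : rho (fun j => (j + 1) * (L - j)) L d = _ := Eq.trans (sum_congr rfl fun i _ => by
    push_cast; ring) this
  rw [e, rhoZ]; push_cast; ring

lemma kernel_nonneg (L : ℕ) (v : ℂ) (hv : ‖v‖ = 1) :
    0 ≤ ∑ d ∈ range L, ((if d = 0 then 1 else 2) * (rhoZ L d : ℝ)) * (v ^ d).re := by
  have h := normSq_sum (fun j => (j + 1) * (L - j)) hv L
  have h2 : ∑ d ∈ range L, ((if d = 0 then 1 else 2) * (rhoZ L d : ℝ)) * (v ^ d).re
      = 30 * ∑ d ∈ range L, ((if d = 0 then 1 else 2) *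
        rho (fun j => (j + 1) * (L - j)) L d) * (v ^ d).re := by
    rw [mul_sum]
    refine sum_congr rfl fun d hd => ?_
    rw [← rho_par (mem_range.mp hd).le]; ring
  rw [h2, ← h]
  exact mul_nonneg (by norm_num) (normSq_nonneg _)

end Pool.Agent.MP_88bd62_nt
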