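import Pool.Agent.MP_88bd62_nt.Spec4
import Pool.Agent.MP_88bd62_nt.Ch.C37
import Pool.Agent.MP_88bd62_nt.Ch.C39
import Pool.Agent.MP_88bd62_nt.Ch.F

/-! Assembly of the numerical lower bound. -/

namespace Pool.Agent.MP_88bd62_nt

open Complex Finset Filter

lemma zv_z0 : ∀ j < 1024, zv z0 j = 0 := by
  have h : ∀ j < 1024, dg 96 10 z0 j = 39614081257132309534260330496 := by decide +kernel
  intro j hj
  rw [zv, h j hj, sv]
  norm_num [c4]

lemma st0 : St 0 0 79228162514264337593543950336 0 z0 z0 := by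
  refine ⟨?_, fun j hj => ?_, fun j hj => ?_⟩
  · norm_num [Nr, cq, zz]
  · simp [zv_z0 j hj, ZA]
  · simp [zv_z0 j hj, LA, ell, Nat.not_prime_zero]

lemma st40 : St 40 79971 62263034263025345588925477770 48994043512941577268701722473 z40 l40 := by
  have h := st0
  replace h := chunk_spec h chunk0 rfl (by norm_num)
  replace h := chunk_spec h chunk1 rfl (by norm_num)
  replace h := chunk_spec h chunk2 rfl (by norm_num)
  replace h := chunk_spec h chunk3 rfl (by norm_num)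
  replace h := chunk_spec h chunk4 rfl (by norm_num)
  replace h := chunk_spec h chunk5 rfl (by norm_num)
  replace h := chunk_spec h chunk6 rfl (by norm_num)
  replace h := chunk_spec h chunk7 rfl (by norm_num)
  replace h := chunk_spec h chunk8 rfl (by norm_num)
  replace h := chunk_spec h chunk9 rfl (by norm_num)
  replace h := chunk_spec h chunk10 rfl (by norm_num)
  replace h := chunk_spec h chunk11 rfl (by norm_num)
  replace h := chunk_spec h chunk12 rfl (by norm_num)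
  replace h := chunk_spec h chunk13 rfl (by norm_num)
  replace h := chunk_spec h chunk14 rfl (by norm_num)
  replace h := chunk_spec h chunk15 rfl (by norm_num)
  replace h := chunk_spec h chunk16 rfl (by norm_num)
  replace h := chunk_spec h chunk17 rfl (by norm_num)
  replace h := chunk_spec h chunk18 rfl (by norm_num)
  replace h := chunk_spec h chunk19 rfl (by norm_num)
  replace h := chunk_spec h chunk20 rfl (by norm_num)
  replace h := chunk_spec h chunk21 rfl (by norm_num)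
  replace h := chunk_spec h chunk22 rfl (by norm_num)
  replace h := chunk_spec h chunk23 rfl (by norm_num)
  replace h := chunk_spec h chunk24 rfl (by norm_num)
  replace h := chunk_spec h chunk25 rfl (by norm_num)
  replace h := chunk_spec h chunk26 rfl (by norm_num)
  replace h := chunk_spec h chunk27 rfl (by norm_num)
  replace h := chunk_spec h chunk28 rfl (by norm_num)
  replace h := chunk_spec h chunk29 rfl (by norm_num)
  replace h := chunk_spec h chunk30 rfl (by norm_num)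
  replace h := chunk_spec h chunk31 rfl (by norm_num)
  replace h := chunk_spec h chunk32 rfl (by norm_num)
  replace h := chunk_spec h chunk33 rfl (by norm_num)
  replace h := chunk_spec h chunk34 rfl (by norm_num)
  replace h := chunk_spec h chunk35 rfl (by norm_num)
  replace h := chunk_spec h chunk36 rfl (by norm_num)
  replace h := chunk_spec h chunk37 rfl (by norm_num)
  replace h := chunk_spec h chunk38 rfl (by norm_num)
  replace h := chunk_spec h chunk39 rfl (by norm_num)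
  exact h

lemma rhoN_cast {d : ℕ} (hd : d ≤ 2049) : (rhoN d (2049 - d) : ℝ) = rhoZ (2048 : ℕ) d := by
  obtain ⟨m, hm⟩ : ∃ m, m = 2049 - d := ⟨_, rfl⟩
  have e : ((2048 : ℕ) : ℤ) + 1 - d = m := by omega
  rw [← hm, rhoZ, e, rhoN]
  simp only [Nat.mul_eq, Nat.add_eq, Nat.sub_eq, Nat.pow_eq]
  rw [Nat.cast_add, Nat.cast_mul, Nat.cast_sub (Nat.le_self_pow (by norm_num) m),
    Nat.cast_sub (Nat.le_self_pow (by norm_num) m)]
  push_cast; ring

lemma tau_lt : tau < 4533 / 1000 := by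
  have := abs_le.mp tau_approx
  rw [tauI] at this
  norm_num at this
  linarith [this.1]

lemma zeta_close {d : ℕ} (hd : 1 ≤ d) {A B Z : ℂ}
    (hZ : Z = ∑ m ∈ Ico (1 : ℕ) 20001, (m : ℂ) ^ (-pt 1 d)) (hA : ‖A - Z‖ ≤ 20040 / 2 ^ 30)
    (hB : ‖B + I * zz ((20001 : ℕ) - 1 / 2) ^ d / tau‖ ≤ 2049 / 2 ^ 40) :
    ‖d * riemannZeta (pt 1 d) - (d * A + B)‖ ≤ (d * (1177 * d ^ 2 + 20521200) + 2048) / 2 ^ 40 := by
  have h := zeta_approx (d := d) (N := 20001) (by omega) (by norm_num)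
  have hd' : (1 : ℝ) ≤ d := by exact_mod_cast hd
  have hx : (0 : ℝ) < (20001 : ℕ) - 1 / 2 := by norm_num
  rw [← hZ] at h
  generalize ((20001 : ℕ) : ℝ) - 1 / 2 = x at h hB hx
  have hx' : (x : ℂ) ≠ 0 := by exact_mod_cast hx.ne'
  have hd0 : (d : ℂ) ≠ 0 := by exact_mod_cast (by omega : d ≠ 0)
  have ht : (tau : ℂ) ≠ 0 := by exact_mod_cast tau_pos.ne'
  rw [sub_eq_add_neg 1, cpow_add _ _ hx', cpow_one, cpow_pt hx, mul_inv_cancel_left₀ hx'] at h
  have e : d * riemannZeta (pt 1 d) - (d * A + B) = d * (riemannZeta (pt 1 d) - Z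
      - zz x ^ d / (pt 1 d - 1)) - d * (A - Z) - (B + I * zz x ^ d / tau) := by
    have : pt 1 d - 1 = d * tau * I := by simp [pt]
    rw [this]
    field_simp
    linear_combination (zz x ^ d) * I_mul_I
  have h1 : ‖pt 1 d‖ * ‖pt 1 d + 1‖ ≤ 20549 / 1000 * d ^ 2 + 4 := by
    have a1 : ‖pt 1 d‖ ^ 2 = 1 + (d * tau) ^ 2 := by
      rw [Complex.sq_norm, normSq_apply]; simp; ring
    have a2 : ‖pt 1 d + 1‖ ^ 2 = 4 + (d * tau) ^ 2 := by
      rw [Complex.sq_norm, normSq_apply]; simp; ring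
    have a3 : tau ^ 2 ≤ (4533 / 1000) ^ 2 := by
      have := tau_pos.le
      have := tau_lt.le
      gcongr
    have a4 : (d * tau) ^ 2 ≤ d ^ 2 * (4533 / 1000) ^ 2 := by rw [mul_pow]; gcongr
    nlinarith [sq_nonneg (‖pt 1 d‖ - ‖pt 1 d + 1‖), sq_nonneg (d : ℝ)]
  have h2 : ‖riemannZeta (pt 1 d) - Z - zz x ^ d / (pt 1 d - 1)‖
      ≤ (1177 * d ^ 2 + 230) / 2 ^ 40 := by
    refine h.trans ?_
    have := sq_nonneg (d : ℝ)
    norm_num
    linarith
  rw [e]
  refine (norm_sub_le _ _).trans ((add_le_add (norm_sub_le _ _) hB).trans ?_)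
  rw [norm_mul, norm_mul, Complex.norm_natCast]
  have h3 := mul_le_mul_of_nonneg_left h2 d.cast_nonneg
  have h4 := mul_le_mul_of_nonneg_left hA d.cast_nonneg
  norm_num at h3 h4 ⊢
  linarith

lemma sum_odd (g : ℕ → ℝ) (hg : ∀ j, g (2 * j) = 0) (n : ℕ) :
    ∑ d ∈ range (2 * n), g d = ∑ j ∈ range n, g (2 * j + 1) := by
  induction n with
  | zero => simp
  | succ n ih => rw [mul_add, mul_one, sum_range_succ, sum_range_succ, sum_range_succ, ih, hg]; ring

lemma numerics : ∃ ω : ℂ, ‖ω‖ = 1 ∧ 9732 / 10000 * (rhoZ (2048 : ℕ) (0 : ℕ) : ℝ) <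
    ∑ d ∈ range 2048, ((if d = 0 then 1 else 2) * (rhoZ (2048 : ℕ) d : ℝ)) *
      (ω ^ d * if Odd d then Rd d else 0).re := by
  obtain ⟨h1, h2, h3⟩ := st40
  obtain ⟨ω, hω, h4⟩ := omegaC_spec omega_ok zv_z0
  have h5 := tailC_spec (N := 20001) tail_ok (by norm_num) (h1.mono (by norm_num)) zv_z0
  refine ⟨ω, hω, ?_⟩
  obtain ⟨u, v, h6, h7⟩ := fin_spec (G := fun j => rhoN (2 * j + 1) (2049 - (2 * j + 1)) *
      (2 ^ 40 * (ω ^ (2 * j + 1) * (exp (Lam (pt 1 (2 * j + 1))) / (riemannZeta (pt 1 (2 * j + 1)) ^ 2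
        * (pt 1 (2 * j + 1) * Real.log 2)))) : ℂ).re)
    (Good := fun j z l y w => ‖sv z - ZA 20001 j‖ ≤ 20040 / 2 ^ 30 ∧
      ‖sv l - LA 20001 j‖ ≤ 24040 / 2 ^ 30 ∧
      ‖sv y + I * zz ((20001 : ℕ) - 1 / 2) ^ (2 * j + 1) / tau‖ ≤ 2049 / 2 ^ 40 ∧
      ‖sv w - ω ^ (2 * j + 1)‖ ≤ 2 / 2 ^ 30)
    (fun j z l y w u v f ⟨g1, g2, g3, g4⟩ h => leaf_spec h (by omega)
      (zeta_close (by omega) rfl g1 g3) (by
        have := Lam_approx (s := pt 1 (2 * j + 1)) (N := 20001) (by simp) (by norm_num)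
        rw [norm_sub_rev] at g2
        refine (norm_sub_le_norm_sub_add_norm_sub _ _ _).trans ((add_le_add this g2).trans ?_)
        norm_num) (by rw [norm_pow, hω, one_pow]) g4) 10 fin_ok (fun i hi => by
      rw [zero_add]
      exact ⟨(h2 i hi).trans (by norm_num), (h3 i hi).trans (by norm_num), h5 i hi, h4 i hi⟩)
  replace h7 := ble_t h7
  simp only [Nat.mul_eq, Nat.add_eq, shl_eq] at h7
  have h8 : (9 * 9732 * rhoN 0 (2049 - 0) * 2 ^ 40 + 80000 * v + 1 : ℝ) ≤ 80000 * u := by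
    exact_mod_cast h7
  rw [rhoN_cast (by norm_num)] at h8
  rw [show 2048 = 2 * 1024 from rfl, sum_odd _ (fun j => by
    rw [if_neg (Nat.not_odd_iff_even.mpr (even_two_mul j))]; simp)]
  have e : ∑ j ∈ range 1024, ((if 2 * j + 1 = 0 then 1 else 2) *
      (rhoZ (2 * 1024 : ℕ) (2 * j + 1 : ℕ) : ℝ)) * (ω ^ (2 * j + 1) *
        if Odd (2 * j + 1) then Rd (2 * j + 1) else 0).re = 8 / 9 / 2 ^ 40 *
      ∑ i ∈ range (2 ^ 10), rhoN (2 * (0 + i) + 1) (2049 - (2 * (0 + i) + 1)) *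
      (2 ^ 40 * (ω ^ (2 * (0 + i) + 1) * (exp (Lam (pt 1 (2 * (0 + i) + 1))) /
        (riemannZeta (pt 1 (2 * (0 + i) + 1)) ^ 2
        * (pt 1 (2 * (0 + i) + 1) * Real.log 2)))) : ℂ).re := by
    rw [mul_sum]
    refine sum_congr rfl fun j hj => ?_
    have := mem_range.mp hj
    rw [zero_add, rhoN_cast (by omega), if_neg (by omega), if_pos (odd_two_mul_add_one j), Rd,
      mul_div_assoc]
    generalize exp (Lam (pt 1 (2 * j + 1))) / _ = q, ω ^ (2 * j + 1) = p
    have e1 : p * (4 / 9 * q) = ((4 / 9 : ℝ) : ℂ) * (p * q) := by push_cast; ring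
    have e2 : (2 ^ 40 * (p * q) : ℂ) = ((2 ^ 40 : ℝ) : ℂ) * (p * q) := by push_cast; ring
    rw [e1, e2, re_ofReal_mul, re_ofReal_mul]
    ring
  rw [e]
  generalize ∑ i ∈ range (2 ^ 10), (_ : ℝ) = X at h6 ⊢
  generalize (rhoZ _ _ : ℝ) = r at h8 ⊢
  norm_num at h6 h8 ⊢
  linarith

theorem frequently_gt (ε : ℝ) (hε : ε = 1 ∨ ε = -1) :
    ∃ᶠ x in atTop, 9732 / 10000 * x < ε * SR x := by
  intro h
  simp only [not_lt] at h
  obtain ⟨ω, hω, h1⟩ := numerics
  have h2 := main_ineq (L := 2048) (by norm_num) (kernel_nonneg 2048) (ω := ε * ω)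
    (by rcases hε with rfl | rfl <;> simpa using hω) h
  rw [if_pos rfl, one_mul, mul_sum] at h2
  refine absurd (h1.trans_le (le_of_eq_of_le (sum_congr rfl fun d _ => ?_) h2)) (lt_irrefl _)
  rcases hε with rfl | rfl
  · simp
  · split_ifs with h3 h4 h4
    · simp [h4.neg_pow]; ring
    · simp
    · simp [h4.neg_pow]; ring
    · simp

theorem limsup_ge : ((9732 / 10000 : ℝ) : EReal) ≤
    limsup (fun x : ℝ => ((|SR x| / x : ℝ) : EReal)) atTop := by
  refine le_limsup_of_frequently_le (((frequently_gt 1 (Or.inl rfl)).and_eventually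
    (eventually_gt_atTop 0)).mono fun x ⟨h1, h2⟩ => ?_)
  rw [EReal.coe_le_coe_iff, le_div_iff₀ h2]
  linarith [le_abs_self (SR x)]

end Pool.Agent.MP_88bd62_nt
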