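import Mathlib.Data.Nat.Factorial.Basic
import Mathlib.Data.Nat.Sqrt

/-! Programs on natural numbers evaluated by the kernel.  A triple `k a b` stands for the complex
number `i ^ k * (a + b i)`, a quadruple `P Q R S` for `P + Q i - R - S i`. -/

namespace Pool.Agent.MP_88bd62_nt

noncomputable section

def cnd (c x y : Bool) : Bool := Bool.rec y x c

/-- Evaluate `x`, then return `a`. -/
def fN (x : ℕ) (a : Bool) : Bool := Bool.rec a a (Nat.beq x 0)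

def lo (x s : ℕ) : ℕ := Nat.land x (Nat.sub (Nat.shiftLeft 1 s) 1)

/-- Multiplication of a quadruple by `i ^ k`, `k < 4`. -/
def rot4 (k P Q R S : ℕ) (g : ℕ → ℕ → ℕ → ℕ → Bool) : Bool :=
  cnd (Nat.ble k 1) (cnd (Nat.beq k 0) (g P Q R S) (g S P Q R))
    (cnd (Nat.beq k 2) (g R S P Q) (g Q R S P))

def rot (k P Q R S : ℕ) (g : ℕ → ℕ → ℕ → ℕ → Bool) : Bool := rot4 (Nat.mod k 4) P Q R S g

/-- From a quadruple to a triple. -/
def nrm (P Q R S : ℕ) (g : ℕ → ℕ → ℕ → Bool) : Bool :=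
  cnd (Nat.ble R P)
    (cnd (Nat.ble S Q) (g 0 (Nat.sub P R) (Nat.sub Q S)) (g 3 (Nat.sub S Q) (Nat.sub P R)))
    (cnd (Nat.ble S Q) (g 1 (Nat.sub Q S) (Nat.sub R P)) (g 2 (Nat.sub R P) (Nat.sub S Q)))

/-- Product of two triples, divided by `2 ^ h`. -/
def mulq (h k a b l c d : ℕ) (g : ℕ → ℕ → ℕ → Bool) : Bool :=
  cnd (Nat.ble (Nat.mul b d) (Nat.mul a c))
    (g (Nat.add k l) (Nat.shiftRight (Nat.sub (Nat.mul a c) (Nat.mul b d)) h)
      (Nat.shiftRight (Nat.add (Nat.mul a d) (Nat.mul b c)) h))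
    (g (Nat.add (Nat.add k l) 1) (Nat.shiftRight (Nat.add (Nat.mul a d) (Nat.mul b c)) h)
      (Nat.shiftRight (Nat.sub (Nat.mul b d) (Nat.mul a c)) h))

def cmb (P s X a Y b : ℕ) : ℕ :=
  Nat.add (Nat.shiftLeft P (Nat.add s 36))
    (Nat.add (Nat.mul X (Nat.shiftRight a 60)) (Nat.mul Y (Nat.shiftRight b 60)))

/-- Repeated doubling of a packed geometric progression. -/
def dbl (f : ℕ → ℕ → ℕ → ℕ → Bool) (n : ℕ) : ℕ → ℕ → ℕ → ℕ → ℕ → ℕ → ℕ → ℕ → Bool :=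
  Nat.rec (fun _ P Q R S _ _ _ => f P Q R S) (fun _ ih s P Q R S k a b =>
    rot k P Q R S fun P' Q' R' S' => mulq 96 k a b k a b
      (ih (Nat.mul 2 s) (cmb P s P' a S' b) (cmb Q s Q' a P' b) (cmb R s R' a Q' b)
        (cmb S s S' a R' b))) n

/-- Packed odd powers with weight `i ^ e * wn / wd`. -/
def term (wn wd e k a b : ℕ) (f : ℕ → ℕ → ℕ → ℕ → Bool) : Bool :=
  rot (Nat.add k e) (Nat.div (Nat.mul wn a) (Nat.shiftLeft wd 56))
    (Nat.div (Nat.mul wn b) (Nat.shiftLeft wd 56)) 0 0 fun P Q R S =>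
      mulq 96 k a b k a b (dbl f 10 424 P Q R S)

/-- `term`, added to a packed quadruple. -/
def termA (wn wd e k a b X Y Z T : ℕ) (f : ℕ → ℕ → ℕ → ℕ → Bool) : Bool :=
  term wn wd e k a b fun P Q R S =>
    fN (Nat.add X P) (fN (Nat.add Y Q) (fN (Nat.add Z R) (fN (Nat.add T S)
      (f (Nat.add X P) (Nat.add Y Q) (Nat.add Z R) (Nat.add T S)))))

def lin (X a Y b : ℕ) : ℕ := Nat.add (Nat.mul X a) (Nat.mul Y b)

/-- Exact Horner scheme for the exponential series. -/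
def expH (k a b : ℕ) (f : ℕ → ℕ → ℕ → ℕ → ℕ → Bool) (n : ℕ) : ℕ → ℕ → ℕ → ℕ → ℕ → Bool :=
  Nat.rec f (fun m ih P Q R S D => rot k P Q R S fun P' Q' R' S' =>
    ih (Nat.add (Nat.mul (Nat.add m 1) (Nat.shiftLeft D 96)) (lin P' a S' b)) (lin Q' a P' b)
      (lin R' a Q' b) (lin S' a R' b) (Nat.mul (Nat.add m 1) (Nat.shiftLeft D 96))) n

/-- Rounded exponential, passed on to `g` if the error test succeeds. -/
def expF (M k a b : ℕ) (g : ℕ → ℕ → ℕ → Bool) : Bool :=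
  expH k a b (fun P Q R S D =>
    cnd (Nat.ble (Nat.add a b) (Nat.shiftLeft (Nat.add M 2) 95))
      (cnd (Nat.ble (Nat.pow (Nat.add a b) (Nat.add M 1))
          (Nat.shiftLeft (Nat.mul (Nat.add M 1) D) 28))
        (nrm P Q R S fun l c d =>
          g l (Nat.div (Nat.shiftLeft c 96) D) (Nat.div (Nat.shiftLeft d 96) D))
        false) false) M 1 0 0 0 1

/-- The logarithmic series at `1 / m`. -/
def lgs (m n : ℕ) : ℕ :=
  Nat.rec 0 (fun k ih => Nat.add ih (Nat.div 79228162514264337593543950336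
    (Nat.mul (Nat.add k 1) (Nat.pow m (Nat.add k 1))))) n

/-- An approximation of `2 ^ 96 * π / log 2`. -/
def tauI : ℕ := 359090565889859073226721960112

/-- Multiply by `(m / (m - 1)) ^ (i ^ j * π / log 2)`. -/
def step (j m k a b : ℕ) (g : ℕ → ℕ → ℕ → Bool) : Bool :=
  expF (Nat.div 70 (Nat.log2 m)) j
    (Nat.shiftRight (Nat.mul tauI (lgs m (Nat.add (Nat.div 70 (Nat.log2 m)) 1))) 96) 0
    fun l c d => mulq 96 k a b l c d g

def F150 : ℕ := Nat.factorial 150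

/-- Test for odd primes below `151 ^ 2`. -/
def isP (n : ℕ) : Bool :=
  cnd (Nat.ble 3 n) (cnd (Nat.ble n 150) (Nat.beq (Nat.gcd n (Nat.factorial (Nat.sub n 1))) 1)
    (Nat.beq (Nat.gcd n F150) 1)) false

/-- The terms of the local logarithm at `p`. -/
def lam (p k a b : ℕ) (f : ℕ → ℕ → ℕ → ℕ → ℕ → Bool) (n : ℕ) :
    ℕ → ℕ → ℕ → ℕ → ℕ → ℕ → ℕ → ℕ → ℕ → Bool :=
  Nat.rec (fun _ _ _ _ _ _ _ _ _ => false) (fun _ ih m l c d t X Y Z T =>
    cnd (Nat.ble (Nat.shiftLeft 3 (Nat.add m 30)) (Nat.pow p m)) (f (Nat.add t 1) X Y Z T)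
      (cnd (Nat.ble (Nat.mul m p) 65536)
        (mulq 96 l c d k a b fun l' c' d' =>
          termA (Nat.sub (Nat.add (Nat.shiftLeft 1 m) 2) (Nat.mul 4 (Nat.mod m 2)))
            (Nat.mul m (Nat.pow p m)) (Nat.mul 2 m) l' c' d' X Y Z T
            (ih (Nat.add m 1) l' c' d' (Nat.add t 1))) false)) n

/-- The main loop over `n`. -/
def run (f : ℕ → ℕ → ℕ → ℕ → ℕ → ℕ → ℕ → ℕ → ℕ → ℕ → ℕ → ℕ → Bool) (r : ℕ) :
    ℕ → ℕ → ℕ → ℕ → ℕ → ℕ → ℕ → ℕ → ℕ → ℕ → ℕ → ℕ → ℕ → Bool :=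
  Nat.rec (fun _ => f) (fun _ ih n k a b P Q R S t X Y Z T =>
    termA 1 n 0 k a b P Q R S fun P' Q' R' S' =>
      step 3 (Nat.add n 1) k a b fun k' a' b' => fN k' (fN t
        (cnd (isP n) (lam n k a b (ih (Nat.add n 1) k' a' b' P' Q' R' S') 64 2 k a b t X Y Z T)
          (ih (Nat.add n 1) k' a' b' P' Q' R' S' t X Y Z T)))) r

def chk (p r x y : ℕ) : Bool :=
  cnd (Nat.ble (Nat.add r (Nat.shiftLeft y 360)) (Nat.add p (Nat.shiftLeft x 360)))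
    (Nat.ble (Nat.add p (Nat.shiftLeft x 360)) (Nat.add r (Nat.shiftLeft (Nat.add y 1) 360))) false

/-- Slot by slot comparison of `P + Q i - R - S i + z` with `z'`. -/
def unp (n : ℕ) : ℕ → ℕ → ℕ → ℕ → ℕ → ℕ → Bool :=
  Nat.rec (fun P Q R S z z' =>
    cnd (chk P R (Nat.shiftRight z 48) (Nat.shiftRight z' 48)) (chk Q S (lo z 48) (lo z' 48)) false)
    (fun k ih P Q R S z z' =>
      cnd (ih (Nat.shiftRight P (Nat.shiftLeft 424 k)) (Nat.shiftRight Q (Nat.shiftLeft 424 k))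
          (Nat.shiftRight R (Nat.shiftLeft 424 k)) (Nat.shiftRight S (Nat.shiftLeft 424 k))
          (Nat.shiftRight z (Nat.shiftLeft 96 k)) (Nat.shiftRight z' (Nat.shiftLeft 96 k)))
        (ih (lo P (Nat.shiftLeft 424 k)) (lo Q (Nat.shiftLeft 424 k)) (lo R (Nat.shiftLeft 424 k))
          (lo S (Nat.shiftLeft 424 k)) (lo z (Nat.shiftLeft 96 k)) (lo z' (Nat.shiftLeft 96 k)))
        false) n

/-- A block of `r` steps starting at `n`. -/
def chunk (r n k a b k' a' b' z z' l l' : ℕ) : Bool :=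
  run (fun k₁ a₁ b₁ P Q R S t X Y Z T =>
    cnd (Nat.beq k₁ k') (cnd (Nat.beq a₁ a') (cnd (Nat.beq b₁ b') (cnd (Nat.ble t 600)
      (cnd (unp 10 P Q R S z z') (unp 10 X Y Z T l l') false) false) false) false) false)
    r n k a b 0 0 0 0 0 0 0 0 0

/-- The vector of the tail term. -/
def tailC (m k a b z y : ℕ) : Bool :=
  step 1 m k a b fun k' a' b' =>
    term 79228162514264337593543950336 tauI 3 k' a' b' fun P Q R S => unp 10 P Q R S z y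

/-- The vector of the odd powers of `exp (i T / 2 ^ 96)`. -/
def omegaC (T z w : ℕ) : Bool :=
  expF 40 1 T 0 fun k a b => term 1 1 0 k a b fun P Q R S => unp 10 P Q R S z w

def rhoN (d m : ℕ) : ℕ :=
  Nat.add (Nat.sub (Nat.pow m 5) m) (Nat.mul (Nat.mul 10245 d) (Nat.sub (Nat.pow m 3) m))

def sq2 (a b : ℕ) : ℕ := Nat.add (Nat.mul a a) (Nat.mul b b)

def piI : ℕ := 248902613312231085230312514221

def l2I : ℕ := 54916777467532299926160332159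

/-- The bound for the total relative error, times `2 ^ 40`. -/
def relA (d s : ℕ) : ℕ :=
  Nat.add (Nat.mul 2 (Nat.add (Nat.div (Nat.shiftLeft (Nat.add (Nat.mul d
    (Nat.add (Nat.mul 1177 (Nat.mul d d)) 20521200)) 2048) 40) s) 1)) 190100000

def scl (d X D : ℕ) : ℕ := Nat.div (Nat.shiftLeft (Nat.mul (Nat.mul d d) X) 80) D

def errB (d A N D : ℕ) : ℕ :=
  Nat.div (Nat.mul (Nat.add (Nat.sqrt (scl d (Nat.shiftLeft (Nat.mul (Nat.mul d d) N) 80) D)) 1) A)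
    (Nat.sub 1099511627776 A)

def leaf2 (d s N D P R u v : ℕ) (f : ℕ → ℕ → Bool) : Bool :=
  cnd (Nat.ble 1 s) (cnd (Nat.ble 1 D) (cnd (Nat.ble (relA d s) 1099511627775)
    (fN u (fN v (f (Nat.add u (Nat.mul (rhoN d (Nat.sub 2049 d)) (scl d P D)))
      (Nat.add v (Nat.mul (rhoN d (Nat.sub 2049 d))
        (Nat.add (Nat.add (scl d R D) (errB d (relA d s) N D)) 2)))))) false) false) false

/-- Lower bound for one mode. -/
def leaf (d z l y w u v : ℕ) (f : ℕ → ℕ → Bool) : Bool :=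
  nrm (Nat.add (Nat.mul d (Nat.shiftRight z 48)) (Nat.shiftRight y 48))
    (Nat.add (Nat.mul d (lo z 48)) (lo y 48)) (Nat.shiftLeft (Nat.add d 1) 47)
    (Nat.shiftLeft (Nat.add d 1) 47) fun k₁ a₁ b₁ =>
  nrm (Nat.shiftRight l 48) (lo l 48) 140737488355328 140737488355328 fun k₂ a₂ b₂ =>
  expF 24 k₂ (Nat.shiftLeft a₂ 56) (Nat.shiftLeft b₂ 56) fun k₃ a₃ b₃ =>
  nrm (Nat.shiftRight w 48) (lo w 48) 140737488355328 140737488355328 fun k₄ a₄ b₄ =>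
  mulq 0 k₃ a₃ b₃ k₄ a₄ b₄ fun k₅ a₅ b₅ =>
  mulq 0 k₁ a₁ b₁ k₁ a₁ b₁ fun k₆ a₆ b₆ =>
  mulq 0 k₆ a₆ b₆ 0 l2I (Nat.mul d piI) fun k₇ a₇ b₇ =>
  mulq 0 k₅ a₅ b₅ (Nat.add (Nat.mul 3 k₇) 3) b₇ a₇ fun k₈ a₈ b₈ =>
  rot k₈ a₈ b₈ 0 0 fun P _ R _ =>
    cnd (Nat.ble 39614081257132168796771975168 (Nat.add a₃ b₃))
      (leaf2 d (Nat.sqrt (sq2 a₁ b₁)) (sq2 a₅ b₅) (sq2 a₇ b₇) P R u v f) false

/-- Sum over all modes. -/
def fin (n : ℕ) : ℕ → ℕ → ℕ → ℕ → ℕ → ℕ → ℕ → (ℕ → ℕ → Bool) → Bool :=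
  Nat.rec (fun j z l y w u v f => leaf (Nat.add (Nat.mul 2 j) 1) z l y w u v f)
    (fun k ih j z l y w u v f =>
      ih j (Nat.shiftRight z (Nat.shiftLeft 96 k)) (Nat.shiftRight l (Nat.shiftLeft 96 k))
        (Nat.shiftRight y (Nat.shiftLeft 96 k)) (Nat.shiftRight w (Nat.shiftLeft 96 k)) u v
        fun u' v' => ih (Nat.add j (Nat.shiftLeft 1 k)) (lo z (Nat.shiftLeft 96 k))
          (lo l (Nat.shiftLeft 96 k)) (lo y (Nat.shiftLeft 96 k)) (lo w (Nat.shiftLeft 96 k))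
          u' v' f) n

def finC (c z l y w : ℕ) : Bool :=
  fin 10 0 z l y w 0 0 fun u v =>
    Nat.ble (Nat.add (Nat.add (Nat.shiftLeft (Nat.mul (Nat.mul 9 c) (rhoN 0 2049)) 40)
      (Nat.mul 80000 v)) 1) (Nat.mul 80000 u)

end

end Pool.Agent.MP_88bd62_nt
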