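import Pool.Agent.MP_88bd62_nt.Abel

/-! Midpoint approximation of `ζ` and truncation of `Lam` on the line `re s = 1`. -/

namespace Pool.Agent.MP_88bd62_nt

open Complex Filter Topology Finset

lemma norm_le_of_deriv {f f' : ℝ → ℂ} {b C : ℝ} {k : ℕ} (h0 : f 0 = 0)
    (hf : ∀ u ∈ Set.Icc 0 b, HasDerivAt f (f' u) u)
    (hb : ∀ u ∈ Set.Icc 0 b, ‖f' u‖ ≤ C * u ^ k) :
    ∀ u ∈ Set.Icc 0 b, ‖f u‖ ≤ C / (k + 1) * u ^ (k + 1) := by
  intro u hu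
  refine image_norm_le_of_norm_deriv_right_le_deriv_boundary (f := f) (f' := f') (a := 0) (b := b)
    (fun x hx => (hf x hx).continuousAt.continuousWithinAt)
    (fun x hx => (hf x (Set.Ico_subset_Icc_self hx)).hasDerivWithinAt)
    (B := fun u => C / (k + 1) * u ^ (k + 1)) (B' := fun u => C * u ^ k) (by simp [h0])
    (fun x => ?_) (fun x hx => hb x (Set.Ico_subset_Icc_self hx)) hu
  refine ((hasDerivAt_pow (k + 1) x).const_mul (C / (k + 1))).congr_deriv ?_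
  push_cast; field_simp

lemma hasDerivAt_cp (a : ℂ) {n u : ℝ} (ε : ℝ) (h : 0 < n + ε * u) :
    HasDerivAt (fun u : ℝ => ((n + ε * u : ℝ) : ℂ) ^ a) (ε * a * ((n + ε * u : ℝ) : ℂ) ^ (a - 1)) u := by
  have h1 : HasDerivAt (fun z : ℂ => ((n : ℂ) + ε * z) ^ a)
      (a * ((n : ℂ) + ε * u) ^ (a - 1) * ε) (u : ℂ) := by
    have h2 : HasDerivAt (fun z : ℂ => (n : ℂ) + ε * z) ε (u : ℂ) := by
      simpa using ((hasDerivAt_id (u : ℂ)).const_mul (ε : ℂ)).const_add (n : ℂ)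
    exact h2.cpow_const (by
      have : (n : ℂ) + ε * u = ((n + ε * u : ℝ) : ℂ) := by push_cast; ring
      rw [this]; exact ofReal_mem_slitPlane.mpr h)
  have h3 := h1.comp_ofReal
  push_cast
  exact h3.congr_deriv (by ring)

lemma midpoint {s : ℂ} (hs : 1 ≤ s.re) (hs1 : s ≠ 1) {n : ℝ} (hn : 3 / 2 ≤ n) :
    ‖((n - 1 / 2 : ℝ) : ℂ) ^ (1 - s) / (s - 1) - ((n + 1 / 2 : ℝ) : ℂ) ^ (1 - s) / (s - 1)
      - (n : ℂ) ^ (-s)‖ ≤ ‖s‖ * ‖s + 1‖ / 24 * ((n - 1 / 2) ^ 3)⁻¹ := by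
  have hs' : s - 1 ≠ 0 := sub_ne_zero.mpr hs1
  set M : ℝ := ‖s‖ * ‖s + 1‖ * ((n - 1 / 2) ^ 3)⁻¹ with hM
  have hp : ∀ u ∈ Set.Icc (0 : ℝ) (1 / 2), 0 < n + 1 * u ∧ 0 < n + -1 * u := fun u hu =>
    ⟨by linarith [hu.1], by linarith [hu.2]⟩
  have hb : ∀ y : ℝ, n - 1 / 2 ≤ y → ‖s * (s + 1) * (y : ℂ) ^ (-s - 1 - 1)‖ ≤ M := by
    intro y hy
    have hy0 : 1 ≤ y := by linarith
    rw [norm_mul, norm_mul, norm_cpow_eq_rpow_re_of_pos (by linarith), hM]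
    gcongr
    calc y ^ (-s - 1 - 1).re ≤ y ^ (-3 : ℝ) :=
          Real.rpow_le_rpow_of_exponent_le hy0 (by simp; linarith)
      _ = (y ^ 3)⁻¹ := by rw [Real.rpow_neg (by linarith)]; norm_cast
      _ ≤ ((n - 1 / 2) ^ 3)⁻¹ := by
          have : 0 < n - 1 / 2 := by linarith
          gcongr
  have h3 := norm_le_of_deriv (k := 0) (C := 2 * M) (b := 1 / 2)
    (f := fun u => -s * ((n + 1 * u : ℝ) : ℂ) ^ (-s - 1) - -s * ((n + -1 * u : ℝ) : ℂ) ^ (-s - 1))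
    (f' := fun u => s * (s + 1) * ((n + 1 * u : ℝ) : ℂ) ^ (-s - 1 - 1)
      + s * (s + 1) * ((n + -1 * u : ℝ) : ℂ) ^ (-s - 1 - 1)) (by simp)
    (fun u hu => (((hasDerivAt_cp (-s - 1) 1 (hp u hu).1).const_mul (-s)).sub
      ((hasDerivAt_cp (-s - 1) (-1) (hp u hu).2).const_mul (-s))).congr_deriv (by push_cast; ring))
    (fun u hu => by
      refine (norm_add_le _ _).trans ?_
      linarith [hb (n + 1 * u) (by linarith [hu.1]), hb (n + -1 * u) (by linarith [hu.2])])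
  have h2 := norm_le_of_deriv (k := 1) (b := 1 / 2)
    (f := fun u => ((n + 1 * u : ℝ) : ℂ) ^ (-s) + ((n + -1 * u : ℝ) : ℂ) ^ (-s) - 2 * (n : ℂ) ^ (-s))
    (by simp; ring)
    (fun u hu => (((hasDerivAt_cp (-s) 1 (hp u hu).1).add
      (hasDerivAt_cp (-s) (-1) (hp u hu).2)).sub_const _).congr_deriv (by push_cast; ring)) h3
  have h1 := norm_le_of_deriv (k := 2) (b := 1 / 2)
    (f := fun u => ((n + -1 * u : ℝ) : ℂ) ^ (1 - s) / (s - 1)
      - ((n + 1 * u : ℝ) : ℂ) ^ (1 - s) / (s - 1) - 2 * (n : ℂ) ^ (-s) * u)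
    (by simp)
    (fun u hu => ((((hasDerivAt_cp (1 - s) (-1) (hp u hu).2).div_const (s - 1)).sub
      ((hasDerivAt_cp (1 - s) 1 (hp u hu).1).div_const (s - 1))).sub
        (((hasDerivAt_id u).ofReal_comp).const_mul (2 * (n : ℂ) ^ (-s)))).congr_deriv (by
          rw [show 1 - s - 1 = -s by ring]; push_cast; field_simp; ring)) h2
    (1 / 2) (by norm_num)
  have e1 : n + -1 * (1 / 2) = n - 1 / 2 := by ring
  have e2 : 2 * (n : ℂ) ^ (-s) * ((1 / 2 : ℝ) : ℂ) = (n : ℂ) ^ (-s) := by push_cast; ring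
  simp only [e1, e2, one_mul] at h1
  refine h1.trans (le_of_eq ?_)
  rw [hM]; push_cast; ring

lemma zeta_approx_gt {s : ℂ} (hs : 1 < s.re) {N : ℕ} (hN : 2 ≤ N) :
    ‖riemannZeta s - ∑ n ∈ Ico 1 N, (n : ℂ) ^ (-s) - ((N - 1 / 2 : ℝ) : ℂ) ^ (1 - s) / (s - 1)‖
      ≤ ‖s‖ * ‖s + 1‖ / 48 * (((N : ℝ) - 1) ^ 2)⁻¹ := by
  have hs1 : s ≠ 1 := fun h => by simp [h] at hs
  have hN' : (2 : ℝ) ≤ N := by exact_mod_cast hN
  set A : ℕ → ℂ := fun n => ((n - 1 / 2 : ℝ) : ℂ) ^ (1 - s) / (s - 1) with hA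
  have key : ∀ m : ℕ, ‖∑ n ∈ Ico 1 (N + m), (n : ℂ) ^ (-s) + A (N + m)
      - ∑ n ∈ Ico 1 N, (n : ℂ) ^ (-s) - A N‖
      ≤ ‖s‖ * ‖s + 1‖ / 48 * ((((N : ℝ) - 1) ^ 2)⁻¹ - (((N : ℝ) + m - 1) ^ 2)⁻¹) := by
    intro m
    induction m with
    | zero => simp
    | succ m ih =>
      have hm : (0 : ℝ) ≤ m := m.cast_nonneg
      have h1 := midpoint hs.le hs1 (n := (N + m : ℕ)) (by push_cast; linarith)
      have e : ∑ n ∈ Ico 1 (N + (m + 1)), (n : ℂ) ^ (-s) + A (N + (m + 1))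
          - ∑ n ∈ Ico 1 N, (n : ℂ) ^ (-s) - A N = (∑ n ∈ Ico 1 (N + m), (n : ℂ) ^ (-s) + A (N + m)
          - ∑ n ∈ Ico 1 N, (n : ℂ) ^ (-s) - A N) - ((((N + m : ℕ) - 1 / 2 : ℝ) : ℂ) ^ (1 - s) / (s - 1)
            - (((N + m : ℕ) + 1 / 2 : ℝ) : ℂ) ^ (1 - s) / (s - 1) - (((N + m : ℕ) : ℝ) : ℂ) ^ (-s)) := by
        rw [← add_assoc, sum_Ico_succ_top (by omega)]
        have : (((N + m + 1 : ℕ) : ℝ) - 1 / 2) = ((N + m : ℕ) : ℝ) + 1 / 2 := by push_cast; ring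
        simp only [hA, this, ofReal_natCast]
        ring
      rw [e]
      refine (norm_sub_le _ _).trans ?_
      have h2 : ((((N + m : ℕ) : ℝ) - 1 / 2) ^ 3)⁻¹ ≤ 1 / 2 * ((((N : ℝ) + m - 1) ^ 2)⁻¹
          - (((N : ℝ) + (m + 1 : ℕ) - 1) ^ 2)⁻¹) := by
        push_cast
        obtain ⟨y, hy⟩ : ∃ y : ℝ, y = N + m - 1 := ⟨_, rfl⟩
        have hy1 : 1 ≤ y := by linarith
        rw [show (N : ℝ) + m - 1 / 2 = y + 1 / 2 by linarith,
          show (N : ℝ) + (m + 1) - 1 = y + 1 by linarith, ← hy]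
        have e : 1 / 2 * ((y ^ 2)⁻¹ - ((y + 1) ^ 2)⁻¹) = (y + 1 / 2) / (y * (y + 1)) ^ 2 := by
          field_simp; ring
        rw [e, inv_eq_one_div, div_le_div_iff₀ (by positivity) (by positivity)]
        have : (y * (y + 1)) ^ 2 ≤ ((y + 1 / 2) ^ 2) ^ 2 := by
          gcongr; nlinarith
        nlinarith
      have h3 : 0 ≤ ‖s‖ * ‖s + 1‖ := by positivity
      nlinarith
  have hadd : Tendsto (fun m : ℕ => N + m) atTop atTop :=
    (tendsto_add_atTop_nat N).congr fun m => add_comm _ _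
  have hsum : Tendsto (fun m : ℕ => ∑ n ∈ Ico 1 (N + m), (n : ℂ) ^ (-s)) atTop
      (𝓝 (riemannZeta s)) := by
    have h := (summable_riemannZetaSummand hs).of_norm.hasSum.tendsto_sum_nat
    rw [tsum_riemannZetaSummand hs] at h
    refine (h.comp hadd).congr fun m => ?_
    simp only [Function.comp]
    rw [range_eq_Ico, sum_eq_sum_Ico_succ_bot (by omega), map_zero, zero_add]
    rfl
  have hA0 : Tendsto (fun m : ℕ => A (N + m)) atTop (𝓝 0) := by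
    rw [tendsto_zero_iff_norm_tendsto_zero]
    have h1 : Tendsto (fun m : ℕ => ((N + m : ℕ) : ℝ) - 1 / 2) atTop atTop :=
      tendsto_atTop_add_const_right _ _
        (tendsto_natCast_atTop_atTop.comp hadd)
    have h2 := ((tendsto_rpow_neg_atTop (y := s.re - 1) (by linarith)).comp h1).div_const ‖s - 1‖
    rw [zero_div] at h2
    refine h2.congr fun m => ?_
    have hm : (0 : ℝ) ≤ m := m.cast_nonneg
    simp only [hA, Function.comp]
    rw [norm_div, norm_cpow_eq_rpow_re_of_pos (by push_cast; linarith)]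
    simp
  have h := (((hsum.add hA0).sub_const (∑ n ∈ Ico 1 N, (n : ℂ) ^ (-s))).sub_const (A N)).norm
  rw [add_zero] at h
  refine le_of_tendsto' h fun m => (key m).trans ?_
  gcongr
  have : 0 ≤ (((N : ℝ) + m - 1) ^ 2)⁻¹ := by positivity
  linarith

lemma zeta_approx {d : ℕ} (hd : d ≠ 0) {N : ℕ} (hN : 2 ≤ N) :
    ‖riemannZeta (pt 1 d) - ∑ n ∈ Ico 1 N, (n : ℂ) ^ (-pt 1 d)
      - ((N - 1 / 2 : ℝ) : ℂ) ^ (1 - pt 1 d) / (pt 1 d - 1)‖
      ≤ ‖pt 1 d‖ * ‖pt 1 d + 1‖ / 48 * (((N : ℝ) - 1) ^ 2)⁻¹ := by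
  have hN' : (2 : ℝ) ≤ N := by exact_mod_cast hN
  have h1 : Tendsto (fun σ : ℝ => ∑ n ∈ Ico 1 N, (n : ℂ) ^ (-pt σ d)) (𝓝[>] 1)
      (𝓝 (∑ n ∈ Ico 1 N, (n : ℂ) ^ (-pt 1 d))) :=
    tendsto_finsetSum _ fun n hn => (tendsto_pt d).neg.const_cpow
      (Or.inl (by have := (mem_Ico.mp hn).1; exact_mod_cast (by omega : n ≠ 0)))
  have h2 : Tendsto (fun σ : ℝ => ((N - 1 / 2 : ℝ) : ℂ) ^ (1 - pt σ d) / (pt σ d - 1)) (𝓝[>] 1)
      (𝓝 (((N - 1 / 2 : ℝ) : ℂ) ^ (1 - pt 1 d) / (pt 1 d - 1))) :=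
    (((tendsto_pt d).const_sub 1).const_cpow (Or.inl (by
      have : (N : ℝ) - 1 / 2 ≠ 0 := by linarith
      exact_mod_cast this))).div ((tendsto_pt d).sub_const 1) (sub_ne_zero.mpr (pt_ne_one hd 1))
  refine le_of_tendsto_of_tendsto (((tendsto_zeta hd).sub h1).sub h2).norm
    ((((tendsto_pt d).norm.mul ((tendsto_pt d).add_const 1).norm).div_const 48).mul_const _) ?_
  filter_upwards [self_mem_nhdsWithin] with σ hσ
  exact zeta_approx_gt (by simpa using hσ) hN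

lemma Lam_approx {s : ℂ} (hs : 1 ≤ s.re) {N : ℕ} (hN : 2400 ≤ N) :
    ‖Lam s - ∑ n ∈ range N, ell n s‖ ≤ 301 / 100 / ((N : ℝ) - 1) := by
  have hN' : (2400 : ℝ) ≤ N := by exact_mod_cast hN
  rw [Lam, ← (summable_ell hs).sum_add_tsum_nat_add N, add_sub_cancel_left]
  have h1 : HasSum (fun i : ℕ => 301 / 100 * (1 / ((N : ℝ) + i - 1) - 1 / ((N : ℝ) + (i + 1 : ℕ) - 1)))
      (301 / 100 / ((N : ℝ) - 1)) := by
    have h2 : Tendsto (fun i : ℕ => 1 / ((N : ℝ) + i - 1)) atTop (𝓝 0) := by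
      refine tendsto_const_nhds.div_atTop ?_
      exact tendsto_atTop_add_const_right _ _
        (tendsto_atTop_add_const_left _ _ tendsto_natCast_atTop_atTop)
    rw [hasSum_iff_tendsto_nat_of_nonneg]
    · simp_rw [← mul_sum, sum_range_sub' (fun i : ℕ => 1 / ((N : ℝ) + i - 1))]
      have := (h2.const_sub (1 / ((N : ℝ) + (0 : ℕ) - 1))).const_mul (301 / 100)
      convert this using 2
      simp [div_eq_mul_inv]
    · intro i
      have : (0 : ℝ) ≤ i := i.cast_nonneg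
      refine mul_nonneg (by norm_num) (sub_nonneg.mpr ?_)
      push_cast
      gcongr <;> linarith
  refine tsum_of_norm_bounded h1 fun i => (norm_ell_le _ hs).trans ?_
  have : (0 : ℝ) ≤ i := i.cast_nonneg
  push_cast
  obtain ⟨y, hy⟩ : ∃ y : ℝ, y = N + i := ⟨_, rfl⟩
  have hy1 : 2400 ≤ y := by linarith
  rw [show (i : ℝ) + N = y by linarith, show (N : ℝ) + (i + 1) - 1 = y by linarith, ← hy]
  have e : 1 / (y - 1) - 1 / y = 1 / (y * (y - 1)) := by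
    have : y - 1 ≠ 0 := by linarith
    field_simp; ring
  have h3 : 1 / y ^ 2 ≤ 1 / (y * (y - 1)) := by
    gcongr
    · nlinarith
    · nlinarith
  have h4 : 24 / y ^ 3 ≤ 1 / 100 * (1 / y ^ 2) := by
    rw [div_le_iff₀ (by positivity)]
    have : 1 / 100 * (1 / y ^ 2) * y ^ 3 = y / 100 := by field_simp
    linarith
  have h5 : 3 / y ^ 2 = 3 * (1 / y ^ 2) := by ring
  rw [e]; linarith

end Pool.Agent.MP_88bd62_nt
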