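import Pool.Agent.MP_88bd62_nt.Prog
import Pool.Agent.MP_88bd62_nt.Zeta

/-! Soundness of the scalar programs. -/

namespace Pool.Agent.MP_88bd62_nt

open Complex Finset

noncomputable def cq (k a b : ℕ) : ℂ := I ^ k * (a + b * I)

noncomputable def c4 (P Q R S : ℕ) : ℂ := P + Q * I - R - S * I

lemma cnd_false {c x : Bool} (h : cnd c x false = true) : c = true ∧ x = true := by
  cases c
  · exact absurd h (by simp [cnd])
  · exact ⟨rfl, h⟩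

lemma cnd_cases {c x y : Bool} (h : cnd c x y = true) :
    (c = true ∧ x = true) ∨ (c = false ∧ y = true) := by
  cases c
  · exact Or.inr ⟨rfl, h⟩
  · exact Or.inl ⟨rfl, h⟩

@[simp] lemma fN_eq (x : ℕ) (a : Bool) : fN x a = a := by
  unfold fN; cases Nat.beq x 0 <;> rfl

lemma ble_t {a b : ℕ} (h : Nat.ble a b = true) : a ≤ b := Nat.le_of_ble_eq_true h

lemma ble_f {a b : ℕ} (h : Nat.ble a b = false) : b < a := by
  by_contra hn
  rw [Nat.ble_eq_true_of_le (not_lt.mp hn)] at h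
  exact absurd h (by simp)

lemma shl_eq (a s : ℕ) : Nat.shiftLeft a s = a * 2 ^ s := Nat.shiftLeft_eq a s

lemma shr_eq (a s : ℕ) : Nat.shiftRight a s = a / 2 ^ s := Nat.shiftRight_eq_div_pow a s

lemma div_eq (a b : ℕ) : Nat.div a b = a / b := rfl

lemma lo_eq (x s : ℕ) : lo x s = x % 2 ^ s := by
  rw [lo, shl_eq, one_mul]
  exact Nat.and_two_pow_sub_one_eq_mod x s

lemma rot_cases {k P Q R S : ℕ} {g : ℕ → ℕ → ℕ → ℕ → Bool} (h : rot k P Q R S g = true) :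
    (I ^ k = 1 ∧ g P Q R S = true) ∨ (I ^ k = I ∧ g S P Q R = true) ∨
      (I ^ k = -1 ∧ g R S P Q = true) ∨ (I ^ k = -I ∧ g Q R S P = true) := by
  have e : I ^ k = I ^ (k % 4) := by
    conv_lhs => rw [← Nat.div_add_mod k 4, pow_add, pow_mul, I_pow_four, one_pow, one_mul]
  have hk : k % 4 < 4 := Nat.mod_lt _ (by norm_num)
  change rot4 (k % 4) P Q R S g = true at h
  rw [e]
  generalize k % 4 = m at h hk
  interval_cases m
  · exact Or.inl ⟨by simp, h⟩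
  · exact Or.inr (Or.inl ⟨by simp, h⟩)
  · exact Or.inr (Or.inr (Or.inl ⟨by simp, h⟩))
  · exact Or.inr (Or.inr (Or.inr ⟨by simp, h⟩))

lemma rot_spec {k P Q R S : ℕ} {g : ℕ → ℕ → ℕ → ℕ → Bool} (h : rot k P Q R S g = true) :
    ∃ P' Q' R' S', c4 P' Q' R' S' = I ^ k * c4 P Q R S ∧ P' + Q' + R' + S' = P + Q + R + S ∧
      g P' Q' R' S' = true := by
  rcases rot_cases h with ⟨e, h⟩ | ⟨e, h⟩ | ⟨e, h⟩ | ⟨e, h⟩ <;>
    refine ⟨_, _, _, _, ?_, by omega, h⟩ <;> rw [e] <;> simp only [c4]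
  · ring
  · linear_combination (S - Q : ℂ) * I_mul_I
  · ring
  · linear_combination (Q - S : ℂ) * I_mul_I

lemma nrm_spec {P Q R S : ℕ} {g : ℕ → ℕ → ℕ → Bool} (h : nrm P Q R S g = true) :
    ∃ k a b, cq k a b = c4 P Q R S ∧ g k a b = true := by
  rcases cnd_cases h with ⟨h1, h⟩ | ⟨h1, h⟩ <;> rcases cnd_cases h with ⟨h2, h⟩ | ⟨h2, h⟩ <;>
    refine ⟨_, _, _, ?_, h⟩ <;> simp only [cq, c4, Nat.sub_eq]
  · rw [Nat.cast_sub (ble_t h1), Nat.cast_sub (ble_t h2)]; ring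
  · rw [Nat.cast_sub (ble_t h1), Nat.cast_sub (ble_f h2).le, I_pow_three]
    linear_combination (R - P : ℂ) * I_mul_I
  · rw [Nat.cast_sub (ble_f h1).le, Nat.cast_sub (ble_t h2)]
    linear_combination (R - P : ℂ) * I_mul_I
  · rw [Nat.cast_sub (ble_f h1).le, Nat.cast_sub (ble_f h2).le, I_sq]; ring

lemma mulq_spec {h k a b l c d : ℕ} {g : ℕ → ℕ → ℕ → Bool} (H : mulq h k a b l c d g = true) :
    ∃ m x y, cq m x y = cq k a b * cq l c d ∧ g m (x / 2 ^ h) (y / 2 ^ h) = true := by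
  rcases cnd_cases H with ⟨h1, H⟩ | ⟨h1, H⟩ <;> rw [shr_eq, shr_eq] at H <;>
    refine ⟨_, _, _, ?_, H⟩ <;> simp only [cq, Nat.sub_eq, Nat.add_eq, Nat.mul_eq] at h1 ⊢
  · rw [Nat.cast_sub (ble_t h1)]; push_cast
    linear_combination (-(I ^ k * I ^ l) * b * d : ℂ) * I_mul_I
  · rw [Nat.cast_sub (ble_f h1).le]; push_cast
    linear_combination (-(I ^ k * I ^ l) * a * c : ℂ) * I_mul_I

lemma mulq0_spec {k a b l c d : ℕ} {g : ℕ → ℕ → ℕ → Bool} (H : mulq 0 k a b l c d g = true) :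
    ∃ m x y, cq m x y = cq k a b * cq l c d ∧ g m x y = true := by
  simpa using mulq_spec H

lemma norm_cq_sq (k a b : ℕ) : ‖cq k a b‖ ^ 2 = (a : ℝ) ^ 2 + (b : ℝ) ^ 2 := by
  rw [cq, norm_mul, norm_pow, norm_I, one_pow, one_mul, Complex.sq_norm]
  exact_mod_cast normSq_add_mul_I a b

lemma norm_cq_le (k a b : ℕ) : ‖cq k a b‖ ≤ a + b := by
  refine le_of_sq_le_sq ?_ (by positivity)
  rw [norm_cq_sq]
  have : (0 : ℝ) ≤ a * b := by positivity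
  nlinarith

lemma le_norm_cq (k a b : ℕ) : (a : ℝ) + b ≤ 3 / 2 * ‖cq k a b‖ := by
  refine le_of_sq_le_sq ?_ (by positivity)
  rw [mul_pow, norm_cq_sq]
  nlinarith [sq_nonneg ((a : ℝ) - b), sq_nonneg (a : ℝ), sq_nonneg (b : ℝ)]

lemma abs_div_sub (x : ℕ) {D : ℕ} (hD : 0 < D) : |((x / D : ℕ) : ℝ) - x / D| ≤ 1 := by
  have h1 : ((x / D : ℕ) : ℝ) ≤ x / D := Nat.cast_div_le
  have h2 : (x : ℝ) / D < (x / D : ℕ) + 1 := by
    rw [div_lt_iff₀ (by exact_mod_cast hD)]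
    exact_mod_cast (by nlinarith [Nat.div_add_mod x D, Nat.mod_lt x hD] : x < (x / D + 1) * D)
  rw [abs_le]; constructor <;> linarith

lemma cq_div (k x y : ℕ) {D : ℕ} (hD : 0 < D) : ‖cq k (x / D) (y / D) - cq k x y / D‖ ≤ 2 := by
  have e : cq k (x / D) (y / D) - cq k x y / D
      = I ^ k * (((((x / D : ℕ) : ℝ) - x / D : ℝ) : ℂ) + ((((y / D : ℕ) : ℝ) - y / D : ℝ) : ℂ) * I) := by
    simp only [cq]; push_cast; ring
  rw [e, norm_mul, norm_pow, norm_I, one_pow, one_mul]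
  refine (norm_add_le _ _).trans ?_
  rw [norm_mul, norm_I, mul_one, norm_real, norm_real, Real.norm_eq_abs, Real.norm_eq_abs]
  linarith [abs_div_sub x hD, abs_div_sub y hD]

/-- The triple approximates `u`. -/
def Nr (k a b : ℕ) (u : ℂ) (ε : ℝ) : Prop := ‖cq k a b / 2 ^ 96 - u‖ ≤ ε

lemma Nr.mono {k a b : ℕ} {u : ℂ} {ε ε' : ℝ} (h : Nr k a b u ε) (h' : ε ≤ ε') : Nr k a b u ε' :=
  le_trans h h'

lemma norm_mul_sub {x y u v : ℂ} {ε η : ℝ} (h1 : ‖x - u‖ ≤ ε) (h2 : ‖y - v‖ ≤ η) (hu : ‖u‖ ≤ 1)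
    (hv : ‖v‖ ≤ 1) : ‖x * y - u * v‖ ≤ ε + η + ε * η := by
  have e : x * y - u * v = (x - u) * v + u * (y - v) + (x - u) * (y - v) := by ring
  rw [e]
  refine norm_add₃_le.trans ?_
  simp only [norm_mul]
  have := norm_nonneg (x - u)
  have := norm_nonneg (y - v)
  have := norm_nonneg u
  have := norm_nonneg v
  gcongr <;> nlinarith

lemma mulq_Nr {k a b l c d : ℕ} {g : ℕ → ℕ → ℕ → Bool} (H : mulq 96 k a b l c d g = true)
    {u v : ℂ} {ε η : ℝ} (h1 : Nr k a b u ε) (h2 : Nr l c d v η) (hu : ‖u‖ ≤ 1) (hv : ‖v‖ ≤ 1) :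
    ∃ m x y, Nr m x y (u * v) (ε + η + ε * η + 1 / 2 ^ 95) ∧ g m x y = true := by
  obtain ⟨m, x, y, e, H⟩ := mulq_spec H
  refine ⟨_, _, _, ?_, H⟩
  have h3 := cq_div m x y (D := 2 ^ 96) (by positivity)
  have h4 := norm_mul_sub h1 h2 hu hv
  have e2 : cq m (x / 2 ^ 96) (y / 2 ^ 96) / 2 ^ 96 - u * v
      = (cq k a b / 2 ^ 96 * (cq l c d / 2 ^ 96) - u * v)
        + (cq m (x / 2 ^ 96) (y / 2 ^ 96) - cq m x y / (2 ^ 96 : ℕ)) / 2 ^ 96 := by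
    rw [e]; push_cast; ring
  rw [Nr, e2]
  refine (norm_add_le _ _).trans (add_le_add h4 ?_)
  rw [norm_div, norm_pow, Complex.norm_two, div_le_div_iff₀ (by positivity) (by positivity)]
  linarith

lemma c4_mul (P Q R S a b : ℕ) :
    c4 (lin P a S b) (lin Q a P b) (lin R a Q b) (lin S a R b) = c4 P Q R S * (a + b * I) := by
  simp only [c4, lin, Nat.add_eq, Nat.mul_eq]; push_cast
  linear_combination ((S - Q : ℂ) * b) * I_mul_I

lemma expH_spec {k a b : ℕ} {f : ℕ → ℕ → ℕ → ℕ → ℕ → Bool} (n : ℕ) : ∀ {P Q R S D : ℕ}, 0 < D →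
    expH k a b f n P Q R S D = true → ∃ P' Q' R' S' D', D' = n.factorial * 2 ^ (96 * n) * D ∧
      c4 P' Q' R' S' / D' = ∑ m ∈ range n, (cq k a b / 2 ^ 96) ^ m / m.factorial
        + (cq k a b / 2 ^ 96) ^ n / n.factorial * (c4 P Q R S / D) ∧ f P' Q' R' S' D' = true := by
  induction n with
  | zero => intro P Q R S D _ h; exact ⟨P, Q, R, S, D, by simp, by simp, h⟩
  | succ n ih =>
    intro P Q R S D hD h
    obtain ⟨P₁, Q₁, R₁, S₁, e, -, h⟩ := rot_spec h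
    rw [shl_eq] at h
    simp only [Nat.add_eq, Nat.mul_eq] at h
    obtain ⟨P', Q', R', S', D', e1, e2, h⟩ := ih (by positivity) h
    refine ⟨P', Q', R', S', D', by rw [e1, Nat.factorial_succ]; ring, ?_, h⟩
    have e3 : c4 ((n + 1) * (D * 2 ^ 96) + lin P₁ a S₁ b) (lin Q₁ a P₁ b) (lin R₁ a Q₁ b)
        (lin S₁ a R₁ b) = (n + 1) * (D * 2 ^ 96) + cq k a b * c4 P Q R S := by
      have := c4_mul P₁ Q₁ R₁ S₁ a b
      rw [e] at this
      simp only [c4, cq] at this ⊢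
      push_cast
      linear_combination this
    have hD' : (D : ℂ) ≠ 0 := by exact_mod_cast hD.ne'
    have hn : ((n : ℂ) + 1) ≠ 0 := by exact_mod_cast n.succ_ne_zero
    have hf : (n.factorial : ℂ) ≠ 0 := by exact_mod_cast n.factorial_ne_zero
    rw [e2, e3, sum_range_succ, Nat.factorial_succ, add_assoc]
    congr 1
    push_cast
    field_simp
    ring

lemma expF_spec {M k a b : ℕ} {g : ℕ → ℕ → ℕ → Bool} (h : expF M k a b g = true) :
    ∃ l c d, Nr l c d (exp (cq k a b / 2 ^ 96)) (1 / 2 ^ 66) ∧ g l c d = true := by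
  obtain ⟨P, Q, R, S, D, e1, e2, h⟩ := expH_spec M one_pos h
  obtain ⟨h1, h⟩ := cnd_false h
  obtain ⟨h2, h⟩ := cnd_false h
  obtain ⟨l, c, d, e3, h⟩ := nrm_spec h
  refine ⟨_, _, _, ?_, h⟩
  replace h1 := ble_t h1
  replace h2 := ble_t h2
  simp only [shl_eq, Nat.add_eq, Nat.mul_eq, Nat.pow_eq, div_eq] at h1 h2 ⊢
  have hD : 0 < D := by rw [e1]; positivity
  have hD' : (D : ℂ) ≠ 0 := by exact_mod_cast hD.ne'
  set x : ℂ := cq k a b / 2 ^ 96 with hx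
  have n1 : ‖x‖ ≤ ((a : ℝ) + b) / 2 ^ 96 := by
    rw [hx, norm_div, norm_pow, Complex.norm_two]
    gcongr
    exact norm_cq_le k a b
  have h1' : (a : ℝ) + b ≤ (M + 2) * 2 ^ 95 := by exact_mod_cast h1
  have h2' : ((a : ℝ) + b) ^ (M + 1) ≤ (M + 1) * D * 2 ^ 28 := by exact_mod_cast h2
  have h3 := exp_bound' (x := x) (n := M + 1) (by
    push_cast
    rw [div_le_iff₀ (by positivity)]
    refine n1.trans ?_
    rw [div_le_iff₀ (by positivity)]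
    linarith)
  have h4 : ‖x‖ ^ (M + 1) / (M + 1).factorial * 2 ≤ 1 / 2 ^ 67 := by
    have e4 : (D : ℝ) = M.factorial * (2 ^ 96) ^ M := by rw [e1, ← pow_mul]; push_cast; ring
    have hf : (0 : ℝ) < M.factorial := by positivity
    calc ‖x‖ ^ (M + 1) / (M + 1).factorial * 2
        ≤ (((a : ℝ) + b) / 2 ^ 96) ^ (M + 1) / (M + 1).factorial * 2 := by gcongr
      _ = ((a : ℝ) + b) ^ (M + 1) / ((2 ^ 96) ^ (M + 1) * (M + 1).factorial) * 2 := by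
          rw [div_pow, div_div]
      _ ≤ ((M + 1) * D * 2 ^ 28) / ((2 ^ 96) ^ (M + 1) * (M + 1).factorial) * 2 := by gcongr
      _ = 1 / 2 ^ 67 := by
          rw [e4, Nat.factorial_succ, pow_succ ((2 : ℝ) ^ 96)]
          push_cast
          field_simp
  have h5 := cq_div l (c * 2 ^ 96) (d * 2 ^ 96) hD
  have e5 : ∑ m ∈ range (M + 1), x ^ m / m.factorial = cq l c d / D := by
    rw [e3, e2, sum_range_succ]; simp [c4]
  rw [e5] at h3
  have e6 : cq l (c * 2 ^ 96 / D) (d * 2 ^ 96 / D) / 2 ^ 96 - exp x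
      = (cq l (c * 2 ^ 96 / D) (d * 2 ^ 96 / D) - cq l (c * 2 ^ 96) (d * 2 ^ 96) / D) / 2 ^ 96
        - (exp x - cq l c d / D) := by
    simp only [cq]; push_cast; ring
  rw [Nr, e6]
  refine (norm_sub_le _ _).trans ?_
  rw [norm_div, norm_pow, Complex.norm_two]
  have : ‖cq l (c * 2 ^ 96 / D) (d * 2 ^ 96 / D) - cq l (c * 2 ^ 96) (d * 2 ^ 96) / D‖ / 2 ^ 96
      ≤ 2 / 2 ^ 96 := by gcongr
  linarith

lemma lgs_sum {m : ℕ} (hm : 2 ≤ m) (n : ℕ) :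
    |(lgs m n : ℝ) / 2 ^ 96 - ∑ i ∈ range n, (1 / m : ℝ) ^ (i + 1) / (i + 1)| ≤ (n : ℝ) / 2 ^ 96 := by
  induction n with
  | zero => simp [lgs]
  | succ n ih =>
    have e : lgs m (n + 1) = lgs m n + 2 ^ 96 / ((n + 1) * m ^ (n + 1)) := rfl
    have h := abs_div_sub (2 ^ 96) (D := (n + 1) * m ^ (n + 1)) (by positivity)
    have hm' : (0 : ℝ) < m := by positivity
    have e2 : (lgs m (n + 1) : ℝ) / 2 ^ 96 - ∑ i ∈ range (n + 1), (1 / m : ℝ) ^ (i + 1) / (i + 1)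
        = ((lgs m n : ℝ) / 2 ^ 96 - ∑ i ∈ range n, (1 / m : ℝ) ^ (i + 1) / (i + 1))
          + (((2 ^ 96 / ((n + 1) * m ^ (n + 1)) : ℕ) : ℝ)
            - ((2 ^ 96 : ℕ) : ℝ) / ((n + 1) * m ^ (n + 1) : ℕ)) / 2 ^ 96 := by
      rw [e, sum_range_succ, Nat.cast_add]
      generalize ((2 ^ 96 / ((n + 1) * m ^ (n + 1)) : ℕ) : ℝ) = y
      rw [one_div_pow]
      push_cast
      field_simp
      ring
    rw [e2]
    refine (abs_add_le _ _).trans ?_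
    rw [abs_div, abs_of_pos (by positivity : (0 : ℝ) < 2 ^ 96)]
    have : |((2 ^ 96 / ((n + 1) * m ^ (n + 1)) : ℕ) : ℝ)
      - ((2 ^ 96 : ℕ) : ℝ) / ((n + 1) * m ^ (n + 1) : ℕ)| / 2 ^ 96 ≤ 1 / 2 ^ 96 := by gcongr
    push_cast at this ⊢
    rw [add_div]
    linarith

lemma lgs_spec {m : ℕ} (hm : 2 ≤ m) :
    |(lgs m (70 / m.log2 + 1) : ℝ) / 2 ^ 96 + Real.log (1 - 1 / m)| ≤ 11 / 10 / 2 ^ 70 := by
  set n := 70 / m.log2 + 1 with hn
  have hm' : (2 : ℝ) ≤ m := by exact_mod_cast hm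
  have hx : (1 / m : ℝ) ≤ 1 / 2 := by gcongr
  have hx0 : (0 : ℝ) < 1 / m := by positivity
  have h1 := lgs_sum hm n
  have h2 := Real.abs_log_sub_add_sum_range_le (x := 1 / m) (by rw [abs_of_pos hx0]; linarith) n
  rw [abs_of_pos hx0] at h2
  have hl : 1 ≤ m.log2 := by
    rw [Nat.le_log2 (by omega)]; omega
  have h3 : 2 ^ 70 ≤ m ^ n :=
    calc 2 ^ 70 ≤ 2 ^ (m.log2 * n) := Nat.pow_le_pow_right (by norm_num)
          (by rw [hn]; nlinarith [Nat.div_add_mod 70 m.log2, Nat.mod_lt 70 (show 0 < m.log2 by omega)])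
      _ = (2 ^ m.log2) ^ n := pow_mul _ _ _
      _ ≤ m ^ n := Nat.pow_le_pow_left (Nat.log2_self_le (by omega)) _
  have h4 : (1 / m : ℝ) ^ n ≤ 1 / 2 ^ 70 := by
    rw [div_pow, one_pow]
    gcongr
    exact_mod_cast h3
  have h5 : (1 / m : ℝ) ^ (n + 1) / (1 - 1 / m) ≤ 1 / 2 ^ 70 := by
    rw [div_le_iff₀ (by linarith), pow_succ]
    have : 0 ≤ (1 / m : ℝ) ^ n := by positivity
    nlinarith
  have h6 : (n : ℝ) ≤ 71 := by
    have : 70 / m.log2 ≤ 70 := Nat.div_le_self _ _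
    exact_mod_cast (by omega : n ≤ 71)
  have h7 : (n : ℝ) / 2 ^ 96 ≤ 71 / 2 ^ 96 := by gcongr
  rw [abs_le] at h1 h2 ⊢
  constructor <;> norm_num at h1 h2 h5 h7 ⊢ <;> linarith [h1.1, h1.2, h2.1, h2.2]

lemma tau_approx : |(tauI : ℝ) / 2 ^ 96 - tau| ≤ 2 / 10 ^ 20 := by
  have h := lgs_spec (m := 2) le_rfl
  have e : lgs 2 (70 / Nat.log2 2 + 1) = 54916777467707473351141011283 := by decide +kernel
  have e2 : Real.log (1 - 1 / (2 : ℕ)) = -Real.log 2 := by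
    rw [← Real.log_inv]; norm_num
  rw [e, e2, abs_le] at h
  have h1 := Real.pi_gt_d20
  have h2 := Real.pi_lt_d20
  have h3 := log2_pos
  rw [abs_le, tau, tauI]
  constructor
  · rw [le_sub_comm, div_le_iff₀ h3]
    norm_num at h h1 h2 ⊢
    linarith [h.1, h.2]
  · rw [sub_le_comm, le_div_iff₀ h3]
    norm_num at h h1 h2 ⊢
    linarith [h.1, h.2]

lemma norm_exp_I_sub (x y : ℝ) : ‖exp (I * x) - exp (I * y)‖ ≤ |x - y| := by
  have e : exp (I * x) - exp (I * y) = exp (I * y) * (exp (I * (x - y : ℝ)) - 1) := by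
    rw [mul_sub, ← Complex.exp_add]; push_cast; ring_nf
  rw [e, norm_mul, norm_exp_I_mul_ofReal, one_mul]
  exact Real.norm_exp_I_mul_ofReal_sub_one_le

lemma step_spec {j m k a b : ℕ} {g : ℕ → ℕ → ℕ → Bool} (h : step j m k a b g = true) (hm : 2 ≤ m)
    {σ : ℝ} (hj : I ^ j = I * σ) (hσ : |σ| = 1) {u : ℂ} {ε : ℝ} (hu : ‖u‖ ≤ 1) (hε : ε ≤ 1)
    (h1 : Nr k a b u ε) : ∃ k' a' b', Nr k' a' b'
      (u * exp (I * (-(σ * (tau * Real.log (1 - 1 / m))) : ℝ))) (ε + 1 / 2 ^ 63) ∧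
      g k' a' b' = true := by
  obtain ⟨l, c, d, h2, h⟩ := expF_spec h
  simp only [shr_eq, Nat.add_eq, Nat.mul_eq, div_eq] at h2
  have h3 := lgs_spec hm
  have h4 := tau_approx
  set G := lgs m (70 / m.log2 + 1)
  have h5 := abs_div_sub (tauI * G) (D := 2 ^ 96) (by positivity)
  set T := tauI * G / 2 ^ 96
  have e : cq j T 0 / 2 ^ 96 = I * (σ * (T / 2 ^ 96) : ℝ) := by
    rw [cq, hj]; push_cast; ring
  rw [e] at h2
  have hm' : (2 : ℝ) ≤ m := by exact_mod_cast hm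
  have hx : (1 / m : ℝ) ≤ 1 / 2 := by gcongr
  have hx0 : (0 : ℝ) < 1 / m := by positivity
  have l1 : Real.log (1 - 1 / m) ≤ 0 := Real.log_nonpos (by linarith) (by linarith)
  have l2 : -1 ≤ Real.log (1 - 1 / m) := by
    have := Real.log_le_log (by norm_num : (0 : ℝ) < 2⁻¹) (by linarith : 2⁻¹ ≤ 1 - 1 / (m : ℝ))
    rw [Real.log_inv] at this
    linarith [Real.log_two_lt_d9]
  set L := Real.log (1 - 1 / m)
  have h6 : |(T : ℝ) / 2 ^ 96 + tau * L| ≤ 1 / 2 ^ 65 := by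
    have e1 : (T : ℝ) / 2 ^ 96 + tau * L = ((T : ℝ) - (tauI * G : ℕ) / (2 ^ 96 : ℕ)) / 2 ^ 96
        + tauI / 2 ^ 96 * (G / 2 ^ 96 + L) - (tauI / 2 ^ 96 - tau) * L := by
      push_cast; ring
    rw [e1]
    refine (abs_sub _ _).trans ((add_le_add (abs_add_le _ _) le_rfl).trans ?_)
    rw [abs_mul, abs_mul, abs_div, abs_of_pos (by positivity : (0 : ℝ) < 2 ^ 96)]
    have a1 : |(tauI : ℝ) / 2 ^ 96| ≤ 5 := by rw [tauI, abs_of_pos (by norm_num)]; norm_num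
    have a2 : |L| ≤ 1 := abs_le.mpr ⟨l2, by linarith⟩
    calc _ ≤ (1 : ℝ) / 2 ^ 96 + 5 * (11 / 10 / 2 ^ 70) + 2 / 10 ^ 20 * 1 := by gcongr
      _ ≤ _ := by norm_num
  have h7 := norm_exp_I_sub (σ * (T / 2 ^ 96)) (-(σ * (tau * L)))
  rw [sub_neg_eq_add, ← mul_add, abs_mul, hσ, one_mul] at h7
  have h8 : Nr l c d (exp (I * (-(σ * (tau * L)) : ℝ))) (1 / 2 ^ 66 + 1 / 2 ^ 65) :=
    (norm_sub_le_norm_sub_add_norm_sub _ _ _).trans (add_le_add h2 (h7.trans h6))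
  obtain ⟨k', a', b', h9, h⟩ := mulq_Nr h h1 h8 hu (norm_exp_I_mul_ofReal _).le
  refine ⟨_, _, _, h9.mono ?_, h⟩
  nlinarith

end Pool.Agent.MP_88bd62_nt
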