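import Pool.Agent.MP_88bd62_nt.Spec1

/-! Soundness of the packed vector programs. -/

namespace Pool.Agent.MP_88bd62_nt

open Complex Finset

set_option exponentiation.threshold 500

def pk : ℕ → (ℕ → ℕ) → ℕ
  | 0, e => e 0
  | n + 1, e => pk n e * 2 ^ (424 * 2 ^ n) + pk n (fun j => e (j + 2 ^ n))

def dg (w : ℕ) : ℕ → ℕ → ℕ → ℕ
  | 0, z, _ => z
  | n + 1, z, j => if j < 2 ^ n then dg w n (z / 2 ^ (w * 2 ^ n)) j
      else dg w n (z % 2 ^ (w * 2 ^ n)) (j - 2 ^ n)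

lemma pk_congr (n : ℕ) : ∀ {e e' : ℕ → ℕ}, (∀ j < 2 ^ n, e j = e' j) → pk n e = pk n e' := by
  induction n with
  | zero => intro e e' h; exact h 0 (by norm_num)
  | succ n ih =>
    intro e e' h
    rw [pow_succ] at h
    rw [pk, pk, ih (e := e) (e' := e') fun j hj => h j (by omega),
      ih (e := fun j => e (j + 2 ^ n)) (e' := fun j => e' (j + 2 ^ n)) fun j hj => h _ (by omega)]

lemma pk_add (n : ℕ) : ∀ x y : ℕ → ℕ, pk n (fun j => x j + y j) = pk n x + pk n y := by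
  induction n with
  | zero => intro x y; rfl
  | succ n ih => intro x y; rw [pk, pk, pk, ih, ih]; ring

lemma pk_mul (n a : ℕ) : ∀ x : ℕ → ℕ, pk n (fun j => x j * a) = pk n x * a := by
  induction n with
  | zero => intro x; rfl
  | succ n ih => intro x; rw [pk, pk, ih, ih]; ring

lemma pk_zero (n : ℕ) : pk n (fun _ => 0) = 0 := by
  simpa using pk_mul n 0 (fun _ => 0)

lemma pk_lt (n : ℕ) : ∀ {e : ℕ → ℕ}, (∀ j < 2 ^ n, e j < 2 ^ 424) → pk n e < 2 ^ (424 * 2 ^ n) := by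
  induction n with
  | zero => intro e h; exact h 0 (by norm_num)
  | succ n ih =>
    intro e h
    rw [pow_succ] at h
    have h1 := ih (e := e) fun j hj => h j (by omega)
    have h2 := ih (e := fun j => e (j + 2 ^ n)) fun j hj => h _ (by omega)
    rw [pk, show 424 * 2 ^ (n + 1) = 424 * 2 ^ n + 424 * 2 ^ n by ring, pow_add]
    generalize 2 ^ (424 * 2 ^ n) = X at *
    nlinarith

lemma dg_pk (n : ℕ) : ∀ {e : ℕ → ℕ}, (∀ j < 2 ^ n, e j < 2 ^ 424) →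
    ∀ j < 2 ^ n, dg 424 n (pk n e) j = e j := by
  induction n with
  | zero => intro e _ j hj; obtain rfl : j = 0 := by simpa using hj
            rfl
  | succ n ih =>
    intro e h j hj
    rw [pow_succ] at h hj
    have h2 := pk_lt n (e := fun j => e (j + 2 ^ n)) fun j hj => h _ (by omega)
    have hX : 0 < 2 ^ (424 * 2 ^ n) := by positivity
    rw [dg, pk]
    split_ifs with hj'
    · rw [add_comm, Nat.add_mul_div_right _ _ hX, Nat.div_eq_of_lt h2, zero_add]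
      exact ih (fun j hj => h j (by omega)) j hj'
    · rw [add_comm, Nat.add_mul_mod_self_right, Nat.mod_eq_of_lt h2,
        ih (e := fun j => e (j + 2 ^ n)) (fun j hj => h _ (by omega)) _ (by omega)]
      congr 1; omega

/-- The packed quadruple has entries `e j` and all its slots are at most `Λ`. -/
def Pk (n P Q R S : ℕ) (e : ℕ → ℂ) (Λ : ℕ) : Prop :=
  ∃ p q r s : ℕ → ℕ, P = pk n p ∧ Q = pk n q ∧ R = pk n r ∧ S = pk n s ∧
    ∀ j < 2 ^ n, c4 (p j) (q j) (r j) (s j) = e j ∧ p j + q j + r j + s j ≤ Λ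

lemma Pk.rot {n P Q R S Λ k : ℕ} {e : ℕ → ℂ} {g : ℕ → ℕ → ℕ → ℕ → Bool} (H : Pk n P Q R S e Λ)
    (h : rot k P Q R S g = true) :
    ∃ P' Q' R' S', Pk n P' Q' R' S' (fun j => I ^ k * e j) Λ ∧ g P' Q' R' S' = true := by
  obtain ⟨p, q, r, s, rfl, rfl, rfl, rfl, H⟩ := H
  rcases rot_cases h with ⟨e, h⟩ | ⟨e, h⟩ | ⟨e, h⟩ | ⟨e, h⟩ <;>
    refine ⟨_, _, _, _, ⟨_, _, _, _, rfl, rfl, rfl, rfl, fun j hj => ⟨?_, ?_⟩⟩, h⟩ <;>
    obtain ⟨h1, h2⟩ := H j hj <;> first | omega | skip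
  all_goals dsimp only; rw [e, ← h1]; simp only [c4]
  · ring
  · linear_combination (s j - q j : ℂ) * I_mul_I
  · ring
  · linear_combination (q j - s j : ℂ) * I_mul_I

lemma cmb_pk (n a b : ℕ) (p x y : ℕ → ℕ) :
    cmb (pk n p) (424 * 2 ^ n) (pk n x) a (pk n y) b = pk (n + 1) (fun j => if j < 2 ^ n then
      p j * 2 ^ 36 else lin (x (j - 2 ^ n)) (a / 2 ^ 60) (y (j - 2 ^ n)) (b / 2 ^ 60)) := by
  rw [pk, pk_congr n (e' := fun j => p j * 2 ^ 36) fun j hj => if_pos hj,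
    pk_congr n (e := fun j => if j + 2 ^ n < 2 ^ n then _ else _)
      (e' := fun j => x j * (a / 2 ^ 60) + y j * (b / 2 ^ 60)) fun j _ => by simp [lin],
    pk_add, pk_mul, pk_mul, pk_mul]
  simp only [cmb, shl_eq, shr_eq, Nat.add_eq, Nat.mul_eq]
  ring

lemma Pk.dbl {n P Q R S P' Q' R' S' Λ a b : ℕ} {e e' : ℕ → ℂ} (H : Pk n P Q R S e Λ)
    (H' : Pk n P' Q' R' S' e' Λ) (hab : a / 2 ^ 60 + b / 2 ^ 60 ≤ 2 ^ 37) :
    Pk (n + 1) (cmb P (424 * 2 ^ n) P' a S' b) (cmb Q (424 * 2 ^ n) Q' a P' b)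
      (cmb R (424 * 2 ^ n) R' a Q' b) (cmb S (424 * 2 ^ n) S' a R' b)
      (fun j => if j < 2 ^ n then e j * 2 ^ 36
        else e' (j - 2 ^ n) * ((a / 2 ^ 60 : ℕ) + (b / 2 ^ 60 : ℕ) * I)) (Λ * 2 ^ 37) := by
  obtain ⟨p, q, r, s, rfl, rfl, rfl, rfl, H⟩ := H
  obtain ⟨p', q', r', s', rfl, rfl, rfl, rfl, H'⟩ := H'
  refine ⟨_, _, _, _, cmb_pk .., cmb_pk .., cmb_pk .., cmb_pk .., fun j hj => ?_⟩
  rw [pow_succ] at hj
  dsimp only
  split_ifs with hj'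
  · obtain ⟨h1, h2⟩ := H j hj'
    refine ⟨?_, by nlinarith⟩
    rw [← h1]; simp only [c4]; push_cast; ring
  · obtain ⟨h1, h2⟩ := H' (j - 2 ^ n) (by omega)
    refine ⟨by rw [c4_mul, h1], ?_⟩
    simp only [lin, Nat.add_eq, Nat.mul_eq]
    calc _ = (p' (j - 2 ^ n) + q' (j - 2 ^ n) + r' (j - 2 ^ n) + s' (j - 2 ^ n))
          * (a / 2 ^ 60 + b / 2 ^ 60) := by ring
      _ ≤ _ := Nat.mul_le_mul h2 hab

lemma Nr.sum_le {k a b : ℕ} {u : ℂ} {ε : ℝ} (h : Nr k a b u ε) (hu : ‖u‖ ≤ 1) (hε : ε ≤ 1 / 4) :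
    a + b ≤ 2 ^ 97 := by
  have h1 := le_norm_cq k a b
  have h2 : ‖cq k a b / 2 ^ 96‖ ≤ 5 / 4 := by
    have := norm_le_norm_add_norm_sub' (cq k a b / 2 ^ 96) u
    have h3 : ‖cq k a b / 2 ^ 96 - u‖ ≤ ε := h
    linarith
  rw [norm_div, norm_pow, Complex.norm_two, div_le_iff₀ (by positivity)] at h2
  have : (a : ℝ) + b ≤ 2 ^ 97 := by linarith
  exact_mod_cast this

lemma dbl_spec {f : ℕ → ℕ → ℕ → ℕ → Bool} {w q : ℂ} (hw : ‖w‖ ≤ 1) (hq : ‖q‖ ≤ 1) (r : ℕ) :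
    ∀ {n P Q R S k a b : ℕ} {e : ℕ → ℂ}, n + r = 10 → Pk n P Q R S e (2 ^ (41 + 37 * n)) →
      (∀ j < 2 ^ n, ‖e j / 2 ^ (40 + 36 * n) - w * q ^ j‖
        ≤ 1 / 2 ^ 38 + 2 ^ n / 2 ^ 43 + n / 2 ^ 34) →
      Nr k a b (q ^ 2 ^ n) (2 ^ n / 2 ^ 44 - 1 / 2 ^ 60) →
      dbl f r (424 * 2 ^ n) P Q R S k a b = true →
      ∃ P Q R S e, Pk 10 P Q R S e (2 ^ 411) ∧
        (∀ j < 1024, ‖e j / 2 ^ 400 - w * q ^ j‖ ≤ 1 / 2 ^ 30) ∧ f P Q R S = true := by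
  induction r with
  | zero =>
    intro n P Q R S k a b e hn H he _ h
    obtain rfl : n = 10 := hn
    exact ⟨P, Q, R, S, e, H, fun j hj => (he j hj).trans (by norm_num), h⟩
  | succ r ih =>
    intro n P Q R S k a b e hn H he hN h
    obtain ⟨P', Q', R', S', H', h⟩ := H.rot h
    have hq' : ∀ m : ℕ, ‖q ^ m‖ ≤ 1 := fun m => by
      rw [norm_pow]; exact pow_le_one₀ (norm_nonneg _) hq
    have hn1 : (1 : ℝ) ≤ 2 ^ n := one_le_pow₀ (by norm_num)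
    have hn2 : (2 : ℝ) ^ n ≤ 2 ^ 9 := pow_le_pow_right₀ (by norm_num) (by omega)
    have hn3 : (n : ℝ) ≤ 9 := by exact_mod_cast (by omega : n ≤ 9)
    have hn4 : (0 : ℝ) ≤ n := n.cast_nonneg
    obtain ⟨k', a', b', hN', h⟩ := mulq_Nr h hN hN (hq' _) (hq' _)
    have hab := hN.sum_le (hq' _) (by norm_num at hn2 ⊢; linarith)
    have e1 : Nat.mul 2 (424 * 2 ^ n) = 424 * 2 ^ (n + 1) := by rw [Nat.mul_eq]; ring
    rw [e1] at h
    refine ih (by omega) (by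
      rw [show 41 + 37 * (n + 1) = 41 + 37 * n + 37 by ring, pow_add 2 _ 37]
      exact H.dbl H' (by omega)) (fun j hj => ?_) ?_ h
    · rw [pow_succ] at hj
      rw [show 40 + 36 * (n + 1) = 40 + 36 * n + 36 by ring, pow_add (2 : ℂ) (40 + 36 * n) 36]
      split_ifs with hj'
      · rw [mul_div_mul_right _ _ (by norm_num)]
        refine (he j hj').trans ?_
        push_cast
        rw [pow_succ (2 : ℝ) n]
        linarith
      · have h1 := he (j - 2 ^ n) (by omega)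
        have h2 := cq_div k a b (D := 2 ^ 60) (by norm_num)
        have h3 : ‖cq k (a / 2 ^ 60) (b / 2 ^ 60) / 2 ^ 36 - q ^ 2 ^ n‖
            ≤ 2 ^ n / 2 ^ 44 + 1 / 2 ^ 35 := by
          have e2 : cq k (a / 2 ^ 60) (b / 2 ^ 60) / 2 ^ 36 - q ^ 2 ^ n
              = (cq k (a / 2 ^ 60) (b / 2 ^ 60) - cq k a b / (2 ^ 60 : ℕ)) / 2 ^ 36
                + (cq k a b / 2 ^ 96 - q ^ 2 ^ n) := by push_cast; ring
          rw [e2]
          refine (norm_add_le _ _).trans ?_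
          rw [norm_div, norm_pow, Complex.norm_two]
          have h4 : ‖cq k a b / 2 ^ 96 - q ^ 2 ^ n‖ ≤ _ := hN
          have : ‖cq k (a / 2 ^ 60) (b / 2 ^ 60) - cq k a b / (2 ^ 60 : ℕ)‖ / 2 ^ 36
            ≤ 2 / 2 ^ 36 := by gcongr
          linarith
        have h5 := norm_mul_sub h1 h3 (by
          rw [norm_mul]; exact mul_le_one₀ hw (norm_nonneg _) (hq' _)) (hq' _)
        have e3 : w * q ^ j = w * q ^ (j - 2 ^ n) * q ^ 2 ^ n := by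
          rw [mul_assoc, ← pow_add]; congr 2; omega
        have e4 : I ^ k * e (j - 2 ^ n) * ((a / 2 ^ 60 : ℕ) + (b / 2 ^ 60 : ℕ) * I)
            / (2 ^ (40 + 36 * n) * 2 ^ 36) = e (j - 2 ^ n) / 2 ^ (40 + 36 * n)
              * (cq k (a / 2 ^ 60) (b / 2 ^ 60) / 2 ^ 36) := by rw [cq]; ring
        rw [e3, e4]
        refine h5.trans ?_
        push_cast
        rw [pow_succ (2 : ℝ) n]
        generalize (2 : ℝ) ^ n = t at *
        have h6 : (1 : ℝ) / 2 ^ 38 + t / 2 ^ 43 + n / 2 ^ 34 ≤ 1 := by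
          norm_num at hn2 ⊢; linarith
        have h7 : (0 : ℝ) ≤ t / 2 ^ 44 + 1 / 2 ^ 35 := by positivity
        nlinarith
    · rw [pow_succ 2 n, pow_mul, sq]
      refine hN'.mono ?_
      rw [pow_succ (2 : ℝ) n]
      generalize (2 : ℝ) ^ n = t at *
      have h6 : t / 2 ^ 44 - 1 / 2 ^ 60 ≤ 1 / 2 ^ 35 := by norm_num at hn2 ⊢; linarith
      have h7 : 0 ≤ t / 2 ^ 44 - 1 / 2 ^ 60 := by norm_num at hn1 ⊢; linarith
      nlinarith

/-- The packed quadruple approximates `f`, as a sum of `c` terms. -/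
def Rep (c P Q R S : ℕ) (f : ℕ → ℂ) : Prop :=
  ∃ e, Pk 10 P Q R S e (c * 2 ^ 411) ∧ ∀ j < 1024, ‖e j / 2 ^ 400 - f j‖ ≤ c / 2 ^ 30

lemma Rep.zero : Rep 0 0 0 0 0 (fun _ => 0) :=
  ⟨fun _ => 0, ⟨_, _, _, _, (pk_zero _).symm, (pk_zero _).symm, (pk_zero _).symm, (pk_zero _).symm,
    fun j _ => by simp [c4]⟩, by simp⟩

lemma Rep.add {c P Q R S c' P' Q' R' S' : ℕ} {f f' : ℕ → ℂ} (h : Rep c P Q R S f)
    (h' : Rep c' P' Q' R' S' f') :
    Rep (c + c') (P + P') (Q + Q') (R + R') (S + S') (fun j => f j + f' j) := by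
  obtain ⟨e, ⟨p, q, r, s, rfl, rfl, rfl, rfl, H⟩, h⟩ := h
  obtain ⟨e', ⟨p', q', r', s', rfl, rfl, rfl, rfl, H'⟩, h'⟩ := h'
  refine ⟨fun j => e j + e' j, ⟨_, _, _, _, (pk_add ..).symm, (pk_add ..).symm, (pk_add ..).symm,
    (pk_add ..).symm, fun j hj => ⟨?_, ?_⟩⟩, fun j hj => ?_⟩
  · dsimp only
    rw [← (H j hj).1, ← (H' j hj).1]; simp only [c4]; push_cast; ring
  · have := (H j hj).2
    have := (H' j hj).2
    rw [add_mul]; omega
  · rw [add_div, add_sub_add_comm, Nat.cast_add, add_div]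
    exact (norm_add_le _ _).trans (add_le_add (h j hj) (h' j hj))

lemma Rep.perturb {c P Q R S : ℕ} {f g : ℕ → ℂ} (h : Rep c P Q R S f)
    (hg : ∀ j < 1024, ‖f j - g j‖ ≤ 1 / 2 ^ 30) : Rep (c + 1) P Q R S g := by
  obtain ⟨e, ⟨p, q, r, s, rfl, rfl, rfl, rfl, H⟩, h⟩ := h
  refine ⟨e, ⟨_, _, _, _, rfl, rfl, rfl, rfl, fun j hj => ⟨(H j hj).1, ?_⟩⟩, fun j hj => ?_⟩
  · exact (H j hj).2.trans (Nat.mul_le_mul_right _ (Nat.le_succ c))
  · rw [Nat.cast_add, add_div, Nat.cast_one]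
    exact (norm_sub_le_norm_sub_add_norm_sub _ _ _).trans (add_le_add (h j hj) (hg j hj))

lemma Rep.congr {c P Q R S : ℕ} {f g : ℕ → ℂ} (h : Rep c P Q R S f) (hg : ∀ j, f j = g j) :
    Rep c P Q R S g := by
  rwa [← funext hg]

lemma term_spec {wn wd e k a b : ℕ} {f : ℕ → ℕ → ℕ → ℕ → Bool} (h : term wn wd e k a b f = true)
    (hwd : 0 < wd) (hw : wn ≤ wd) {u : ℂ} (hu : ‖u‖ ≤ 1) (hN : Nr k a b u (1 / 2 ^ 46)) :
    ∃ P Q R S, Rep 1 P Q R S (fun j => I ^ e * (wn / wd) * u ^ (2 * j + 1)) ∧ f P Q R S = true := by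
  obtain ⟨P, Q, R, S, e1, e2, h⟩ := rot_spec h
  obtain ⟨k', a', b', hN', h⟩ := mulq_Nr h hN hN hu hu
  simp only [shl_eq, Nat.add_eq, Nat.mul_eq, div_eq] at e1 e2
  have hab := hN.sum_le hu (by norm_num)
  have hw' : ‖(wn / wd : ℂ)‖ ≤ 1 := by
    rw [norm_div, Complex.norm_natCast, Complex.norm_natCast, div_le_one (by positivity)]
    exact_mod_cast hw
  have hI : ‖I ^ e * (wn / wd : ℂ)‖ ≤ 1 := by rwa [norm_mul, norm_pow, norm_I, one_pow, one_mul]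
  have hd : ∀ x : ℕ, wn * x / (wd * 2 ^ 56) ≤ x / 2 ^ 56 := fun x =>
    (Nat.div_le_div_right (Nat.mul_le_mul_right x hw)).trans (Nat.mul_div_mul_left _ _ hwd).le
  obtain ⟨P, Q, R, S, E, H, hE, h⟩ := dbl_spec (w := I ^ e * (wn / wd) * u) (q := u * u) (n := 0)
    (P := P) (Q := Q) (R := R) (S := S) (k := k') (a := a') (b := b') (e := fun _ => c4 P Q R S)
    (by rw [norm_mul]; exact mul_le_one₀ hI (norm_nonneg _) hu)
    (by rw [norm_mul]; exact mul_le_one₀ hu (norm_nonneg _) hu) 10 rfl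
    ⟨fun _ => P, fun _ => Q, fun _ => R, fun _ => S, rfl, rfl, rfl, rfl, fun j _ => ⟨rfl, by
      have := hd a
      have := hd b
      dsimp only
      omega⟩⟩
    (fun j hj => by
      obtain rfl : j = 0 := by simpa using hj
      have h2 := cq_div (k + e) (wn * a) (wn * b) (D := wd * 2 ^ 56) (by positivity)
      have hwd' : (wd : ℂ) ≠ 0 := by exact_mod_cast hwd.ne'
      have e3 : c4 P Q R S / 2 ^ (40 + 36 * 0) - I ^ e * (wn / wd) * u * (u * u) ^ 0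
          = (cq (k + e) (wn * a / (wd * 2 ^ 56)) (wn * b / (wd * 2 ^ 56))
            - cq (k + e) (wn * a) (wn * b) / (wd * 2 ^ 56 : ℕ)) / 2 ^ 40
            + I ^ e * (wn / wd) * (cq k a b / 2 ^ 96 - u) := by
        rw [e1]; simp only [cq, c4]; push_cast; field_simp; ring
      rw [e3]
      refine (norm_add_le _ _).trans ?_
      rw [norm_div, norm_pow, Complex.norm_two, norm_mul]
      have h4 : ‖cq k a b / 2 ^ 96 - u‖ ≤ _ := hN
      have h5 : ‖I ^ e * (wn / wd : ℂ)‖ * ‖cq k a b / 2 ^ 96 - u‖ ≤ 1 * (1 / 2 ^ 46) := by gcongr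
      have : ‖cq (k + e) (wn * a / (wd * 2 ^ 56)) (wn * b / (wd * 2 ^ 56))
            - cq (k + e) (wn * a) (wn * b) / (wd * 2 ^ 56 : ℕ)‖ / 2 ^ 40 ≤ 2 / 2 ^ 40 := by gcongr
      norm_num at h5 this ⊢
      linarith)
    (by simpa using hN'.mono (by norm_num)) h
  refine ⟨P, Q, R, S, ⟨E, by rwa [one_mul], fun j hj => ?_⟩, h⟩
  dsimp only
  rw [pow_succ' u, pow_mul, sq, ← mul_assoc, Nat.cast_one]
  exact hE j hj

lemma termA_spec {wn wd e k a b X Y Z T c : ℕ} {f : ℕ → ℕ → ℕ → ℕ → Bool} {g : ℕ → ℂ}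
    (h : termA wn wd e k a b X Y Z T f = true) (hwd : 0 < wd) (hw : wn ≤ wd) {u : ℂ}
    (hu : ‖u‖ ≤ 1) (hN : Nr k a b u (1 / 2 ^ 46)) (H : Rep c X Y Z T g) :
    ∃ P Q R S, Rep (c + 1) P Q R S (fun j => g j + I ^ e * (wn / wd) * u ^ (2 * j + 1)) ∧
      f P Q R S = true := by
  obtain ⟨P, Q, R, S, H', h⟩ := term_spec h hwd hw hu hN
  simp only [fN_eq] at h
  exact ⟨_, _, _, _, H.add H', h⟩

/-- The complex number stored in a slot of `96` bits. -/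
noncomputable def sv (x : ℕ) : ℂ := c4 (x / 2 ^ 48) (x % 2 ^ 48) (2 ^ 47) (2 ^ 47) / 2 ^ 40

lemma chk_spec {p r x y : ℕ} (h : chk p r x y = true) :
    |(y : ℝ) - x - (p - r) / 2 ^ 360| ≤ 1 := by
  obtain ⟨h1, h2⟩ := cnd_false h
  replace h1 := ble_t h1
  replace h2 := ble_t h2
  simp only [shl_eq, Nat.add_eq] at h1 h2
  have h1' : (r : ℝ) + y * 2 ^ 360 ≤ p + x * 2 ^ 360 := by exact_mod_cast h1
  have h2' : (p : ℝ) + x * 2 ^ 360 ≤ r + (y + 1) * 2 ^ 360 := by exact_mod_cast h2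
  have hX : (0 : ℝ) < 2 ^ 360 := by positivity
  generalize (2 : ℝ) ^ 360 = X at *
  rw [abs_le, le_sub_comm, sub_le_comm, div_le_iff₀ hX, le_div_iff₀ hX]
  constructor <;> linarith

lemma unp_zero (P Q R S z z' : ℕ) : unp 0 P Q R S z z' = cnd (chk P R (Nat.shiftRight z 48)
    (Nat.shiftRight z' 48)) (chk Q S (lo z 48) (lo z' 48)) false := rfl

lemma unp_succ (n P Q R S z z' : ℕ) : unp (n + 1) P Q R S z z' =
    cnd (unp n (P / 2 ^ (424 * 2 ^ n)) (Q / 2 ^ (424 * 2 ^ n)) (R / 2 ^ (424 * 2 ^ n))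
      (S / 2 ^ (424 * 2 ^ n)) (z / 2 ^ (96 * 2 ^ n)) (z' / 2 ^ (96 * 2 ^ n)))
    (unp n (P % 2 ^ (424 * 2 ^ n)) (Q % 2 ^ (424 * 2 ^ n)) (R % 2 ^ (424 * 2 ^ n))
      (S % 2 ^ (424 * 2 ^ n)) (z % 2 ^ (96 * 2 ^ n)) (z' % 2 ^ (96 * 2 ^ n))) false := by
  simp only [← shr_eq, ← lo_eq, ← shl_eq 424, ← shl_eq 96]
  rfl

lemma unp_dg (n : ℕ) : ∀ {P Q R S z z' : ℕ}, unp n P Q R S z z' = true → ∀ j < 2 ^ n,
    ‖sv (dg 96 n z' j) - sv (dg 96 n z j) - c4 (dg 424 n P j) (dg 424 n Q j) (dg 424 n R j)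
      (dg 424 n S j) / 2 ^ 400‖ ≤ 1 / 2 ^ 39 := by
  induction n with
  | zero =>
    intro P Q R S z z' h j _
    rw [unp_zero] at h
    obtain ⟨h1, h2⟩ := cnd_false h
    replace h1 := chk_spec h1
    replace h2 := chk_spec h2
    rw [shr_eq, shr_eq] at h1
    rw [lo_eq, lo_eq] at h2
    rw [dg, dg, dg, dg, dg, dg]
    have e : sv z' - sv z - c4 P Q R S / 2 ^ 400
        = (((((z' / 2 ^ 48 : ℕ) : ℝ) - (z / 2 ^ 48 : ℕ) - (P - R) / 2 ^ 360 : ℝ) : ℂ) +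
          ((((z' % 2 ^ 48 : ℕ) : ℝ) - (z % 2 ^ 48 : ℕ) - (Q - S) / 2 ^ 360 : ℝ) : ℂ) * I) / 2 ^ 40 := by
      simp only [sv, c4]
      generalize z' / 2 ^ 48 = x₁, z / 2 ^ 48 = x₂, z' % 2 ^ 48 = x₃, z % 2 ^ 48 = x₄
      rw [show (2 : ℂ) ^ 400 = 2 ^ 360 * 2 ^ 40 from pow_add _ 360 40]
      push_cast
      generalize (2 : ℂ) ^ 360 = X
      ring
    rw [e, norm_div, norm_pow, Complex.norm_two, div_le_div_iff₀ (by positivity) (by positivity)]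
    have := norm_add_le ((((z' / 2 ^ 48 : ℕ) : ℝ) - (z / 2 ^ 48 : ℕ) - (P - R) / 2 ^ 360 : ℝ) : ℂ)
      (((((z' % 2 ^ 48 : ℕ) : ℝ) - (z % 2 ^ 48 : ℕ) - (Q - S) / 2 ^ 360 : ℝ) : ℂ) * I)
    rw [norm_mul, norm_I, mul_one, norm_real, norm_real, Real.norm_eq_abs, Real.norm_eq_abs] at this
    linarith
  | succ n ih =>
    intro P Q R S z z' h j hj
    rw [unp_succ] at h
    obtain ⟨h1, h2⟩ := cnd_false h
    rw [pow_succ] at hj
    simp only [dg]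
    split_ifs with hj'
    · exact ih h1 j hj'
    · exact ih h2 _ (by omega)

/-- The `j`-th entry of a compact vector. -/
noncomputable def zv (z j : ℕ) : ℂ := sv (dg 96 10 z j)

lemma unp_spec {c P Q R S z z' : ℕ} {f g : ℕ → ℂ} {ε : ℝ} (h : unp 10 P Q R S z z' = true)
    (H : Rep c P Q R S f) (hc : c ≤ 600) (hz : ∀ j < 1024, ‖zv z j - g j‖ ≤ ε) :
    ∀ j < 1024, ‖zv z' j - (g j + f j)‖ ≤ ε + (c + 1) / 2 ^ 30 := by
  obtain ⟨e, ⟨p, q, r, s, rfl, rfl, rfl, rfl, H⟩, H'⟩ := H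
  intro j hj
  have h1 := unp_dg 10 h j hj
  have hb : c * 2 ^ 411 < 2 ^ 424 := by
    rw [show (2 : ℕ) ^ 424 = 2 ^ 13 * 2 ^ 411 from pow_add 2 13 411]
    exact Nat.mul_lt_mul_of_lt_of_le (by omega) le_rfl (by positivity)
  generalize c * 2 ^ 411 = B at H hb
  rw [dg_pk 10 (fun j hj => by have := (H j hj).2; omega) j hj,
    dg_pk 10 (fun j hj => by have := (H j hj).2; omega) j hj,
    dg_pk 10 (fun j hj => by have := (H j hj).2; omega) j hj,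
    dg_pk 10 (fun j hj => by have := (H j hj).2; omega) j hj, (H j hj).1] at h1
  have e1 : zv z' j - (g j + f j) = (zv z' j - zv z j - e j / 2 ^ 400) + (zv z j - g j)
      + (e j / 2 ^ 400 - f j) := by ring
  rw [e1]
  refine norm_add₃_le.trans ?_
  have h2 := hz j hj
  have h3 := H' j hj
  have h4 : ‖zv z' j - zv z j - e j / 2 ^ 400‖ ≤ 1 / 2 ^ 39 := h1
  rw [add_div]
  norm_num at h4 ⊢
  linarith

end Pool.Agent.MP_88bd62_nt
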