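import Pool.Agent.MP_88bd62_nt.Spec2

/-! Soundness of the main loop. -/

namespace Pool.Agent.MP_88bd62_nt

open Complex Finset

noncomputable def zz (x : ℝ) : ℂ := exp (I * (-(tau * Real.log x) : ℝ))

lemma norm_zz (x : ℝ) : ‖zz x‖ = 1 := norm_exp_I_mul_ofReal _

lemma cpow_pt {x : ℝ} (hx : 0 < x) (d : ℕ) : (x : ℂ) ^ (-pt 1 d) = (x : ℂ)⁻¹ * zz x ^ d := by
  have hx' : (x : ℂ) ≠ 0 := by exact_mod_cast hx.ne'
  have e : (x : ℂ)⁻¹ = exp (-(Real.log x : ℂ)) := by
    rw [Complex.exp_neg, ← ofReal_exp, Real.exp_log hx]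
  rw [cpow_def_of_ne_zero hx', ← ofReal_log hx.le, e, zz, ← Complex.exp_nat_mul,
    ← Complex.exp_add, pt]
  congr 1
  push_cast
  ring

lemma zz_mul {x y : ℝ} (hx : x ≠ 0) (hy : y ≠ 0) : zz (x * y) = zz x * zz y := by
  rw [zz, zz, zz, ← Complex.exp_add, Real.log_mul hx hy]
  congr 1
  push_cast
  ring

lemma zz_succ {n : ℕ} (hn : 1 ≤ n) :
    zz n * exp (I * (-(-1 * (tau * Real.log (1 - 1 / (n + 1 : ℕ)))) : ℝ)) = zz (n + 1 : ℕ) := by
  have hn' : (0 : ℝ) < n := by exact_mod_cast hn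
  have e : (1 - 1 / (n + 1 : ℕ) : ℝ) = n / (n + 1 : ℕ) := by push_cast; field_simp; ring
  rw [e, Real.log_div hn'.ne' (by positivity), zz, zz, ← Complex.exp_add]
  congr 1
  generalize Real.log n = x, Real.log (n + 1 : ℕ) = y
  push_cast
  ring

lemma isP_iff {n : ℕ} (hn : n < 22801) : isP n = true ↔ n.Prime ∧ n ≠ 2 := by
  have key : ∀ k, k = min (n - 1) 150 → 3 ≤ n →
      (Nat.beq (Nat.gcd n k.factorial) 1 = true ↔ n.Prime ∧ n ≠ 2) := by
    intro k hk h3
    rw [Nat.beq_eq, ← Nat.coprime_iff_gcd_eq_one, Nat.coprime_factorial_iff (by omega)]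
    constructor
    · intro h
      refine ⟨?_, by omega⟩
      by_contra hp
      have h1 := Nat.minFac_sq_le_self (by omega : 0 < n) hp
      have h2 := (Nat.not_prime_iff_minFac_lt (by omega)).mp hp
      have h4 : 151 ≤ n.minFac := by omega
      nlinarith
    · rintro ⟨hp, -⟩
      rw [hp.minFac_eq]; omega
  rw [isP]
  cases h3 : Nat.ble 3 n
  · have := ble_f h3
    constructor
    · intro h; exact absurd h (by simp [cnd])
    · rintro ⟨hp, h2⟩
      have := hp.two_le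
      omega
  · cases h4 : Nat.ble n 150
    · exact key 150 (by have := ble_f h4; omega) (ble_t h3)
    · exact key (n - 1) (by have := ble_t h4; omega) (ble_t h3)

lemma lam_succ (p k a b n m l c d t X Y Z T : ℕ) (f : ℕ → ℕ → ℕ → ℕ → ℕ → Bool) :
    lam p k a b f (n + 1) m l c d t X Y Z T =
      cnd (Nat.ble (Nat.shiftLeft 3 (m + 30)) (p ^ m)) (f (t + 1) X Y Z T)
      (cnd (Nat.ble (m * p) 65536) (mulq 96 l c d k a b fun l' c' d' =>
        termA (Nat.shiftLeft 1 m + 2 - 4 * (m % 2)) (m * p ^ m) (2 * m) l' c' d' X Y Z T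
          (lam p k a b f n (m + 1) l' c' d' (t + 1))) false) := rfl

lemma lam_spec {p k a b : ℕ} {f : ℕ → ℕ → ℕ → ℕ → ℕ → Bool} {u : ℂ} {g : ℕ → ℂ} (hp : 3 ≤ p)
    (hu : ‖u‖ ≤ 1) (hN : Nr k a b u (p / 2 ^ 63)) (n : ℕ) : ∀ {M l c d t X Y Z T : ℕ}, 1 ≤ M →
      Nr l c d (u ^ M) (M * p / 2 ^ 62) →
      Rep t X Y Z T (fun j => g j + locT M ((p : ℂ)⁻¹ * u ^ (2 * j + 1))) →
      lam p k a b f n (M + 1) l c d t X Y Z T = true →
      ∃ t X Y Z T, Rep t X Y Z T (fun j => g j + loc ((p : ℂ)⁻¹ * u ^ (2 * j + 1))) ∧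
        f t X Y Z T = true := by
  have hp' : (3 : ℝ) ≤ p := by exact_mod_cast hp
  have hu' : ∀ m : ℕ, ‖u ^ m‖ ≤ 1 := fun m => by
    rw [norm_pow]; exact pow_le_one₀ (norm_nonneg _) hu
  induction n with
  | zero => intro M l c d t X Y Z T _ _ _ h; exact absurd h (by simp [lam])
  | succ n ih =>
    intro M l c d t X Y Z T hM hN' H h
    rw [lam_succ] at h
    rcases cnd_cases h with ⟨h1, h⟩ | ⟨-, h⟩
    · refine ⟨_, _, _, _, _, H.perturb fun j _ => ?_, h⟩
      rw [add_sub_add_left_eq_sub, norm_sub_rev]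
      refine (norm_loc_sub (y := 1 / p) ?_ (by gcongr) M hM).trans ?_
      · rw [norm_mul, norm_inv, Complex.norm_natCast, one_div]
        exact mul_le_of_le_one_right (by positivity) (hu' _)
      · replace h1 := ble_t h1
        rw [shl_eq, pow_add] at h1
        have h2 : (3 : ℝ) * (2 ^ (M + 1) * 2 ^ 30) ≤ p ^ (M + 1) := by exact_mod_cast h1
        rw [mul_one_div, div_pow, ← mul_div_assoc, div_le_div_iff₀ (by positivity) (by positivity)]
        linarith
    · obtain ⟨h1, h⟩ := cnd_false h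
      have h2 : ((M : ℝ) + 1) * p ≤ 65536 := by exact_mod_cast ble_t h1
      have hM' : (1 : ℝ) ≤ M := by exact_mod_cast hM
      obtain ⟨l', c', d', h3, h⟩ := mulq_Nr h hN' hN (hu' _) hu
      rw [← pow_succ] at h3
      have h4 : Nr l' c' d' (u ^ (M + 1)) ((M + 1 : ℕ) * p / 2 ^ 62) := h3.mono (by
        have : (M : ℝ) * p / 2 ^ 62 * (p / 2 ^ 63) ≤ 1 / 2 * (p / 2 ^ 63) := by
          refine mul_le_mul_of_nonneg_right ?_ (by positivity)
          rw [div_le_iff₀ (by positivity)]; nlinarith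
        push_cast
        norm_num at this ⊢
        linarith)
      have hpm : 2 ^ (M + 1) ≤ p ^ (M + 1) := Nat.pow_le_pow_left (by omega) _
      have h2m : 2 ≤ 2 ^ (M + 1) := by rw [pow_succ]; have := Nat.one_le_two_pow (n := M); omega
      obtain ⟨X', Y', Z', T', H', h⟩ := termA_spec h (by positivity) (by
        rw [shl_eq, one_mul]
        exact (Nat.sub_le _ _).trans (by nlinarith)) (hu' _) (h4.mono (by
          push_cast
          rw [div_le_div_iff₀ (by positivity) (by positivity)]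
          linarith)) H
      refine ih (by omega) h4 (H'.congr fun j => ?_) h
      have e : I ^ (2 * (M + 1)) * ((Nat.shiftLeft 1 (M + 1) + 2 - 4 * ((M + 1) % 2) : ℕ) : ℂ)
          = (-2) ^ (M + 1) + 2 := by
        rw [pow_mul, I_sq, shl_eq, one_mul]
        rcases Nat.even_or_odd (M + 1) with h | h
        · rw [Nat.even_iff.mp h, h.neg_pow, h.neg_pow]; simp
        · rw [Nat.odd_iff.mp h, h.neg_pow, h.neg_pow, Nat.cast_sub (by omega)]; push_cast; ring
      rw [locT, locT, sum_range_succ _ (M + 1), ← mul_div_assoc, e, pow_right_comm u,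
        mul_pow _ _ (M + 1), Nat.cast_mul, Nat.cast_pow, inv_pow]
      generalize (p : ℂ) ^ (M + 1) = y, (u ^ (2 * j + 1)) ^ (M + 1) = x,
        ∑ i ∈ range (M + 1), (_ : ℂ) = z
      ring

noncomputable def ZA (n j : ℕ) : ℂ := ∑ m ∈ Ico 1 n, (m : ℂ) ^ (-pt 1 (2 * j + 1))

noncomputable def LA (n j : ℕ) : ℂ := ∑ m ∈ range n, ell m (pt 1 (2 * j + 1))

lemma run_succ (f : ℕ → ℕ → ℕ → ℕ → ℕ → ℕ → ℕ → ℕ → ℕ → ℕ → ℕ → ℕ → Bool)
    (r n k a b P Q R S t X Y Z T : ℕ) : run f (r + 1) n k a b P Q R S t X Y Z T =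
      termA 1 n 0 k a b P Q R S fun P' Q' R' S' => step 3 (n + 1) k a b fun k' a' b' => fN k' (fN t
        (cnd (isP n) (lam n k a b (run f r (n + 1) k' a' b' P' Q' R' S') 64 2 k a b t X Y Z T)
          (run f r (n + 1) k' a' b' P' Q' R' S' t X Y Z T))) := rfl

lemma run_spec {f : ℕ → ℕ → ℕ → ℕ → ℕ → ℕ → ℕ → ℕ → ℕ → ℕ → ℕ → ℕ → Bool} {F G : ℕ → ℂ} (r : ℕ) :
    ∀ {n k a b c P Q R S t X Y Z T : ℕ}, 1 ≤ n → n + r ≤ 22801 → Nr k a b (zz n) (n / 2 ^ 63) →
      Rep c P Q R S (fun j => ZA n j - F j) → Rep t X Y Z T (fun j => LA n j - G j) →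
      run f r n k a b P Q R S t X Y Z T = true →
      ∃ k a b P Q R S t X Y Z T, Nr k a b (zz (n + r : ℕ)) ((n + r : ℕ) / 2 ^ 63) ∧
        Rep (c + r) P Q R S (fun j => ZA (n + r) j - F j) ∧
        Rep t X Y Z T (fun j => LA (n + r) j - G j) ∧ f k a b P Q R S t X Y Z T = true := by
  induction r with
  | zero => intro n k a b c P Q R S t X Y Z T _ _ h1 h2 h3 h
            exact ⟨_, _, _, _, _, _, _, _, _, _, _, _, h1, h2, h3, h⟩
  | succ r ih =>
    intro n k a b c P Q R S t X Y Z T hn hr h1 h2 h3 h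
    rw [run_succ] at h
    have hn' : (n : ℝ) ≤ 22801 := by exact_mod_cast (by omega : n ≤ 22801)
    have hn0 : (0 : ℝ) < n := by exact_mod_cast hn
    have hz : ∀ j : ℕ, (n : ℂ) ^ (-pt 1 (2 * j + 1)) = (n : ℂ)⁻¹ * zz n ^ (2 * j + 1) := fun j => by
      simpa only [ofReal_natCast] using cpow_pt hn0 (2 * j + 1)
    obtain ⟨P', Q', R', S', h4, h⟩ := termA_spec h hn hn (norm_zz _).le (h1.mono (by
      rw [div_le_div_iff₀ (by positivity) (by positivity)]; linarith)) h2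
    obtain ⟨k', a', b', h5, h⟩ := step_spec h (by omega) (σ := -1) (by simp) (by simp)
      (norm_zz _).le (by rw [div_le_one (by positivity)]; linarith) h1
    rw [zz_succ hn, ← add_div, ← Nat.cast_succ] at h5
    have h6 : Rep (c + 1) P' Q' R' S' (fun j => ZA (n + 1) j - F j) := h4.congr fun j => by
      rw [ZA, ZA, sum_Ico_succ_top hn, hz]; simp; ring
    rw [fN_eq, fN_eq] at h
    rw [show n + (r + 1) = n + 1 + r by ring, show c + (r + 1) = c + 1 + r by ring]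
    rcases cnd_cases h with ⟨hp, h⟩ | ⟨hp, h⟩
    · rw [isP_iff (by omega)] at hp
      have h3n : 3 ≤ n := by have := hp.1.two_le; omega
      obtain ⟨t', X', Y', Z', T', h7, h⟩ := lam_spec (g := fun j => LA n j - G j) h3n (norm_zz _).le
        h1 64 (M := 1) le_rfl (by
          rw [pow_one]
          exact h1.mono (by rw [Nat.cast_one, one_mul]; gcongr <;> norm_num))
        (h3.congr fun j => by simp [locT, sum_range_succ]) h
      refine ih (by omega) (by omega) h5 h6 (h7.congr fun j => ?_) h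
      rw [LA, LA, sum_range_succ, ell, if_pos hp, hz]; ring
    · have hp' : ¬ (n.Prime ∧ n ≠ 2) := by rw [← isP_iff (by omega), hp]; simp
      refine ih (by omega) (by omega) h5 h6 (h3.congr fun j => ?_) h
      rw [LA, LA, sum_range_succ, ell, if_neg hp', add_zero]

/-- The state after `i` blocks. -/
def St (i k a b z l : ℕ) : Prop :=
  Nr k a b (zz (500 * i + 1 : ℕ)) ((500 * i + 1 : ℕ) / 2 ^ 63) ∧
    (∀ j < 1024, ‖zv z j - ZA (500 * i + 1) j‖ ≤ 501 * i / 2 ^ 30) ∧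
    ∀ j < 1024, ‖zv l j - LA (500 * i + 1) j‖ ≤ 601 * i / 2 ^ 30

lemma chunk_spec {i n k a b k' a' b' z z' l l' : ℕ} (H : St i k a b z l)
    (h : chunk 500 n k a b k' a' b' z z' l l' = true) (hn : n = 500 * i + 1) (hi : i < 40) :
    St (i + 1) k' a' b' z' l' := by
  obtain ⟨h1, h2, h3⟩ := H
  rw [← hn] at h1 h2 h3
  obtain ⟨k₁, a₁, b₁, P, Q, R, S, t, X, Y, Z, T, h4, h5, h6, h⟩ := run_spec (F := ZA n) (G := LA n)
    500 (by omega) (by omega) h1 (Rep.zero.congr (by simp)) (Rep.zero.congr (by simp)) h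
  obtain ⟨e1, h⟩ := cnd_false h
  obtain ⟨e2, h⟩ := cnd_false h
  obtain ⟨e3, h⟩ := cnd_false h
  obtain ⟨ht, h⟩ := cnd_false h
  obtain ⟨h7, h8⟩ := cnd_cases h |>.resolve_right (by simp)
  rw [Nat.beq_eq] at e1 e2 e3
  subst e1 e2 e3
  have ht' : (t : ℝ) ≤ 600 := by exact_mod_cast ble_t ht
  rw [St, show 500 * (i + 1) + 1 = n + 500 by omega]
  refine ⟨h4, fun j hj => ?_, fun j hj => ?_⟩
  · have := unp_spec h7 h5 (by norm_num) h2 j hj
    rw [add_sub_cancel] at this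
    refine this.trans (le_of_eq ?_)
    push_cast; ring
  · have := unp_spec h8 h6 (ble_t ht) h3 j hj
    rw [add_sub_cancel] at this
    refine this.trans ?_
    push_cast
    norm_num
    linarith

lemma tau_gt : 9 / 2 < tau := by
  have := abs_le.mp tau_approx
  rw [tauI] at this
  norm_num at this
  linarith [this.2]

lemma inv_tau_approx : |(2 : ℝ) ^ 96 / tauI - 1 / tau| ≤ 1 / 2 ^ 40 := by
  have ht := tau_gt
  have h6 := tau_approx
  have h7 : (1 : ℝ) ≤ tauI / 2 ^ 96 := by norm_num [tauI]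
  rw [← one_div_div]
  generalize (tauI : ℝ) / 2 ^ 96 = x at h6 h7
  have h8 : 1 ≤ x * tau := one_le_mul_of_one_le_of_one_le h7 (by linarith)
  rw [div_sub_div _ _ (by linarith) (by linarith), abs_div, one_mul, mul_one, abs_sub_comm,
    abs_of_pos (by linarith : 0 < x * tau), div_le_iff₀ (by linarith)]
  norm_num at h6 ⊢
  linarith

lemma tailC_spec {N k a b z y : ℕ} (h : tailC (2 * N) k a b z y = true) (hN : 1 ≤ N)
    (h1 : Nr k a b (zz N) (1 / 2 ^ 47)) (hz : ∀ j < 1024, zv z j = 0) :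
    ∀ j < 1024, ‖zv y j + I * zz (N - 1 / 2) ^ (2 * j + 1) / tau‖ ≤ 2049 / 2 ^ 40 := by
  obtain ⟨k', a', b', h2, h⟩ := step_spec h (by omega) (σ := 1) (by simp) (by simp)
    (norm_zz _).le (by norm_num) h1
  have hN' : (1 : ℝ) ≤ N := by exact_mod_cast hN
  have e : zz N * exp (I * (-(1 * (tau * Real.log (1 - 1 / (2 * N : ℕ)))) : ℝ)) = zz (N - 1 / 2) := by
    have h3 : (1 : ℝ) / (2 * N : ℕ) ≤ 1 / 2 := by push_cast; gcongr; linarith
    rw [one_mul, ← zz, ← zz_mul (by linarith) (by linarith)]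
    congr 1
    push_cast
    field_simp
  rw [e] at h2
  obtain ⟨P, Q, R, S, H, h⟩ := term_spec h (by norm_num [tauI]) (by norm_num [tauI]) (norm_zz _).le
    (h2.mono (by norm_num))
  intro j hj
  have h4 := unp_spec (g := fun _ => 0) (ε := 0) h H (by norm_num) (fun j hj => by simp [hz j hj]) j hj
  have h5 := inv_tau_approx
  have e2 : zv y j + I * zz (N - 1 / 2) ^ (2 * j + 1) / tau
      = (zv y j - (0 + I ^ 3 * ((79228162514264337593543950336 : ℕ) / tauI)
        * zz (N - 1 / 2) ^ (2 * j + 1)))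
        - I * ((2 : ℝ) ^ 96 / tauI - 1 / tau : ℝ) * zz (N - 1 / 2) ^ (2 * j + 1) := by
    rw [I_pow_three]; push_cast; ring
  rw [e2]
  refine (norm_sub_le _ _).trans ?_
  rw [norm_mul, norm_mul, norm_pow, norm_zz, norm_I, norm_real, Real.norm_eq_abs]
  norm_num at h4 h5 ⊢
  linarith

lemma omegaC_spec {T z w : ℕ} (h : omegaC T z w = true) (hz : ∀ j < 1024, zv z j = 0) :
    ∃ ω : ℂ, ‖ω‖ = 1 ∧ ∀ j < 1024, ‖zv w j - ω ^ (2 * j + 1)‖ ≤ 2 / 2 ^ 30 := by
  obtain ⟨k, a, b, h1, h⟩ := expF_spec h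
  have e : ‖exp (cq 1 T 0 / 2 ^ 96)‖ = 1 := by
    rw [← norm_exp_I_mul_ofReal (T / 2 ^ 96)]
    congr 2
    simp [cq, mul_div_assoc]
  obtain ⟨P, Q, R, S, H, h⟩ := term_spec h one_pos le_rfl e.le (h1.mono (by norm_num))
  refine ⟨_, e, fun j hj => ?_⟩
  have h4 := unp_spec (g := fun _ => 0) (ε := 0) h H (by norm_num) (fun j hj => by simp [hz j hj]) j hj
  norm_num at h4 ⊢
  exact h4

end Pool.Agent.MP_88bd62_nt
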