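import Pool.Agent.MP_88bd62_nt.Spec3
import Pool.Agent.MP_88bd62_nt.Kern

/-! Soundness of the final summation. -/

namespace Pool.Agent.MP_88bd62_nt

open Complex Finset

/-- Relative closeness. -/
def Cl (a : ℝ) (x y : ℂ) : Prop := ∃ t, x = y * t ∧ ‖t - 1‖ ≤ 1 / (1 - a) - 1

lemma Cl.mono {a b : ℝ} {x y : ℂ} (h : Cl a x y) (hab : a ≤ b) (hb : b < 1) : Cl b x y := by
  obtain ⟨t, e, h⟩ := h
  refine ⟨t, e, h.trans ?_⟩
  gcongr

lemma G_mul {a b : ℝ} {t s : ℂ} (ha : 0 ≤ a) (hb : 0 ≤ b) (hab : a + b < 1)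
    (h1 : ‖t - 1‖ ≤ 1 / (1 - a) - 1) (h2 : ‖s - 1‖ ≤ 1 / (1 - b) - 1) :
    ‖t * s - 1‖ ≤ 1 / (1 - (a + b)) - 1 := by
  have h3 := norm_mul_sub h1 h2 (by simp) (by simp)
  rw [one_mul] at h3
  refine h3.trans ?_
  have h4 : 1 / (1 - a) * (1 / (1 - b)) ≤ 1 / (1 - (a + b)) := by
    rw [one_div_mul_one_div]
    exact one_div_le_one_div_of_le (by linarith) (by nlinarith)
  linarith

lemma Cl.mul {a b : ℝ} {x y x' y' : ℂ} (h : Cl a x y) (h' : Cl b x' y') (ha : 0 ≤ a) (hb : 0 ≤ b)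
    (hab : a + b < 1) : Cl (a + b) (x * x') (y * y') := by
  obtain ⟨t, rfl, h⟩ := h
  obtain ⟨s, rfl, h'⟩ := h'
  exact ⟨t * s, by ring, G_mul ha hb hab h h'⟩

lemma Cl.trans {a b : ℝ} {x y z : ℂ} (h : Cl a x y) (h' : Cl b y z) (ha : 0 ≤ a) (hb : 0 ≤ b)
    (hab : a + b < 1) : Cl (a + b) x z := by
  obtain ⟨t, rfl, h⟩ := h
  obtain ⟨s, rfl, h'⟩ := h'
  exact ⟨t * s, by ring, G_mul ha hb hab h h'⟩

lemma Cl.of_le {a r m : ℝ} {x y : ℂ} (h : ‖x - y‖ ≤ r) (hm : 0 < m) (hy : m ≤ ‖y‖) (hr : r ≤ a * m)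
    (ha : a < 1) : Cl a x y ∧ Cl a x⁻¹ y⁻¹ := by
  have hy0 : 0 < ‖y‖ := hm.trans_le hy
  have hy' : y ≠ 0 := norm_pos_iff.mp hy0
  have ha0 : 0 ≤ a := by
    have := (norm_nonneg _).trans (h.trans hr)
    exact nonneg_of_mul_nonneg_left this hm
  have h1 : ‖x - y‖ ≤ a * ‖y‖ := h.trans (hr.trans (by gcongr))
  have h2 : (1 - a) * ‖y‖ ≤ ‖x‖ := by
    have := norm_sub_norm_le y x
    rw [norm_sub_rev] at this
    linarith
  have h3 : 0 < (1 - a) * ‖y‖ := mul_pos (by linarith) hy0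
  have hx' : x ≠ 0 := norm_pos_iff.mp (h3.trans_le h2)
  have e : 1 / (1 - a) - 1 = a * ‖y‖ / ((1 - a) * ‖y‖) := by
    have : 1 - a ≠ 0 := by linarith
    field_simp; ring
  constructor
  · refine ⟨x / y, by field_simp, ?_⟩
    rw [div_sub_one hy', norm_div, e]
    gcongr
    nlinarith
  · refine ⟨y / x, by field_simp, ?_⟩
    rw [div_sub_one hx', norm_div, norm_sub_rev, e]
    gcongr

lemma Cl.exp {a : ℝ} {x y : ℂ} (h : ‖x - y‖ ≤ a) (ha : a < 1) : Cl a (exp x) (exp y) := by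
  refine ⟨Complex.exp (x - y), by rw [← Complex.exp_add]; ring_nf, ?_⟩
  have h1 := norm_exp_sub_sum_le_exp_norm_sub_sum (x - y) 1
  simp only [range_one, sum_singleton, pow_zero, Nat.factorial_zero, Nat.cast_one, div_one] at h1
  have h2 := Real.exp_bound_div_one_sub_of_interval ((norm_nonneg _).trans h) ha
  linarith [Real.exp_le_exp.mpr h]

lemma cast_div_ge (x : ℕ) {D : ℕ} (hD : 0 < D) : (x : ℝ) / D ≤ (x / D : ℕ) + 1 := by
  linarith [(abs_le.mp (abs_div_sub x hD)).1]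

lemma leaf2_spec {d s N D P R u v : ℕ} {f : ℕ → ℕ → Bool} (h : leaf2 d s N D P R u v f = true)
    {x q : ℂ} (hre : x.re = d ^ 2 * (P - R) * 2 ^ 80 / D) (hn : ‖x‖ ^ 2 = d ^ 4 * N * 2 ^ 160 / D)
    (hq : 1 ≤ s → (relA d s : ℝ) / 2 ^ 40 < 1 → Cl (relA d s / 2 ^ 40) q x) :
    ∃ u' v' : ℕ, (u' : ℝ) - v' ≤ u - v + rhoN d (2049 - d) * q.re ∧ f u' v' = true := by
  obtain ⟨h1, h⟩ := cnd_false h
  obtain ⟨h2, h⟩ := cnd_false h
  obtain ⟨h3, h⟩ := cnd_false h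
  rw [fN_eq, fN_eq] at h
  refine ⟨_, _, ?_, h⟩
  replace h2 : 0 < D := ble_t h2
  replace h3 := ble_t h3
  have h3' : (relA d s : ℝ) ≤ 1099511627775 := by exact_mod_cast h3
  obtain ⟨t, rfl, ht⟩ := hq (ble_t h1) (by rw [div_lt_one (by positivity)]; linarith)
  generalize relA d s = A at *
  have a1 : (scl d P D : ℝ) ≤ d ^ 2 * P * 2 ^ 80 / D := by
    rw [scl, div_eq, shl_eq]
    refine Nat.cast_div_le.trans (le_of_eq ?_)
    simp only [Nat.mul_eq]; push_cast; ring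
  have a2 : (d : ℝ) ^ 2 * R * 2 ^ 80 / D ≤ scl d R D + 1 := by
    rw [scl, div_eq, shl_eq]
    refine le_trans (le_of_eq ?_) (cast_div_ge _ h2)
    simp only [Nat.mul_eq]; push_cast; ring
  obtain ⟨U, hU⟩ : ∃ U, U = scl d (Nat.shiftLeft (Nat.mul (Nat.mul d d) N) 80) D := ⟨_, rfl⟩
  have a3 : ‖x‖ ≤ (U.sqrt + 1 : ℕ) := by
    refine le_of_sq_le_sq ?_ (by positivity)
    have b1 : ‖x‖ ^ 2 ≤ U + 1 := by
      rw [hn, hU, scl, div_eq, shl_eq, shl_eq]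
      refine le_trans (le_of_eq ?_) (cast_div_ge _ h2)
      simp only [Nat.mul_eq]; push_cast; ring
    exact b1.trans (by exact_mod_cast Nat.lt_succ_sqrt' U)
  have a4 : ((U.sqrt + 1 : ℕ) : ℝ) * (1 / (1 - A / 2 ^ 40) - 1) ≤ errB d A N D + 1 := by
    rw [errB, ← hU, div_eq]
    refine le_trans (le_of_eq ?_) (cast_div_ge _ (by simp only [Nat.sub_eq]; omega))
    simp only [Nat.mul_eq, Nat.add_eq, Nat.sub_eq]
    rw [Nat.cast_sub (by omega), Nat.cast_mul]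
    have : (1099511627776 : ℝ) - A ≠ 0 := by linarith
    norm_num
    field_simp
    ring
  have a5 : x.re - ‖x‖ * ‖t - 1‖ ≤ (x * t).re := by
    have e : x * t = x + x * (t - 1) := by ring
    have := (abs_le.mp (abs_re_le_norm (x * (t - 1)))).1
    rw [norm_mul] at this
    rw [e, add_re]; linarith
  have a6 : ‖x‖ * ‖t - 1‖ ≤ ((U.sqrt + 1 : ℕ) : ℝ) * (1 / (1 - A / 2 ^ 40) - 1) := by gcongr
  have a7 : (scl d P D : ℝ) - (scl d R D + errB d A N D + 2) ≤ (x * t).re := by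
    rw [mul_sub, sub_mul, sub_div] at hre
    linarith
  simp only [Nat.mul_eq, Nat.add_eq, Nat.sub_eq]
  push_cast
  have := mul_le_mul_of_nonneg_left a7 (rhoN d (2049 - d)).cast_nonneg
  linarith

lemma cast_sq2 (k a b : ℕ) : (sq2 a b : ℝ) = ‖cq k a b‖ ^ 2 := by
  rw [norm_cq_sq, sq2]; simp only [Nat.mul_eq, Nat.add_eq]; push_cast; ring

lemma cq_conj (k a b : ℕ) : cq (3 * k + 3) b a = (starRingEnd ℂ) (cq k a b) := by
  simp only [cq, map_mul, map_pow, map_add, conj_I, map_natCast]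
  rw [pow_add, pow_mul, I_pow_three]
  linear_combination (-(-I) ^ k * a : ℂ) * I_mul_I

lemma P_close {d : ℕ} (hd : 1 ≤ d) :
    Cl (1 / 2 ^ 30) (2 ^ 96 * (pt 1 d * Real.log 2))⁻¹ (cq 0 l2I (d * piI))⁻¹ := by
  have hd' : (1 : ℝ) ≤ d := by exact_mod_cast hd
  refine (Cl.of_le (r := d * 2 ^ 96 / 2 ^ 30) (m := d * 2 ^ 96) ?_ (by positivity) ?_
    (le_of_eq (by ring)) (by norm_num)).2
  · have e : 2 ^ 96 * (pt 1 d * Real.log 2) - cq 0 l2I (d * piI)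
        = (2 ^ 96 * Real.log 2 - l2I : ℝ) + (d * (2 ^ 96 * (tau * Real.log 2) - piI) : ℝ) * I := by
      simp only [pt, cq]
      generalize Real.log 2 = L
      push_cast; ring
    rw [e, tau, div_mul_cancel₀ _ log2_pos.ne']
    refine (norm_add_le _ _).trans ?_
    rw [norm_mul, norm_I, mul_one, norm_real, norm_real, Real.norm_eq_abs, Real.norm_eq_abs,
      abs_mul, Nat.abs_cast]
    have h1 : |2 ^ 96 * Real.log 2 - l2I| ≤ 2 ^ 65 := by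
      have := abs_le.mp Real.log_two_near_10
      rw [l2I, abs_le]; norm_num at this ⊢; constructor <;> linarith [this.1, this.2]
    have h2 : |2 ^ 96 * Real.pi - piI| ≤ 2 ^ 65 := by
      have := Real.pi_gt_d20
      have := Real.pi_lt_d20
      rw [piI, abs_le]; norm_num at *; constructor <;> linarith
    have h3 := mul_le_mul_of_nonneg_left h2 d.cast_nonneg
    generalize |2 ^ 96 * Real.log 2 - l2I| = x, |2 ^ 96 * Real.pi - piI| = y at h1 h3 ⊢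
    norm_num at h1 h3 ⊢
    linarith
  · refine le_of_sq_le_sq ?_ (norm_nonneg _)
    rw [norm_cq_sq]
    have h1 : (d : ℝ) * 2 ^ 96 ≤ (d * piI : ℕ) := by
      rw [Nat.cast_mul]; gcongr; norm_num [piI]
    have : ((d : ℝ) * 2 ^ 96) ^ 2 ≤ ((d * piI : ℕ) : ℝ) ^ 2 := by gcongr
    linarith [sq_nonneg (l2I : ℝ)]

lemma leaf_spec {d z l y w u v : ℕ} {f : ℕ → ℕ → Bool} (h : leaf d z l y w u v f = true)
    (hd : 1 ≤ d) {ζ Λ Ω : ℂ}
    (hζ : ‖d * ζ - (d * sv z + sv y)‖ ≤ (d * (1177 * d ^ 2 + 20521200) + 2048) / 2 ^ 40)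
    (hΛ : ‖Λ - sv l‖ ≤ 190094000 / 2 ^ 40) (hΩ : ‖Ω‖ = 1) (hw : ‖sv w - Ω‖ ≤ 2 / 2 ^ 30) :
    ∃ u' v' : ℕ, (u' : ℝ) - v' ≤ u - v + rhoN d (2049 - d) *
      (2 ^ 40 * (Ω * (exp Λ / (ζ ^ 2 * (pt 1 d * Real.log 2)))) : ℂ).re ∧ f u' v' = true := by
  obtain ⟨k₁, a₁, b₁, e₁, h⟩ := nrm_spec h
  obtain ⟨k₂, a₂, b₂, e₂, h⟩ := nrm_spec h
  obtain ⟨k₃, a₃, b₃, e₃, h⟩ := expF_spec h
  obtain ⟨k₄, a₄, b₄, e₄, h⟩ := nrm_spec h
  obtain ⟨k₅, a₅, b₅, e₅, h⟩ := mulq0_spec h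
  obtain ⟨k₆, a₆, b₆, e₆, h⟩ := mulq0_spec h
  obtain ⟨k₇, a₇, b₇, e₇, h⟩ := mulq0_spec h
  obtain ⟨k₈, a₈, b₈, e₈, h⟩ := mulq0_spec h
  obtain ⟨P, Q, R, S, e₉, -, h⟩ := rot_spec h
  obtain ⟨h1, h⟩ := cnd_false h
  simp only [Nat.mul_eq, Nat.add_eq, shl_eq, shr_eq, lo_eq] at e₁ e₂ e₃ e₄ e₇ e₈ h1
  have hd' : (1 : ℝ) ≤ d := by exact_mod_cast hd
  have f₁ : cq k₁ a₁ b₁ = 2 ^ 40 * (d * sv z + sv y) := by
    rw [e₁]; simp only [sv, c4]
    generalize z / 2 ^ 48 = x₁, z % 2 ^ 48 = x₂, y / 2 ^ 48 = x₃, y % 2 ^ 48 = x₄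
    push_cast; ring
  have f₂ : cq k₂ (a₂ * 2 ^ 56) (b₂ * 2 ^ 56) / 2 ^ 96 = sv l := by
    have : cq k₂ (a₂ * 2 ^ 56) (b₂ * 2 ^ 56) = cq k₂ a₂ b₂ * 2 ^ 56 := by
      simp only [cq]; push_cast; ring
    rw [this, e₂, sv]
    generalize l / 2 ^ 48 = x₁, l % 2 ^ 48 = x₂
    norm_num; ring
  have f₄ : cq k₄ a₄ b₄ = 2 ^ 40 * sv w := by
    rw [e₄, sv]
    generalize w / 2 ^ 48 = x₁, w % 2 ^ 48 = x₂
    norm_num; ring
  rw [f₂] at e₃
  rw [cq_conj] at e₈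
  refine leaf2_spec h (x := d ^ 2 * 2 ^ 80 * (cq k₅ a₅ b₅ / cq k₇ a₇ b₇)) ?_ ?_ fun hs hA => ?_
  · have e : c4 P Q R S = cq k₅ a₅ b₅ * (starRingEnd ℂ) (cq k₇ a₇ b₇) := by
      rw [e₉, ← e₈]; simp [cq, c4]
    have e' : (d : ℂ) ^ 2 * 2 ^ 80 * (cq k₅ a₅ b₅ / cq k₇ a₇ b₇)
        = (((d : ℝ) ^ 2 * 2 ^ 80 / sq2 a₇ b₇ : ℝ) : ℂ) * c4 P Q R S := by
      rw [e, cast_sq2 k₇, Complex.sq_norm, div_eq_mul_inv, Complex.inv_def]; push_cast; ring
    rw [e', re_ofReal_mul]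
    simp [c4]; ring
  · rw [cast_sq2 k₇ a₇ b₇, cast_sq2 k₅ a₅ b₅, norm_mul, norm_mul, norm_div, norm_pow, norm_pow,
      Complex.norm_natCast, Complex.norm_two]
    ring
  · set s := (sq2 a₁ b₁).sqrt with hs0
    have hs' : (1 : ℝ) ≤ s := by exact_mod_cast hs
    obtain ⟨E, hE⟩ : ∃ E : ℕ, E = d * (1177 * (d * d) + 20521200) + 2048 := ⟨_, rfl⟩
    obtain ⟨A, hA1⟩ : ∃ A : ℕ, A = E * 2 ^ 40 / s + 1 := ⟨_, rfl⟩
    have eA : (relA d s : ℝ) = 2 * A + 190100000 := by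
      have : relA d s = 2 * A + 190100000 := by rw [hA1, hE, relA, shl_eq]; rfl
      rw [this]; push_cast; rfl
    rw [eA] at hA ⊢
    have hA0 : (0 : ℝ) ≤ A / 2 ^ 40 := by positivity
    rw [add_div, mul_div_assoc] at hA ⊢
    have c1 : Cl (A / 2 ^ 40) (2 ^ 40 * (d * ζ))⁻¹ (cq k₁ a₁ b₁)⁻¹ := by
      refine (Cl.of_le (r := E) (m := s) ?_ (by linarith) ?_ ?_ (by norm_num at hA hA0 ⊢; linarith)).2
      · rw [f₁, ← mul_sub, norm_mul, norm_pow, Complex.norm_two, hE]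
        rw [le_div_iff₀ (by positivity)] at hζ
        push_cast
        linarith
      · refine le_of_sq_le_sq ?_ (norm_nonneg _)
        rw [← cast_sq2]
        exact_mod_cast Nat.sqrt_le' _
      · have := cast_div_ge (E * 2 ^ 40) (D := s) hs
        rw [div_le_iff₀ (by linarith), ← Nat.cast_succ, Nat.succ_eq_add_one, ← hA1] at this
        push_cast at this
        rw [div_mul_eq_mul_div, le_div_iff₀ (by positivity)]
        norm_num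
        linarith
    have c2 : Cl (190094000 / 2 ^ 40) (2 ^ 96 * exp Λ) (2 ^ 96 * exp (sv l)) := by
      obtain ⟨t, e, ht⟩ := Cl.exp hΛ (by norm_num)
      exact ⟨t, by rw [e, mul_assoc], ht⟩
    have c3 : Cl (1 / 2 ^ 40) (2 ^ 96 * exp (sv l)) (cq k₃ a₃ b₃) := by
      refine (Cl.of_le (r := 2 ^ 30) (m := 2 ^ 94) ?_ (by positivity) ?_ (by norm_num)
        (by norm_num)).1
      · have e : 2 ^ 96 * exp (sv l) - cq k₃ a₃ b₃ = -(2 ^ 96 * (cq k₃ a₃ b₃ / 2 ^ 96 - exp (sv l))) := by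
          ring
        have h2 : ‖cq k₃ a₃ b₃ / 2 ^ 96 - exp (sv l)‖ ≤ _ := e₃
        rw [e, norm_neg, norm_mul, norm_pow, Complex.norm_two]
        linarith
      · have h2 : (39614081257132168796771975168 : ℝ) ≤ a₃ + b₃ := by exact_mod_cast ble_t h1
        linarith [le_norm_cq k₃ a₃ b₃]
    have c4' : Cl (4 / 2 ^ 30) (2 ^ 40 * Ω) (cq k₄ a₄ b₄) := by
      refine (Cl.of_le (r := 2 ^ 11) (m := 2 ^ 39) ?_ (by positivity) ?_ (by norm_num)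
        (by norm_num)).1
      · rw [f₄, ← mul_sub, norm_mul, norm_pow, Complex.norm_two, norm_sub_rev]
        linarith
      · have := norm_sub_norm_le Ω (sv w)
        rw [norm_sub_rev] at this
        rw [f₄, norm_mul, norm_pow, Complex.norm_two]
        linarith
    have c5 := P_close hd
    generalize (A : ℝ) / 2 ^ 40 = α at *
    have hα : 2 * α < 1 - 190100000 / 2 ^ 40 := by linarith
    have c6 := ((c2.trans c3 (by norm_num) (by norm_num) (by norm_num)).mul c4' (by norm_num)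
      (by norm_num) (by norm_num)).mul c5 (by norm_num) (by norm_num) (by norm_num)
    obtain ⟨t, e, ht⟩ := ((c1.mul c1 hA0 hA0 (by norm_num at hα ⊢; linarith)).mul c6
      (by linarith) (by norm_num) (by norm_num at hα ⊢; linarith)).mono
      (b := 2 * α + 190100000 / 2 ^ 40) (by norm_num; linarith) hA
    refine ⟨t, ?_, ht⟩
    have hd0 : (d : ℂ) ≠ 0 := by exact_mod_cast (by omega : d ≠ 0)
    rw [e₅, e₇, e₆]
    generalize pt 1 d * Real.log 2 = p at *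
    have e' : 2 ^ 40 * (Ω * (exp Λ / (ζ ^ 2 * p))) = d ^ 2 * 2 ^ 80 * ((2 ^ 40 * (d * ζ))⁻¹ *
        (2 ^ 40 * (d * ζ))⁻¹ * (2 ^ 96 * exp Λ * (2 ^ 40 * Ω) * (2 ^ 96 * p)⁻¹)) := by
      simp only [div_eq_mul_inv, mul_inv, sq ζ]
      generalize ζ⁻¹ = a, p⁻¹ = b
      field_simp
    rw [e', e]
    simp only [div_eq_mul_inv, mul_inv]
    ring

lemma fin_succ (n j z l y w u v : ℕ) (f : ℕ → ℕ → Bool) : fin (n + 1) j z l y w u v f =
    fin n j (z / 2 ^ (96 * 2 ^ n)) (l / 2 ^ (96 * 2 ^ n)) (y / 2 ^ (96 * 2 ^ n))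
      (w / 2 ^ (96 * 2 ^ n)) u v fun u' v' => fin n (j + 2 ^ n) (z % 2 ^ (96 * 2 ^ n))
        (l % 2 ^ (96 * 2 ^ n)) (y % 2 ^ (96 * 2 ^ n)) (w % 2 ^ (96 * 2 ^ n)) u' v' f := by
  rw [show j + 2 ^ n = j + Nat.shiftLeft 1 n by rw [shl_eq, one_mul]]
  simp only [← shr_eq, ← lo_eq, ← shl_eq 96]
  rfl

lemma fin_spec {Good : ℕ → ℕ → ℕ → ℕ → ℕ → Prop} {G : ℕ → ℝ}
    (H : ∀ j z l y w u v f, Good j z l y w → leaf (2 * j + 1) z l y w u v f = true →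
      ∃ u' v' : ℕ, (u' : ℝ) - v' ≤ u - v + G j ∧ f u' v' = true) (n : ℕ) :
    ∀ {j z l y w u v : ℕ} {f : ℕ → ℕ → Bool}, fin n j z l y w u v f = true →
      (∀ i < 2 ^ n, Good (j + i) (dg 96 n z i) (dg 96 n l i) (dg 96 n y i) (dg 96 n w i)) →
      ∃ u' v' : ℕ, (u' : ℝ) - v' ≤ u - v + ∑ i ∈ range (2 ^ n), G (j + i) ∧ f u' v' = true := by
  induction n with
  | zero =>
    intro j z l y w u v f h hg
    simpa using H j z l y w u v f (hg 0 (by norm_num)) h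
  | succ n ih =>
    intro j z l y w u v f h hg
    rw [fin_succ] at h
    rw [pow_succ, mul_two] at hg ⊢
    obtain ⟨u₁, v₁, h1, h⟩ := ih h fun i hi => by
      simpa only [dg, if_pos hi] using hg i (by omega)
    obtain ⟨u₂, v₂, h2, h⟩ := ih h fun i hi => by
      have := hg (2 ^ n + i) (by omega)
      simp only [dg, if_neg (show ¬ 2 ^ n + i < 2 ^ n by omega), add_tsub_cancel_left] at this
      rwa [add_assoc]
    refine ⟨u₂, v₂, ?_, h⟩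
    rw [sum_range_add]
    simp only [← add_assoc]
    linarith

end Pool.Agent.MP_88bd62_nt
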